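import Pool.Agent.Y221.AB.Good
import Pool.Agent.TH182.J242

/-!
Normalization of a family of meromorphic functions.
-/

set_option autoImplicit false
set_option maxHeartbeats 400000

namespace Pool.Agent.Y221.AB

open Filter Metric Set Topology Pool.Agent.TH143.EL Pool.Agent.TH182.J242

/-- elementary factors without zeros -/
theorem exists_factor' (m : ℕ) {ε : ℝ} (hε : 0 < ε) :
    ∃ h : ℂ → ℂ, Differentiable ℂ h ∧ h 0 = 1 ∧ (∀ w, h w ≠ 0) ∧
      ∀ w : ℂ, ‖w‖ ≤ 1 / 2 → ‖(1 - w) ^ m * h w - 1‖ ≤ ε := by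
  obtain ⟨n, hn⟩ : ∃ n : ℕ, (m : ℝ) * (1 / 2) ^ n < min 1 (ε / 2) := by
    have h1 : Tendsto (fun n : ℕ => (m : ℝ) * (1 / 2) ^ n) atTop (𝓝 (m * 0)) :=
      (tendsto_pow_atTop_nhds_zero_of_lt_one (by norm_num) (by norm_num)).const_mul _
    rw [mul_zero] at h1
    exact (h1.eventually_lt_const (show (0 : ℝ) < min 1 (ε / 2) by positivity)).exists
  refine ⟨fun w => Complex.exp (-(m : ℂ) * Complex.logTaylor (n + 1) (-w)), ?_, ?_,
    fun w => Complex.exp_ne_zero _, ?_⟩
  · have h1 : Differentiable ℂ (Complex.logTaylor (n + 1)) := by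
      intro z
      have h2 := Complex.hasDerivAt_logTaylor n z
      exact h2.differentiableAt
    fun_prop
  · simp [Complex.logTaylor_at_zero]
  · intro w hw
    have hw1 : ‖-w‖ < 1 := by rw [norm_neg]; linarith
    have h1 := Complex.norm_log_sub_logTaylor_le n hw1
    have hne : (1 : ℂ) - w ≠ 0 := by
      intro h
      have : w = 1 := by linear_combination -h
      rw [this] at hw
      norm_num at hw
    have h2 : (1 - w) ^ m * Complex.exp (-(m : ℂ) * Complex.logTaylor (n + 1) (-w))
        = Complex.exp ((m : ℂ) * (Complex.log (1 + -w) - Complex.logTaylor (n + 1) (-w))) := by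
      have h0 : (m : ℂ) * (Complex.log (1 + -w) - Complex.logTaylor (n + 1) (-w))
          = (m : ℂ) * Complex.log (1 + -w) + -(m : ℂ) * Complex.logTaylor (n + 1) (-w) := by ring
      rw [h0, Complex.exp_add, ← sub_eq_add_neg]
      congr 1
      rw [Complex.exp_nat_mul, Complex.exp_log hne]
    rw [h2]
    set u := (m : ℂ) * (Complex.log (1 + -w) - Complex.logTaylor (n + 1) (-w)) with hu
    have h3 : ‖u‖ ≤ m * (1 / 2) ^ n := by
      rw [hu, norm_mul, Complex.norm_natCast]
      gcongr
      refine h1.trans ?_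
      rw [norm_neg] at *
      have h4 : ‖w‖ ^ (n + 1) ≤ (1 / 2) ^ (n + 1) := by gcongr
      have h5 : (1 - ‖w‖)⁻¹ ≤ 2 := by
        rw [inv_le_comm₀ (by linarith) (by norm_num)]
        linarith
      calc ‖w‖ ^ (n + 1) * (1 - ‖w‖)⁻¹ / (n + 1) ≤ ‖w‖ ^ (n + 1) * (1 - ‖w‖)⁻¹ / 1 := by
            have : 0 ≤ (1 - ‖w‖)⁻¹ := inv_nonneg.mpr (by linarith)
            gcongr
            linarith [(Nat.cast_nonneg n : (0 : ℝ) ≤ n)]
        _ ≤ (1 / 2) ^ (n + 1) * 2 / 1 := by gcongr
        _ = (1 / 2) ^ n := by rw [pow_succ]; ring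
    have h6 : ‖u‖ ≤ 1 := h3.trans (hn.le.trans (min_le_left _ _))
    calc ‖Complex.exp u - 1‖ ≤ 2 * ‖u‖ := Complex.norm_exp_sub_one_le h6
      _ ≤ 2 * (ε / 2) := by
          have := h3.trans (hn.le.trans (min_le_right _ _))
          linarith
      _ = ε := by ring

/-- the value of a convergent product without vanishing factors -/
theorem fam_ne {ι : Type*} {g : ι → ℂ → ℂ} (hg : Fam g) {z : ℂ} (h : ∀ i, g i z ≠ 0) :
    ∏' i, g i z ≠ 0 := by
  obtain ⟨ε, hε, hb⟩ := hg.bd
  have h1 : Summable fun i => ‖g i z - 1‖ := by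
    refine Summable.of_norm_bounded_eventually (g := ε) hε ?_
    filter_upwards [hb ‖z‖] with i hi
    rw [norm_norm]
    exact hi z le_rfl
  have h2 := tprod_one_add_ne_zero_of_summable (f := fun i => g i z - 1)
    (fun i => by rw [add_sub_cancel]; exact h i) h1
  simpa using h2

/-- **Weierstrass**: entire functions with prescribed orders of vanishing -/
theorem weier (m : ℂ → ℕ) (hfin : ∀ R : ℝ, ({a | m a ≠ 0} ∩ closedBall 0 R).Finite) :
    ∃ q : ℂ → ℂ, Differentiable ℂ q ∧ ∀ z, analyticOrderAt q z = m z := by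
  classical
  set P : Set ℂ := {a | m a ≠ 0} with hP
  have hcount : P.Countable := by
    have h1 : P ⊆ ⋃ n : ℕ, P ∩ closedBall 0 n := by
      intro a ha
      obtain ⟨n, hn⟩ := exists_nat_ge ‖a‖
      exact Set.mem_iUnion.mpr ⟨n, ha, by simpa using hn⟩
    exact (Set.countable_iUnion fun n : ℕ => (hfin n).countable).mono h1
  obtain ⟨c, hc⟩ : ∃ c : ℂ, c ∉ P := by
    by_contra hcon
    push Not at hcon
    have : P = Set.univ := Set.eq_univ_of_forall hcon
    rw [this] at hcount
    exact not_countable_complex hcount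
  have : Countable P := hcount.to_subtype
  have : Encodable P := Encodable.ofCountable P
  obtain ⟨ε, hε0, _, hεs, _⟩ := posSumOfEncodable (show (0 : ℝ) < 1 by norm_num) P
  choose h hhd hh0 hhn hhb using fun a : P => exists_factor' (m a) (hε0 a)
  set g : P → ℂ → ℂ := fun a z =>
    (1 - (z - c) / ((a : ℂ) - c)) ^ (m a) * h a ((z - c) / ((a : ℂ) - c)) with hg
  have hac : ∀ a : P, (a : ℂ) - c ≠ 0 := fun a h0 => hc (by
    have : (a : ℂ) = c := by linear_combination h0
    rw [← this]; exact a.2)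
  have hFam : Fam g := by
    refine ⟨?_, ε, hεs.summable, ?_⟩
    · intro a
      have := hhd a
      simp only [hg]
      fun_prop
    · intro R
      have hfinR : {a : P | ‖(a : ℂ) - c‖ < 2 * (R + ‖c‖)}.Finite := by
        refine Set.Finite.of_finite_image (f := Subtype.val) ?_ Subtype.val_injective.injOn
        refine (hfin (2 * (R + ‖c‖) + ‖c‖)).subset ?_
        rintro _ ⟨a, ha, rfl⟩
        refine ⟨a.2, ?_⟩
        rw [mem_closedBall, dist_zero_right]
        have : ‖(a : ℂ)‖ ≤ ‖(a : ℂ) - c‖ + ‖c‖ := by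
          simpa using norm_add_le ((a : ℂ) - c) c
        have ha' : ‖(a : ℂ) - c‖ < 2 * (R + ‖c‖) := ha
        linarith
      filter_upwards [hfinR.eventually_cofinite_notMem] with a ha z hz
      have ha' : 2 * (R + ‖c‖) ≤ ‖(a : ℂ) - c‖ := by simpa using ha
      refine hhb a _ ?_
      rw [norm_div, div_le_iff₀ (norm_pos_iff.mpr (hac a))]
      have : ‖z - c‖ ≤ R + ‖c‖ := (norm_sub_le _ _).trans (by linarith)
      linarith
  have hgz : ∀ (a : P) (z : ℂ), z ≠ a → g a z ≠ 0 := by
    intro a z hza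
    refine mul_ne_zero (pow_ne_zero _ ?_) (hhn a _)
    intro h0
    apply hza
    have h1 := hac a
    field_simp at h0
    linear_combination -h0
  refine ⟨fun z => ∏' a, g a z, hFam.differentiable, ?_⟩
  intro z
  by_cases hz : z ∈ P
  · set a : P := ⟨z, hz⟩ with ha
    have h1 : (fun z => ∏' a, g a z) = fun w => (w - z) ^ (m z) • (((-1 / (z - c)) ^ (m z)) *
          h a ((w - c) / (z - c)) * ∏' i, Function.update g a (fun _ => 1) i w) := by
      funext w
      rw [hFam.split a w]
      have h2 : g a w = (w - z) ^ (m z) * ((-1 / (z - c)) ^ (m z) *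
          h a ((w - c) / (z - c))) := by
        change (1 - (w - c) / (z - c)) ^ (m z) * h a ((w - c) / (z - c)) = _
        rw [← mul_assoc, ← mul_pow]
        congr 2
        have : z - c ≠ 0 := hac a
        field_simp
        ring
      rw [h2, smul_eq_mul]
      ring
    have h3 : Differentiable ℂ fun w : ℂ => h a ((w - c) / (z - c)) := by
      have := hhd a
      fun_prop
    have h4 := (hFam.update a).differentiable
    have h5 : Differentiable ℂ fun w => (((-1 / (z - c)) ^ (m z)) *
          h a ((w - c) / (z - c)) * ∏' i, Function.update g a (fun _ => 1) i w) :=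
      ((differentiable_const _).mul h3).mul h4
    rw [h1]
    have h6 : Differentiable ℂ fun w => (w - z) ^ (m z) • (((-1 / (z - c)) ^ (m z)) *
          h a ((w - c) / (z - c)) * ∏' i, Function.update g a (fun _ => 1) i w) :=
      Differentiable.fun_smul (by fun_prop) h5
    rw [(h6.analyticAt z).analyticOrderAt_eq_natCast]
    refine ⟨_, h5.analyticAt z, ?_, Eventually.of_forall fun w => rfl⟩
    refine mul_ne_zero (mul_ne_zero (pow_ne_zero _ ?_) (hhn a _)) (fam_ne (hFam.update a) ?_)
    · have : z - c ≠ 0 := hac a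
      exact div_ne_zero (by norm_num) this
    · intro i
      by_cases hi : i = a
      · subst hi
        rw [Function.update_self]
        exact one_ne_zero
      · rw [Function.update_of_ne hi]
        apply hgz
        intro h0
        exact hi (Subtype.ext h0.symm)
  · have hm : m z = 0 := by
      by_contra hne
      exact hz hne
    rw [hm, Nat.cast_zero, (hFam.differentiable.analyticAt z).analyticOrderAt_eq_zero]
    refine fam_ne hFam fun a => hgz a z ?_
    rintro rfl
    exact hz a.2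

variable {p : ℕ}

/-- **normalization** -/
theorem exists_nrm (u : Fin (p + 1) → MK) {i0 : Fin (p + 1)} (h0 : u i0 = 1) :
    ∃ e U, Nrm u e U := by
  classical
  let μ : ℂ → WithTop ℤ := fun z => Finset.univ.inf' Finset.univ_nonempty fun i => odr (u i) z
  have hμ0 : ∀ z, μ z ≤ 0 := by
    intro z
    have := Finset.inf'_le (fun i => odr (u i) z) (Finset.mem_univ i0)
    simpa only [h0, odr_one] using this
  have hμle : ∀ z i, μ z ≤ odr (u i) z := fun z i => Finset.inf'_le _ (Finset.mem_univ i)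
  have hμat : ∀ z, ∃ i, μ z = odr (u i) z := by
    intro z
    obtain ⟨i, _, hi⟩ := Finset.exists_mem_eq_inf' Finset.univ_nonempty fun i => odr (u i) z
    exact ⟨i, hi⟩
  have hμn : ∀ z, ∃ n : ℕ, μ z = ((-(n : ℤ) : ℤ) : WithTop ℤ) := by
    intro z
    obtain ⟨k, hk⟩ := WithTop.ne_top_iff_exists.1
      (ne_top_of_le_ne_top (WithTop.coe_ne_top (a := (0 : ℤ))) (hμ0 z))
    have hk0 : k ≤ 0 := by
      have := hμ0 z
      rw [← hk] at this
      exact_mod_cast this
    refine ⟨(-k).toNat, ?_⟩
    rw [← hk]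
    congr 1
    omega
  choose m hm using hμn
  have hmz : ∀ z, (∀ i, Reg (u i) z) → m z = 0 := by
    intro z hz
    have h1 : 0 ≤ μ z := by
      obtain ⟨i, hi⟩ := hμat z
      rw [hi]
      exact reg_iff.1 (hz i)
    rw [hm z] at h1
    have h2 : (0 : ℤ) ≤ -(m z : ℤ) := by exact_mod_cast h1
    omega
  have hfin : ∀ R : ℝ, ({a | m a ≠ 0} ∩ closedBall 0 R).Finite := by
    intro R
    by_contra hinf
    obtain ⟨x, -, hx⟩ := Set.Infinite.exists_accPt_of_subset_isCompact hinf
      (isCompact_closedBall (0 : ℂ) R) Set.inter_subset_right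
    have h1 : ∀ᶠ w in 𝓝[≠] x, ∀ i, Reg (u i) w :=
      eventually_all.2 fun i => (Fn_mero (u i) x).eventually_analyticAt
    have h2 : ∃ᶠ y in 𝓝[≠] x, y ∈ {a | m a ≠ 0} ∩ closedBall 0 R :=
      accPt_iff_frequently_nhdsNE.mp hx
    obtain ⟨y, hy, hy2⟩ := (h2.and_eventually h1).exists
    exact hy.1 (hmz y hy2)
  obtain ⟨q, hq, hord⟩ := weier m hfin
  have hqm : Meromorphic q := fun z => (hq.analyticAt z).meromorphicAt
  have hqo : ∀ z, odr (cl q hqm) z = ((m z : ℤ) : WithTop ℤ) := by
    intro z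
    rw [odr_cl, (hq.analyticAt z).meromorphicOrderAt_eq, hord z]
    rfl
  have hadd : ∀ z i, odr (cl q hqm * u i) z = ((m z : ℤ) : WithTop ℤ) + odr (u i) z := by
    intro z i
    rw [odr_mul, hqo]
  refine ⟨cl q hqm, fun i => Fn (cl q hqm * u i), ?_, fun i => rfl, ?_, ?_⟩
  · intro h
    have h1 := hqo 0
    rw [h] at h1
    have h2 : odr 0 0 = ⊤ := by
      unfold odr
      rw [meromorphicOrderAt_eq_top_iff]
      have := codis_ev (Fn_const_codis 0) 0
      rw [map_zero] at this
      exact this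
    rw [h2] at h1
    exact WithTop.top_ne_coe h1
  · intro i z
    rw [reg_iff, hadd]
    have h1 := hμle z i
    rw [hm z] at h1
    calc (0 : WithTop ℤ) = ((m z : ℤ) : WithTop ℤ) + ((-(m z : ℤ) : ℤ) : WithTop ℤ) := by
          rw [← WithTop.coe_add, add_neg_cancel]
          rfl
      _ ≤ _ := by gcongr
  · intro z
    obtain ⟨i, hi⟩ := hμat z
    refine ⟨i, ?_⟩
    rw [← odr_zero_iff, hadd, ← hi, hm z, ← WithTop.coe_add, add_neg_cancel]
    rfl

end Pool.Agent.Y221.AB
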