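import Pool.Agent.Y221.AB.Prim

/-!
Sums of high powers of algebroid functions: the functions are constant.
-/

set_option autoImplicit false
set_option maxHeartbeats 400000
set_option linter.unusedSectionVars false

namespace Pool.Agent.Y221.AB

open Filter Metric Set Topology Pool.Agent.TH143.EL Polynomial Pool.Agent.W602.GT
  Pool.Agent.W603.LV IntermediateField

/-- the bound for the exponents, for all degrees up to `r` -/
def Nb (r m : ℕ) : ℕ := ∑ n ∈ Finset.range (r + 1), Nbd n m

theorem Nbd_le {n r m : ℕ} (h : n ≤ r) : Nbd n m ≤ Nb r m :=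
  Finset.single_le_sum (f := fun n => Nbd n m) (fun _ _ => Nat.zero_le _)
    (Finset.mem_range.2 (Nat.lt_succ_of_le h))

variable {E : Type} [Field E] [Algebra MK E] [Algebra ℂ E] [IsScalarTower ℂ MK E]
  [FiniteDimensional MK E]

/-- **A circuit of high powers of algebroid functions consists of constants.** -/
theorem ab1 {m N : ℕ} (hN : Nb (Module.finrank MK E) m ≤ N) (hN0 : 1 ≤ N)
    {β : Fin (m + 1) → E} (h0 : β 0 = 1)
    (hβ0 : ∀ j, β j ≠ 0) (hsum : ∑ j, β j ^ N = 0)
    (hli : LinearIndependent ℂ fun l : Fin m => β ((Fin.last m).succAbove l) ^ N)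
    (j : Fin (m + 1)) : ∃ c : ℂ, β j = algebraMap ℂ E c := by
  classical
  obtain ⟨s, hs⟩ := exists_lin_prim β
  obtain ⟨ψ, hψ⟩ := exists_psi E
  have hψc : ∀ c : ℂ, ψ (algebraMap ℂ E c) = algebraMap ℂ (AlgebraicClosure MK) c := by
    intro c
    rw [IsScalarTower.algebraMap_apply ℂ MK E, hψ, phE_const, ← IsScalarTower.algebraMap_apply]
  set ρ : E := ∑ j, algebraMap ℂ E (s j) * β j with hρ
  set ρ' : AlgebraicClosure MK := ψ ρ with hρ'
  have hint : IsIntegral MK ρ' := Algebra.IsIntegral.isIntegral ρ'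
  -- the images lie in the field generated by `ρ'`
  have hmem : ∀ j, ψ (β j) ∈ MK⟮ρ'⟯ := by
    let S : IntermediateField MK E :=
      (MK⟮ρ'⟯.toSubfield.comap ψ).toIntermediateField fun x => by
        change ψ (algebraMap MK E x) ∈ MK⟮ρ'⟯
        rw [hψ]
        exact MK⟮ρ'⟯.algebraMap_mem _
    have h1 : MK⟮ρ⟯ ≤ S := by
      rw [adjoin_simple_le_iff]
      exact mem_adjoin_simple_self MK ρ'
    intro j
    exact h1 (hs j)
  let b : Fin (m + 1) → MK⟮ρ'⟯ := fun j => ⟨ψ (β j), hmem j⟩
  have hb0 : b 0 = 1 := Subtype.ext (by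
    change ψ (β 0) = 1
    rw [h0, map_one])
  have hbne : ∀ j, b j ≠ 0 := by
    intro j h
    have h1 : ψ (β j) = 0 := congrArg Subtype.val h
    exact hβ0 j ((map_eq_zero ψ).1 h1)
  have hbsum : ∑ j, b j ^ N = 0 := by
    apply Subtype.ext
    rw [AddSubmonoidClass.coe_finsetSum]
    have h1 := congrArg ψ hsum
    rw [map_sum, map_zero] at h1
    refine Eq.trans (Finset.sum_congr rfl fun j _ => ?_) h1
    rw [map_pow]
    rfl
  let pb : PowerBasis MK MK⟮ρ'⟯ := adjoin.powerBasis hint
  have hgen : (pb.gen : AlgebraicClosure MK) = ρ' := rfl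
  have hfd : FiniteDimensional MK MK⟮ρ'⟯ := adjoin.finiteDimensional hint
  have halgC : ∀ c : ℂ, ((algebraMap ℂ MK⟮ρ'⟯ c : MK⟮ρ'⟯) : AlgebraicClosure MK) =
      algebraMap ℂ (AlgebraicClosure MK) c := fun c => rfl
  have hgs : pb.gen = ∑ j, algebraMap ℂ MK⟮ρ'⟯ (s j) * b j := by
    apply Subtype.ext
    have h1 : ρ' = ∑ j, ψ (algebraMap ℂ E (s j) * β j) := (congrArg ψ hρ).trans (map_sum _ _ _)
    refine hgen.trans (h1.trans ?_)
    refine Eq.trans ?_ (AddSubmonoidClass.coe_finsetSum _ _).symm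
    refine Finset.sum_congr rfl fun j _ => ?_
    rw [map_mul, hψc]
    rfl
  -- degrees
  have hintE : ∀ y : E, IsIntegral MK y := fun y => Algebra.IsIntegral.isIntegral y
  have hroot : ∀ y : E, ((minpoly MK y).map phE).aeval (ψ y) = 0 := by
    intro y
    have h1 := congrArg ψ (minpoly.aeval MK y)
    rw [map_zero, aeval_def, hom_eval₂] at h1
    rw [aeval_def, eval₂_map]
    have h2 : ψ.comp (algebraMap MK E) = (algebraMap MK (AlgebraicClosure MK)).comp phE :=
      RingHom.ext fun x => hψ x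
    rw [← h2]
    exact h1
  have hdim : pb.dim ≤ Module.finrank MK E := by
    have h1 : pb.dim = (minpoly MK ρ').natDegree := rfl
    rw [h1]
    have h2 : (minpoly MK ρ').natDegree ≤ ((minpoly MK ρ).map phE).natDegree := by
      refine natDegree_le_of_dvd (minpoly.dvd MK ρ' (hroot ρ)) ?_
      rw [Ne, Polynomial.map_eq_zero]
      exact minpoly.ne_zero (hintE ρ)
    rw [natDegree_map] at h2
    exact h2.trans (minpoly.natDegree_le ρ)
  obtain ⟨D₁, hD⟩ := exists_der MK⟮ρ'⟯
  have hli' : LinearIndependent ℂ fun l : Fin m => b ((Fin.last m).succAbove l) ^ N := by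
    rw [Fintype.linearIndependent_iff] at hli ⊢
    intro c hc
    apply hli c
    have h1 := congrArg (Subtype.val : MK⟮ρ'⟯ → AlgebraicClosure MK) hc
    rw [AddSubmonoidClass.coe_finsetSum] at h1
    apply ψ.injective
    rw [map_zero, map_sum]
    refine Eq.trans (Finset.sum_congr rfl fun l _ => ?_) h1
    rw [Algebra.smul_def, map_mul, hψc, map_pow]
    exact (Algebra.smul_def (c l) (ψ (β ((Fin.last m).succAbove l)) ^ N)).symm
  have hW : wr D₁ (fun l => b ((Fin.last m).succAbove l) ^ N) ≠ 0 :=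
    wr_ne (fun h hh => const_ext hD hh) _ hli'
  have hmain := main_rat pb hgs hb0 hbne hD ((Nbd_le hdim).trans hN) hbsum hW
  -- the coefficients are constant
  have hmin : minpoly MK pb.gen = minpoly MK ρ' := minpoly_gen MK ρ'
  have hdeg : (minpoly MK ρ').natDegree = pb.dim := rfl
  have hmonE : ∀ y : E, (minpoly MK y).Monic := fun y => minpoly.monic (hintE y)
  have hcc : ∀ k, ∃ c : ℂ, (minpoly MK ρ').coeff k = algebraMap ℂ MK c := by
    intro k
    rcases lt_trichotomy k pb.dim with h1 | h1 | h1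
    · have h2 : MInf ((minpoly MK pb.gen).coeff k) :=
        hmain (Sum.inr (Sum.inr (Sum.inr (Sum.inl ⟨k, h1⟩))))
      rw [hmin] at h2
      obtain ⟨P, hP0, hP⟩ := coeff_alg (hmonE ρ) (hroot ρ) k
      exact const_of_alg h2 hP0 hP
    · refine ⟨1, ?_⟩
      rw [h1, ← hdeg, (minpoly.monic hint).coeff_natDegree, map_one]
    · refine ⟨0, ?_⟩
      rw [coeff_eq_zero_of_natDegree_lt (by rw [hdeg]; exact h1), map_zero]
  choose c hc using hcc
  have halg : IsAlgebraic ℂ ρ' := by
    refine ⟨∑ i ∈ Finset.range ((minpoly MK ρ').natDegree + 1), C (c i) * X ^ i, ?_, ?_⟩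
    · intro h0
      have h2 := congrArg (fun q => coeff q (minpoly MK ρ').natDegree) h0
      simp only [finsetSum_coeff, coeff_C_mul, coeff_X_pow, mul_ite, mul_one, mul_zero,
        Finset.sum_ite_eq, Finset.mem_range, Nat.lt_succ_self, if_true, coeff_zero] at h2
      have h3 := hc (minpoly MK ρ').natDegree
      rw [(minpoly.monic hint).coeff_natDegree, h2, map_zero] at h3
      exact one_ne_zero h3
    · have h2 : aeval ρ' (minpoly MK ρ') = 0 := minpoly.aeval MK ρ'
      rw [aeval_eq_sum_range] at h2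
      rw [map_sum]
      refine Eq.trans (Finset.sum_congr rfl fun i _ => ?_) h2
      rw [map_mul, aeval_C, map_pow, aeval_X, Algebra.smul_def, hc i,
        ← IsScalarTower.algebraMap_apply]
  obtain ⟨c0, hc0⟩ := const_of_algebraic halg
  -- the degree is one
  have hminp : minpoly MK ρ' = X - C (algebraMap ℂ MK c0) := by
    rw [hc0, IsScalarTower.algebraMap_apply ℂ MK (AlgebraicClosure MK)]
    exact minpoly.eq_X_sub_C (B := AlgebraicClosure MK) (algebraMap ℂ MK c0)
  have hd1 : pb.dim = 1 := by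
    rw [← hdeg, hminp, natDegree_X_sub_C]
  have hdsc : dsc pb = 1 := by
    unfold dsc
    rw [hmin, hminp]
    simp
  -- the functions
  have hx : ∀ y : MK⟮ρ'⟯, y = algebraMap MK MK⟮ρ'⟯ (pb.basis.repr y ⟨0, by omega⟩) := by
    intro y
    conv_lhs => rw [← pb.basis.sum_repr y]
    rw [Finset.sum_eq_single ⟨0, by omega⟩]
    · rw [pb.basis_eq_pow, pow_zero, Algebra.smul_def, mul_one]
    · intro k _ hk
      exfalso
      apply hk
      apply Fin.ext
      have := k.2
      simp only
      omega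
    · intro h
      exact absurd (Finset.mem_univ _) h
  have h3 : MInf (dsc pb * pb.basis.repr (b j) ⟨0, by omega⟩) :=
    hmain (Sum.inr (Sum.inr (Sum.inr (Sum.inr (j, ⟨0, by omega⟩)))))
  rw [hdsc, one_mul] at h3
  set x := pb.basis.repr (b j) ⟨0, by omega⟩ with hxd
  have h4 : ψ (β j) = algebraMap MK (AlgebraicClosure MK) x := by
    have h5 := congrArg (Subtype.val : MK⟮ρ'⟯ → AlgebraicClosure MK) (hx (b j))
    exact h5
  have h5 : (minpoly MK (β j)).eval₂ phE x = 0 := by
    have h6 := hroot (β j)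
    rw [h4, aeval_def, eval₂_map] at h6
    apply (algebraMap MK (AlgebraicClosure MK)).injective
    rw [map_zero, hom_eval₂]
    exact h6
  obtain ⟨c1, hc1⟩ := const_of_alg h3 (minpoly.ne_zero (hintE (β j))) h5
  refine ⟨c1, ψ.injective ?_⟩
  rw [h4, hc1, hψc, ← IsScalarTower.algebraMap_apply]

end Pool.Agent.Y221.AB
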