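import Pool.Agent.Y221.AB.Ab1
import Pool.Agent.W602.GT.Sys

/-!
Borel's lemma for high powers of algebroid functions.
-/

set_option autoImplicit false
set_option maxHeartbeats 400000
set_option linter.unusedSectionVars false

namespace Pool.Agent.Y221.AB

open Filter Metric Set Topology Pool.Agent.TH143.EL Polynomial Pool.Agent.W602.GT
  Pool.Agent.W603.LV IntermediateField

/-- the bound for the exponents: at most `s` summands, functions of degree at most `r` -/
def NB (r s : ℕ) : ℕ := 1 + ∑ m ∈ Finset.range s, Nb r m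

theorem Nb_mono {r r' m : ℕ} (h : r ≤ r') : Nb r m ≤ Nb r' m :=
  Finset.sum_le_sum_of_subset (Finset.range_mono (Nat.succ_le_succ h))

theorem Nb_le_NB {r r' m s : ℕ} (h : r ≤ r') (hm : m < s) : Nb r m ≤ NB r' s := by
  refine (Nb_mono h).trans ?_
  unfold NB
  have := Finset.single_le_sum (f := fun m => Nb r' m) (fun _ _ => Nat.zero_le _)
    (Finset.mem_range.2 hm)
  omega

theorem one_le_NB (r s : ℕ) : 1 ≤ NB r s := by
  unfold NB
  omega

variable {E : Type} [Field E] [Algebra MK E] [Algebra ℂ E] [IsScalarTower ℂ MK E]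
  [FiniteDimensional MK E]

/-- high powers of pairwise independent algebroid functions are linearly independent -/
theorem bor_li {ι : Type} {r s N : ℕ} (hr : Module.finrank MK E ≤ r) (hN : NB r s ≤ N)
    {u : ι → E} (hu0 : ∀ i, u i ≠ 0)
    (hu : ∀ i j, i ≠ j → ∀ c : ℂ, u i ≠ algebraMap ℂ E c * u j)
    (A : Finset ι) (hA : A.card ≤ s) (c : ι → ℂ) (hc : ∑ i ∈ A, c i • u i ^ N = 0) :
    ∀ i ∈ A, c i = 0 := by
  classical
  have hN0 : 1 ≤ N := (one_le_NB r s).trans hN
  by_contra hcon
  push Not at hcon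
  -- a dependent set of minimal cardinality with nonzero coefficients
  let P : ℕ → Prop := fun n => ∃ (B : Finset ι) (a : ι → ℂ), B.card = n ∧ B.Nonempty ∧
    B.card ≤ s ∧ (∀ i ∈ B, a i ≠ 0) ∧ ∑ i ∈ B, a i • u i ^ N = 0
  have hP : ∃ n, P n := by
    obtain ⟨i, hi, hci⟩ := hcon
    refine ⟨_, A.filter (fun i => c i ≠ 0), c, rfl, ⟨i, Finset.mem_filter.2 ⟨hi, hci⟩⟩,
      (Finset.card_filter_le _ _).trans hA, fun j hj => (Finset.mem_filter.1 hj).2, ?_⟩
    rw [Finset.sum_filter_of_ne]
    · exact hc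
    · intro j _ hj h0
      exact hj (by rw [h0, zero_smul])
  obtain ⟨B, a, hBn, hBne, hBs, ha, hsum⟩ := Nat.find_spec hP
  have hmin : ∀ (B' : Finset ι) (a' : ι → ℂ), B'.Nonempty → B'.card < B.card →
      (∀ i ∈ B', a' i ≠ 0) → ∑ i ∈ B', a' i • u i ^ N ≠ 0 := by
    intro B' a' h1 h2 h3 h4
    have h5 : P B'.card := ⟨B', a', rfl, h1, h2.le.trans hBs, h3, h4⟩
    have h6 := Nat.find_min hP (m := B'.card) (by omega)
    exact h6 h5
  -- proper subsets are independent
  have hind : ∀ (B' : Finset ι) (a' : ι → ℂ), B'.card < B.card →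
      ∑ i ∈ B', a' i • u i ^ N = 0 → ∀ i ∈ B', a' i = 0 := by
    intro B' a' h1 h2 i hi
    by_contra h3
    refine hmin (B'.filter fun i => a' i ≠ 0) a' ⟨i, Finset.mem_filter.2 ⟨hi, h3⟩⟩
      ((Finset.card_filter_le _ _).trans_lt h1) (fun j hj => (Finset.mem_filter.1 hj).2) ?_
    rw [Finset.sum_filter_of_ne]
    · exact h2
    · intro j _ hj h0
      exact hj (by rw [h0, zero_smul])
  obtain ⟨m, hm⟩ : ∃ m, B.card = m + 1 := ⟨B.card - 1, by
    have := Finset.card_pos.2 hBne
    omega⟩
  let e : Fin (m + 1) ≃ B := (Fintype.equivFinOfCardEq (by rw [Fintype.card_coe, hm])).symm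
  have hroot : ∀ i, ∃ z : ℂ, z ^ N = a i := fun i =>
    IsAlgClosed.exists_pow_nat_eq (a i) (by omega)
  choose μ hμ using hroot
  have hμ0 : ∀ j : Fin (m + 1), μ (e j) ≠ 0 := by
    intro j h0
    apply ha (e j) (e j).2
    rw [← hμ, h0, zero_pow (by omega)]
  obtain ⟨q, hq⟩ : ∃ q : E, q = algebraMap ℂ E (μ (e 0)) * u (e 0) := ⟨_, rfl⟩
  have hq0 : q ≠ 0 := by
    rw [hq]
    exact mul_ne_zero ((_root_.map_ne_zero _).2 (hμ0 0)) (hu0 _)
  let β : Fin (m + 1) → E := fun j => algebraMap ℂ E (μ (e j)) * u (e j) / q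
  have hβN : ∀ j, β j ^ N = (a (e j) • u (e j) ^ N) / q ^ N := by
    intro j
    simp only [β]
    rw [div_pow, mul_pow, ← map_pow, hμ, Algebra.smul_def]
  have hre : ∀ f : ι → E, ∑ i ∈ B, f i = ∑ j, f (e j) := by
    intro f
    rw [← Finset.sum_coe_sort B f]
    exact (Equiv.sum_comp e (fun i : B => f i)).symm
  have h0 : β 0 = 1 := by
    simp only [β]
    rw [← hq, div_self hq0]
  have hβ0 : ∀ j, β j ≠ 0 := fun j =>
    div_ne_zero (mul_ne_zero ((_root_.map_ne_zero _).2 (hμ0 j)) (hu0 _)) hq0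
  have hβs : ∑ j, β j ^ N = 0 := by
    simp only [hβN]
    rw [← Finset.sum_div, ← hre (fun i => a i • u i ^ N), hsum, zero_div]
  have hli : LinearIndependent ℂ fun l : Fin m => β ((Fin.last m).succAbove l) ^ N := by
    rw [Fintype.linearIndependent_iff]
    intro x hx l
    -- the coefficients as a function on `ι`
    let x' : Fin (m + 1) → ℂ := (Fin.last m).insertNth 0 x
    have hx'l : ∀ l, x' ((Fin.last m).succAbove l) = x l := fun l =>
      Fin.insertNth_apply_succAbove (α := fun _ => ℂ) _ _ _ _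
    have hx'0 : x' (Fin.last m) = 0 := Fin.insertNth_apply_same (α := fun _ => ℂ) _ _ _
    let y : ι → ℂ := fun i => if h : i ∈ B then x' (e.symm ⟨i, h⟩) * a i else 0
    have hye : ∀ j, y (e j) = x' j * a (e j) := by
      intro j
      simp only [y]
      rw [dif_pos (e j).2]
      simp
    have h1 : ∑ i ∈ B, y i • u i ^ N = 0 := by
      rw [hre (fun i => y i • u i ^ N), Fin.sum_univ_succAbove _ (Fin.last m)]
      have h2 : ∀ j, y (e j) • u (e j) ^ N = q ^ N * (x' j • β j ^ N) := by
        intro j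
        rw [hye, hβN, mul_smul, Algebra.smul_def, Algebra.smul_def (x' j)]
        field_simp
      simp only [h2]
      rw [hx'0, zero_smul, mul_zero, zero_add, ← Finset.mul_sum]
      simp only [hx'l]
      rw [hx, mul_zero]
    have h2 : ∑ i ∈ B.erase (e (Fin.last m)), y i • u i ^ N = 0 := by
      rw [← Finset.sum_erase_add _ _ (e (Fin.last m)).2, hye, hx'0, zero_mul, zero_smul,
        add_zero] at h1
      exact h1
    have h3 := hind _ y (Finset.card_erase_lt_of_mem (e (Fin.last m)).2) h2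
      (e ((Fin.last m).succAbove l)) (by
        rw [Finset.mem_erase]
        refine ⟨fun h => ?_, (e _).2⟩
        have h4 := e.injective (Subtype.ext h)
        exact Fin.succAbove_ne _ _ h4)
    rw [hye, hx'l] at h3
    exact (mul_eq_zero.1 h3).resolve_right (ha _ (e _).2)
  have hNb : Nb (Module.finrank MK E) m ≤ N :=
    (Nb_le_NB hr (show m < s by omega)).trans hN
  have hm0 : m ≠ 0 := by
    intro hm0
    subst hm0
    simp only [Fin.sum_univ_succ, Finset.univ_eq_empty, Finset.sum_empty, add_zero, h0,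
      one_pow] at hβs
    exact one_ne_zero hβs
  have h01 : (0 : Fin (m + 1)) ≠ Fin.last m := by
    intro h
    apply hm0
    have := congrArg Fin.val h
    simpa using this.symm
  obtain ⟨z, hz⟩ := ab1 hNb hN0 h0 hβ0 hβs hli (Fin.last m)
  have h2 : (e (Fin.last m) : ι) ≠ e 0 := by
    intro h
    exact h01 (e.injective (Subtype.ext h)).symm
  apply hu _ _ h2 (z * μ (e 0) / μ (e (Fin.last m)))
  simp only [β] at hz
  rw [hq] at hz
  have h3 : algebraMap ℂ E (μ (e (Fin.last m))) ≠ 0 := (_root_.map_ne_zero _).2 (hμ0 _)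
  have h4 : algebraMap ℂ E (μ (e 0)) ≠ 0 := (_root_.map_ne_zero _).2 (hμ0 _)
  have h5 := hu0 (e 0)
  rw [map_div₀, map_mul]
  field_simp at hz ⊢
  linear_combination hz

/-- proportionality over the constants -/
def CProp (x y : E) : Prop := ∃ c : ℂ, c ≠ 0 ∧ x = algebraMap ℂ E c * y

theorem CProp.refl (x : E) : CProp x x := ⟨1, one_ne_zero, by rw [map_one, one_mul]⟩

theorem CProp.symm {x y : E} (h : CProp x y) : CProp y x := by
  obtain ⟨c, hc, rfl⟩ := h
  refine ⟨c⁻¹, inv_ne_zero hc, ?_⟩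
  rw [map_inv₀]
  have : algebraMap ℂ E c ≠ 0 := (_root_.map_ne_zero _).2 hc
  field_simp

theorem CProp.trans {x y z : E} (h : CProp x y) (h' : CProp y z) : CProp x z := by
  obtain ⟨c, hc, rfl⟩ := h
  obtain ⟨c', hc', rfl⟩ := h'
  exact ⟨c * c', mul_ne_zero hc hc', by rw [map_mul, mul_assoc]⟩

/-- **Borel's lemma for high powers of algebroid functions**: the sums over the classes of
proportional functions vanish. -/
theorem bor_cls {J : Type} [Fintype J] {r s N : ℕ} (hr : Module.finrank MK E ≤ r)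
    (hs : Fintype.card J ≤ s) (hN : NB r s ≤ N) {u : J → E} (hu0 : ∀ j, u j ≠ 0)
    (c : J → ℂ) (hsum : ∑ j, c j • u j ^ N = 0) (j0 : J) (A : Finset J)
    (hA : ∀ j, j ∈ A ↔ CProp (u j0) (u j)) : ∑ j ∈ A, c j • u j ^ N = 0 := by
  classical
  let S : Setoid J := ⟨fun i j => CProp (u i) (u j), fun i => CProp.refl _, fun h => h.symm,
    fun h h' => h.trans h'⟩
  let w : Quotient S → E := fun q => u q.out
  have hw : ∀ i j : Quotient S, i ≠ j → ∀ z : ℂ, w i ≠ algebraMap ℂ E z * w j := by
    intro i j hij z hz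
    apply hij
    have hz0 : z ≠ 0 := by
      intro h0
      rw [h0, map_zero, zero_mul] at hz
      exact hu0 _ hz
    have h1 : S.r i.out j.out := ⟨z, hz0, hz⟩
    have h2 := Quotient.sound (s := S) h1
    rwa [Quotient.out_eq, Quotient.out_eq] at h2
  -- the coefficients
  have hlam : ∀ j, ∃ z : ℂ, u j = algebraMap ℂ E z * w (Quotient.mk S j) := by
    intro j
    have h1 : S.r j (Quotient.mk S j).out := S.symm (Quotient.mk_out (s := S) j)
    obtain ⟨z, -, hz⟩ := h1
    exact ⟨z, hz⟩
  choose z hz using hlam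
  have hterm : ∀ j, c j • u j ^ N = (c j * z j ^ N) • w (Quotient.mk S j) ^ N := by
    intro j
    conv_lhs => rw [hz j]
    rw [mul_pow, ← map_pow, mul_smul, Algebra.smul_def (z j ^ N)]
  let γ : Quotient S → ℂ := fun q =>
    ∑ j ∈ Finset.univ.filter (fun j => Quotient.mk S j = q), c j * z j ^ N
  have hfib : ∀ q : Quotient S,
      ∑ j ∈ Finset.univ.filter (fun j => Quotient.mk S j = q), c j • u j ^ N =
        γ q • w q ^ N := by
    intro q
    simp only [γ]
    rw [Finset.sum_smul]
    refine Finset.sum_congr rfl fun j hj => ?_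
    rw [hterm j, (Finset.mem_filter.1 hj).2]
  have hsum' : ∑ q : Quotient S, γ q • w q ^ N = 0 := by
    rw [← hsum, ← Finset.sum_fiberwise Finset.univ (fun j => (Quotient.mk S j : Quotient S))]
    exact Finset.sum_congr rfl fun q _ => (hfib q).symm
  have hcard : (Finset.univ : Finset (Quotient S)).card ≤ s := by
    rw [Finset.card_univ]
    exact (Fintype.card_quotient_le S).trans hs
  have hγ := bor_li hr hN (u := w) (fun q => hu0 _) hw Finset.univ hcard γ hsum'
    (Quotient.mk S j0) (Finset.mem_univ _)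
  have hAe : A = Finset.univ.filter (fun j => Quotient.mk S j = Quotient.mk S j0) := by
    ext j
    rw [hA, Finset.mem_filter]
    constructor
    · intro h
      exact ⟨Finset.mem_univ _, Quotient.sound (s := S) (h.symm : CProp (u j) (u j0))⟩
    · intro h
      have h1 : S.r j j0 := Quotient.exact h.2
      exact CProp.symm h1
  rw [hAe, hfib, hγ, zero_smul]

end Pool.Agent.Y221.AB
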