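import Mathlib
import Pool.Agent.W602.GT.Lam
import Pool.Agent.W603.LV.Wr

/-!
Filtrations of differential fields, and the multiplication matrices of the elements of a finite
extension.
-/

set_option autoImplicit false
set_option linter.unusedSectionVars false

namespace Pool.Agent.Y221.AB

open Pool.Agent.W602.GT Pool.Agent.W603.LV Polynomial

/-- a filtration of a differential field -/
structure Filt {k K : Type} [Field k] [Field K] [Algebra k K] (D : Derivation k K K)
    (G : ℕ → K → Prop) : Prop where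
  mono : ∀ {A A' : ℕ} {x : K}, A ≤ A' → G A x → G A' x
  add : ∀ {A : ℕ} {x y : K}, G A x → G A y → G A (x + y)
  mul : ∀ {A A' : ℕ} {x y : K}, G A x → G A' y → G (A + A') (x * y)
  const : ∀ c : k, G 0 (algebraMap k K c)
  der : ∀ {A : ℕ} {x : K}, G A x → G (4 * A + 1) (D x)

variable {k K K₁ : Type} [Field k] [Field K] [Field K₁] [Algebra k K] [Algebra k K₁]
  [Algebra K K₁] [IsScalarTower k K K₁] {D : Derivation k K K} {G : ℕ → K → Prop}

namespace Filt

variable (h : Filt D G)

include h

theorem zero (A : ℕ) : G A 0 := h.mono (Nat.zero_le _) (by simpa using h.const 0)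

theorem one (A : ℕ) : G A 1 := h.mono (Nat.zero_le _) (by simpa using h.const 1)

theorem natCast (n A : ℕ) : G A (n : K) := h.mono (Nat.zero_le _) (by simpa using h.const (n : k))

theorem neg {A : ℕ} {x : K} (hx : G A x) : G A (-x) := by
  have h1 : G (0 + A) (algebraMap k K (-1) * x) := h.mul (h.const _) hx
  rw [zero_add, map_neg, map_one, neg_one_mul] at h1
  exact h1

theorem sum {ι : Type*} (s : Finset ι) (f : ι → K) {A : ℕ} (hf : ∀ i ∈ s, G A (f i)) :
    G A (∑ i ∈ s, f i) := by
  classical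
  induction s using Finset.induction_on with
  | empty => simpa using h.zero A
  | insert a s ha ih =>
    rw [Finset.sum_insert ha]
    exact h.add (hf a (Finset.mem_insert_self _ _)) (ih fun i hi => hf i (Finset.mem_insert_of_mem hi))

theorem prod {ι : Type*} (s : Finset ι) (f : ι → K) {A : ℕ} (hf : ∀ i ∈ s, G A (f i)) :
    G (s.card * A) (∏ i ∈ s, f i) := by
  classical
  induction s using Finset.induction_on with
  | empty => simpa using h.one 0
  | insert a s ha ih =>
    rw [Finset.prod_insert ha, Finset.card_insert_of_notMem ha, add_mul, one_mul, add_comm]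
    exact h.mul (hf a (Finset.mem_insert_self _ _)) (ih fun i hi => hf i (Finset.mem_insert_of_mem hi))

theorem det {n : ℕ} (M : Matrix (Fin n) (Fin n) K) {A : ℕ} (hM : ∀ i j, G A (M i j)) :
    G (n * A) M.det := by
  rw [Matrix.det_apply]
  refine h.sum _ _ fun σ _ => ?_
  have h1 : G (n * A) (∏ i, M (σ i) i) := by
    have := h.prod Finset.univ (fun i => M (σ i) i) (fun i _ => hM _ _)
    rwa [Finset.card_univ, Fintype.card_fin] at this
  rcases Int.units_eq_one_or (Equiv.Perm.sign σ) with e | e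
  · rw [e, one_smul]; exact h1
  · rw [e, Units.neg_smul, one_smul]; exact h.neg h1

end Filt

variable [FiniteDimensional K K₁]

/-- the entries of the multiplication matrix -/
def HG (pb : PowerBasis K K₁) (G : ℕ → K → Prop) (A : ℕ) (x : K₁) : Prop :=
  ∀ i j, G A (Algebra.leftMulMatrix pb.basis x i j)

variable {pb : PowerBasis K K₁} (h : Filt D G)

include h

theorem HG.mono {A A' : ℕ} {x : K₁} (hA : A ≤ A') (hx : HG pb G A x) : HG pb G A' x :=
  fun i j => h.mono hA (hx i j)

theorem HG.add {A : ℕ} {x y : K₁} (hx : HG pb G A x) (hy : HG pb G A y) :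
    HG pb G A (x + y) := by
  intro i j
  rw [map_add]
  exact h.add (hx i j) (hy i j)

theorem HG.sum {ι : Type*} (s : Finset ι) (f : ι → K₁) {A : ℕ} (hf : ∀ i ∈ s, HG pb G A (f i)) :
    HG pb G A (∑ i ∈ s, f i) := by
  intro i j
  rw [map_sum, Matrix.sum_apply]
  exact h.sum _ _ fun l hl => hf l hl i j

theorem HG.mul {A A' : ℕ} {x y : K₁} (hx : HG pb G A x) (hy : HG pb G A' y) :
    HG pb G (A + A') (x * y) := by
  intro i j
  rw [map_mul, Matrix.mul_apply]
  exact h.sum _ _ fun l _ => h.mul (hx i l) (hy l j)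

theorem HG.of {A : ℕ} {x : K} (hx : G A x) : HG pb G A (algebraMap K K₁ x) := by
  intro i j
  rw [AlgHom.commutes, Matrix.algebraMap_matrix_apply]
  split_ifs
  · exact hx
  · exact h.zero A

theorem HG.const (c : k) (A : ℕ) : HG pb G A (algebraMap k K₁ c) := by
  rw [IsScalarTower.algebraMap_apply k K K₁]
  exact HG.of h (h.mono (Nat.zero_le _) (h.const c))

theorem HG.one (A : ℕ) : HG pb G A (1 : K₁) := by
  have := HG.const (K₁ := K₁) (pb := pb) h 1 A
  rwa [map_one] at this

theorem HG.pow {A : ℕ} {x : K₁} (hx : HG pb G A x) (n : ℕ) : HG pb G (n * A) (x ^ n) := by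
  induction n with
  | zero => simpa using HG.one h 0
  | succ n ih =>
    rw [pow_succ, add_mul, one_mul]
    exact HG.mul h ih hx

theorem HG.norm {A : ℕ} {x : K₁} (hx : HG pb G A x) : G (pb.dim * A) (Algebra.norm K x) := by
  rw [Algebra.norm_eq_matrix_det pb.basis]
  exact h.det _ hx

theorem HG.repr {A : ℕ} {x : K₁} (hx : HG pb G A x) (i : Fin pb.dim) :
    G A (pb.basis.repr x i) := by
  have h0 : 0 < pb.dim := pb.dim_pos
  have h1 := hx i ⟨0, h0⟩
  rw [Algebra.leftMulMatrix_eq_repr_mul, pb.basis_eq_pow] at h1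
  simpa using h1

theorem HG.inv {A : ℕ} {y : K₁} (hy0 : y ≠ 0) (hy : HG pb G A y)
    (hn : G 1 (Algebra.norm K y)⁻¹) : HG pb G (1 + pb.dim * A) y⁻¹ := by
  intro i j
  set M := Algebra.leftMulMatrix pb.basis y with hM
  have hdet : M.det = Algebra.norm K y := (Algebra.norm_eq_matrix_det pb.basis y).symm
  have hd0 : Algebra.norm K y ≠ 0 := by
    rw [Ne, Algebra.norm_eq_zero_iff]
    exact hy0
  have h1 : M * Algebra.leftMulMatrix pb.basis y⁻¹ = 1 := by
    rw [hM, ← map_mul, mul_inv_cancel₀ hy0, map_one]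
  have h2 : M.adjugate = Algebra.norm K y • Algebra.leftMulMatrix pb.basis y⁻¹ := by
    calc M.adjugate = M.adjugate * (M * Algebra.leftMulMatrix pb.basis y⁻¹) := by
          rw [h1, mul_one]
      _ = (M.adjugate * M) * Algebra.leftMulMatrix pb.basis y⁻¹ := by rw [mul_assoc]
      _ = _ := by rw [Matrix.adjugate_mul, hdet, Matrix.smul_mul, one_mul]
  have h3 : Algebra.leftMulMatrix pb.basis y⁻¹ i j = (Algebra.norm K y)⁻¹ * M.adjugate i j := by
    rw [h2, Matrix.smul_apply, smul_eq_mul, inv_mul_cancel_left₀ hd0]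
  rw [h3]
  refine h.mul hn ?_
  rw [Matrix.adjugate_apply]
  refine h.det _ fun a b => ?_
  rw [Matrix.updateRow_apply]
  split_ifs
  · by_cases hb : b = i
    · subst hb
      rw [Pi.single_eq_same]
      exact h.one A
    · rw [Pi.single_eq_of_ne hb]
      exact h.zero A
  · exact hy a b

section gen

variable (hf : ∀ i, G 1 ((minpoly K pb.gen).coeff i))

include hf

theorem HG.gen : HG pb G 1 pb.gen := by
  intro i j
  rw [pb.leftMulMatrix, Matrix.of_apply]
  split_ifs
  · rw [pb.minpolyGen_eq]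
    exact h.neg (hf _)
  · exact h.one 1
  · exact h.zero 1

theorem HG.aeval {g : K[X]} {A d : ℕ} (hg : ∀ i, G A (g.coeff i)) (hd : g.natDegree ≤ d) :
    HG pb G (A + d) (aeval pb.gen g) := by
  rw [aeval_eq_sum_range]
  refine HG.sum h _ _ fun i hi => ?_
  rw [Algebra.smul_def]
  refine HG.mul h (HG.of h (hg i)) ?_
  have h1 := HG.pow h (HG.gen h hf) i
  rw [mul_one] at h1
  refine HG.mono h ?_ h1
  have := Finset.mem_range.1 hi
  omega

omit h hf in
theorem der_aeval {D₁ : Derivation k K₁ K₁}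
    (hD : ∀ x : K, D₁ (algebraMap K K₁ x) = algebraMap K K₁ (D x)) (ρ : K₁) (p : K[X]) {n : ℕ}
    (hn : p.natDegree < n) :
    D₁ (Polynomial.aeval ρ p) = ∑ i ∈ Finset.range n, algebraMap K K₁ (D (p.coeff i)) * ρ ^ i +
      Polynomial.aeval ρ (derivative p) * D₁ ρ := by
  have e1 : Polynomial.aeval ρ p = ∑ i ∈ Finset.range n, algebraMap K K₁ (p.coeff i) * ρ ^ i := by
    rw [aeval_eq_sum_range' hn]
    exact Finset.sum_congr rfl fun i _ => Algebra.smul_def _ _
  have e2 : Polynomial.aeval ρ (derivative p) =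
      ∑ i ∈ Finset.range n, algebraMap K K₁ (p.coeff i) * ((i : K₁) * ρ ^ (i - 1)) := by
    conv_lhs => rw [as_sum_range_C_mul_X_pow' p hn]
    rw [map_sum, map_sum]
    refine Finset.sum_congr rfl fun i _ => ?_
    rw [derivative_C_mul_X_pow, map_mul, Polynomial.aeval_C, map_pow, Polynomial.aeval_X, map_mul, map_natCast]
    ring
  rw [e1, e2, map_sum, Finset.sum_mul, ← Finset.sum_add_distrib]
  refine Finset.sum_congr rfl fun i _ => ?_
  rw [D₁.leibniz, hD, D₁.leibniz_pow]
  simp only [smul_eq_mul, nsmul_eq_mul]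
  ring

/-- the exponent for the derivative of the generator -/
def E1 (n : ℕ) : ℕ := 6 + n + (1 + n * (1 + n))

theorem HG.der_gen [CharZero K] {D₁ : Derivation k K₁ K₁}
    (hD : ∀ x : K, D₁ (algebraMap K K₁ x) = algebraMap K K₁ (D x))
    (hδ : G 1 (Algebra.norm K (Polynomial.aeval pb.gen (derivative (minpoly K pb.gen))))⁻¹) :
    HG pb G (E1 pb.dim) (D₁ pb.gen) := by
  set f := minpoly K pb.gen with hfd
  have hdeg : f.natDegree = pb.dim := pb.natDegree_minpoly
  set y := Polynomial.aeval pb.gen (derivative f) with hy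
  have hsep : f.Separable := (minpoly.irreducible pb.isIntegral_gen).separable
  have hy0 : y ≠ 0 := hsep.aeval_derivative_ne_zero (minpoly.aeval K pb.gen)
  have h1 := der_aeval hD pb.gen f (n := pb.dim + 1) (by omega)
  rw [minpoly.aeval, map_zero] at h1
  have h2 : D₁ pb.gen = - (∑ i ∈ Finset.range (pb.dim + 1),
      algebraMap K K₁ (D (f.coeff i)) * pb.gen ^ i) * y⁻¹ := by
    have h3 : y * D₁ pb.gen = - ∑ i ∈ Finset.range (pb.dim + 1),
      algebraMap K K₁ (D (f.coeff i)) * pb.gen ^ i := by linear_combination -h1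
    rw [← h3]
    field_simp
  rw [h2]
  unfold E1
  refine HG.mul h ?_ ?_
  · have h3 : HG pb G (5 + pb.dim) (∑ i ∈ Finset.range (pb.dim + 1),
        algebraMap K K₁ (D (f.coeff i)) * pb.gen ^ i) := by
      refine HG.sum h _ _ fun i hi => ?_
      refine HG.mul h (HG.of h (h.der (hf i))) ?_
      have h4 := HG.pow h (HG.gen h hf) i
      rw [mul_one] at h4
      refine HG.mono h ?_ h4
      have := Finset.mem_range.1 hi
      omega
    have h5 : HG pb G (0 + (5 + pb.dim)) (algebraMap k K₁ (-1) * ∑ i ∈ Finset.range (pb.dim + 1),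
        algebraMap K K₁ (D (f.coeff i)) * pb.gen ^ i) := HG.mul h (HG.const h _ _) h3
    rw [map_neg, map_one, neg_one_mul] at h5
    exact HG.mono h (by omega) h5
  · refine HG.inv h hy0 ?_ hδ
    refine HG.aeval h hf ?_ ?_
    · intro i
      rw [coeff_derivative]
      have h6 := h.mul (hf (i + 1)) (h.natCast (i + 1) 0)
      push_cast at h6
      exact h6
    · exact (natDegree_derivative_le f).trans (by omega)

/-- the exponent for derivatives -/
def E2 (n A : ℕ) : ℕ := 4 * A + 1 + n + E1 n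

theorem HG.der [CharZero K] {D₁ : Derivation k K₁ K₁}
    (hD : ∀ x : K, D₁ (algebraMap K K₁ x) = algebraMap K K₁ (D x))
    (hδ : G 1 (Algebra.norm K (Polynomial.aeval pb.gen (derivative (minpoly K pb.gen))))⁻¹)
    {A : ℕ} {x : K₁} (hx : HG pb G A x) : HG pb G (E2 pb.dim A) (D₁ x) := by
  have hg : HG pb G 1 pb.gen := HG.gen h hf
  have hpw : ∀ i : ℕ, HG pb G i (pb.gen ^ i) := fun i => by
    have := HG.pow h hg i
    rwa [mul_one] at this
  have e : x = ∑ i, algebraMap K K₁ (pb.basis.repr x i) * pb.gen ^ (i : ℕ) := by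
    conv_lhs => rw [← pb.basis.sum_repr x]
    refine Finset.sum_congr rfl fun i _ => ?_
    rw [pb.basis_eq_pow, Algebra.smul_def]
  rw [e, map_sum]
  refine HG.sum h _ _ fun i _ => ?_
  rw [D₁.leibniz, hD, D₁.leibniz_pow]
  simp only [smul_eq_mul, nsmul_eq_mul]
  have hi : (i : ℕ) < pb.dim := i.2
  have hr := HG.repr h hx i
  refine HG.add h ?_ ?_
  · have h1 := HG.mul h (HG.of (pb := pb) h hr) (HG.mul h (HG.const (pb := pb) (K₁ := K₁) h ((i : ℕ) : k) 0)
      (HG.mul h (hpw ((i : ℕ) - 1)) (HG.der_gen h hf hD hδ)))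
    rw [map_natCast] at h1
    refine HG.mono h ?_ h1
    unfold E2
    omega
  · refine HG.mono h ?_ (HG.mul h (hpw i) (HG.of h (h.der hr)))
    unfold E2
    omega

end gen

end Pool.Agent.Y221.AB
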