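import Pool.Agent.Y221.AB.Alg

/-!
The Wronskian of powers of elements of a finite extension: the algebraic part.
-/

set_option autoImplicit false
set_option linter.unusedSectionVars false

namespace Pool.Agent.Y221.AB

open Pool.Agent.W602.GT Pool.Agent.W603.LV Polynomial

variable {k K K₁ : Type} [Field k] [Field K] [Field K₁] [Algebra k K] [Algebra k K₁]
  [Algebra K K₁] [IsScalarTower k K K₁] {D : Derivation k K K} {G : ℕ → K → Prop}

/-- the polynomials in the derivatives of `β` which describe the derivatives of `β ^ N` -/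
noncomputable def Qs (D₁ : Derivation k K₁ K₁) (N : ℕ) (β : K₁) : ℕ → K₁
  | 0 => 1
  | l + 1 => algebraMap k K₁ ((N : k) - (l : k)) * (D₁ β * Qs D₁ N β l) + β * D₁ (Qs D₁ N β l)

theorem Qs_spec (D₁ : Derivation k K₁ K₁) {N : ℕ} {β : K₁} : ∀ l : ℕ, l ≤ N →
    (⇑D₁)^[l] (β ^ N) = β ^ (N - l) * Qs D₁ N β l := by
  intro l
  induction l with
  | zero => intro _; simp [Qs]
  | succ l ih =>
    intro hl
    rw [Function.iterate_succ_apply', ih (by omega), D₁.leibniz, D₁.leibniz_pow]
    obtain ⟨q, hq⟩ : ∃ q, N = l + 1 + q := ⟨N - (l + 1), by omega⟩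
    have e1 : N - l = q + 1 := by omega
    have e2 : N - (l + 1) = q := by omega
    have e3 : (N : k) - (l : k) = ((q + 1 : ℕ) : k) := by
      rw [hq]
      push_cast
      ring
    rw [Qs, e1, e2, e3, map_natCast]
    simp only [smul_eq_mul, nsmul_eq_mul, Nat.add_sub_cancel]
    push_cast
    ring

variable [FiniteDimensional K K₁] {pb : PowerBasis K K₁} (h : Filt D G)

/-- the exponents of the sequence -/
def E3 (n b : ℕ) : ℕ → ℕ
  | 0 => 0
  | l + 1 => E2 n b + b + E3 n b l + E2 n (E3 n b l)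

theorem E3_mono (n b : ℕ) : Monotone (E3 n b) := by
  apply monotone_nat_of_le_succ
  intro l
  rw [E3]
  omega

include h

theorem HG.Qs [CharZero K] (hf : ∀ i, G 1 ((minpoly K pb.gen).coeff i)) {D₁ : Derivation k K₁ K₁}
    (hD : ∀ x : K, D₁ (algebraMap K K₁ x) = algebraMap K K₁ (D x))
    (hδ : G 1 (Algebra.norm K (Polynomial.aeval pb.gen (derivative (minpoly K pb.gen))))⁻¹)
    {b : ℕ} {β : K₁} (hβ : HG pb G b β) (N : ℕ) (l : ℕ) :
    HG pb G (E3 pb.dim b l) (Qs D₁ N β l) := by
  induction l with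
  | zero => exact HG.one h _
  | succ l ih =>
    rw [AB.Qs, E3]
    refine HG.add h ?_ ?_
    · have h1 := HG.mul h (HG.const (pb := pb) (K₁ := K₁) h ((N : k) - (l : k)) 0)
        (HG.mul h (HG.der h hf hD hδ hβ) ih)
      refine HG.mono h ?_ h1
      omega
    · refine HG.mono h ?_ (HG.mul h hβ (HG.der h hf hD hδ ih))
      omega

/-- the exponent for the remainder -/
def E4 (n b m : ℕ) : ℕ := n * (m * (m * b + E3 n b m))

/-- **The algebraic part.** -/
theorem alg_part [CharZero K] (hf : ∀ i, G 1 ((minpoly K pb.gen).coeff i))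
    {D₁ : Derivation k K₁ K₁}
    (hD : ∀ x : K, D₁ (algebraMap K K₁ x) = algebraMap K K₁ (D x))
    (hδ : G 1 (Algebra.norm K (Polynomial.aeval pb.gen (derivative (minpoly K pb.gen))))⁻¹)
    {m b N : ℕ} {β : Fin (m + 1) → K₁} (hβ : ∀ j, HG pb G b (β j)) (hN : m ≤ N)
    (hsum : ∑ j, β j ^ N = 0) (t : Fin (m + 1) → k) :
    ∃ R : K, G (E4 pb.dim b m) R ∧
      Algebra.norm K (wr D₁ (fun l => β ((Fin.last m).succAbove l) ^ N)) *
        Algebra.norm K (∑ j, algebraMap k K₁ (t j) * β j ^ (N - m)) =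
      (∏ j, Algebra.norm K (β j)) ^ (N - m) * R := by
  classical
  -- the small determinants
  let w : Fin (m + 1) → K₁ := fun j => (Matrix.of fun i r : Fin m =>
    β (j.succAbove i) ^ (m - (r : ℕ)) * Qs D₁ N (β (j.succAbove i)) r).det
  have hw : ∀ j, HG pb G (m * (m * b + E3 pb.dim b m)) (w j) := by
    intro j
    simp only [w]
    rw [Matrix.det_apply]
    refine HG.sum h _ _ fun σ _ => ?_
    have h1 : HG pb G (m * (m * b + E3 pb.dim b m)) (∏ i, (Matrix.of fun i r : Fin m =>
        β (j.succAbove i) ^ (m - (r : ℕ)) * Qs D₁ N (β (j.succAbove i)) r) (σ i) i) := by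
      have hgen : ∀ s : Finset (Fin m), HG pb G (s.card * (m * b + E3 pb.dim b m))
          (∏ i ∈ s, (Matrix.of fun i r : Fin m =>
        β (j.succAbove i) ^ (m - (r : ℕ)) * Qs D₁ N (β (j.succAbove i)) r) (σ i) i) := by
        intro s
        induction s using Finset.induction_on with
        | empty => simpa using HG.one h 0
        | insert a s ha ih =>
          rw [Finset.prod_insert ha, Finset.card_insert_of_notMem ha, add_mul, one_mul, add_comm]
          refine HG.mul h ?_ ih
          rw [Matrix.of_apply]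
          refine HG.mono h ?_ (HG.mul h (HG.pow h (hβ _) _) (HG.Qs h hf hD hδ (hβ _) N _))
          refine add_le_add (Nat.mul_le_mul_right _ (Nat.sub_le _ _)) (E3_mono _ _ a.2.le)
      have := hgen Finset.univ
      rwa [Finset.card_univ, Fintype.card_fin] at this
    rcases Int.units_eq_one_or (Equiv.Perm.sign σ) with e | e
    · rw [e, one_smul]; exact h1
    · rw [e, Units.neg_smul, one_smul]
      have h2 := HG.mul h (HG.const (pb := pb) (K₁ := K₁) h (-1) 0) h1
      rw [map_neg, map_one, neg_one_mul, zero_add] at h2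
      exact h2
  have hwr : ∀ j, wr D₁ (fun l => β (j.succAbove l) ^ N) =
      (∏ i, β (j.succAbove i) ^ (N - m)) * w j := by
    intro j
    simp only [w]
    rw [← Matrix.det_mul_column]
    unfold wr wm
    congr 1
    ext i r
    change (⇑D₁)^[(r : ℕ)] (β (j.succAbove i) ^ N) = β (j.succAbove i) ^ (N - m) *
      (β (j.succAbove i) ^ (m - (r : ℕ)) * AB.Qs D₁ N (β (j.succAbove i)) r)
    rw [Qs_spec D₁ r (by have := r.2; omega), ← mul_assoc, ← pow_add]
    congr 2
    have := r.2
    omega
  have hsgn : ∀ j : Fin (m + 1), ∃ s : k, wr D₁ (fun l => β ((Fin.last m).succAbove l) ^ N) =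
      algebraMap k K₁ s * wr D₁ (fun l => β (j.succAbove l) ^ N) := by
    intro j
    rcases wr_succAbove D₁ (fun j => β j ^ N) hsum (Fin.last m) j with e | e
    · exact ⟨1, by rw [map_one, one_mul]; exact e⟩
    · exact ⟨-1, by rw [map_neg, map_one, neg_one_mul]; exact e⟩
  choose s hs using hsgn
  refine ⟨Algebra.norm K (∑ j, algebraMap k K₁ (t j * s j) * w j), ?_, ?_⟩
  · unfold E4
    refine HG.norm h (HG.sum h _ _ fun j _ => ?_)
    have := HG.mul h (HG.const (pb := pb) (K₁ := K₁) h (t j * s j) 0) (hw j)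
    rwa [zero_add] at this
  · rw [← map_mul, ← map_prod, ← map_pow, ← map_mul]
    congr 1
    rw [Finset.mul_sum, Finset.mul_sum]
    refine Finset.sum_congr rfl fun j _ => ?_
    rw [hs j, hwr j, ← Finset.prod_pow, Fin.prod_univ_succAbove (fun i => β i ^ (N - m)) j,
      map_mul]
    ring

end Pool.Agent.Y221.AB
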