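import Pool.Agent.Y221.AB.Main
import Pool.Agent.W602.GT.Der
import Mathlib.FieldTheory.Differential.Basic

/-!
Extensions of the derivation, constants, and composition with the exponential function.
-/

set_option autoImplicit false
set_option maxHeartbeats 400000
set_option linter.unusedSectionVars false

namespace Pool.Agent.Y221.AB

open Filter Metric Set Topology Pool.Agent.TH143.EL Polynomial

/-- an element with vanishing derivative is constant -/
theorem MD_zero {x : MK} (h : MD x = 0) : ∃ c : ℂ, x = algebraMap ℂ MK c := by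
  obtain ⟨z₀, hz₀⟩ := (mero_an (Fn_mero x)).exists
  obtain ⟨c, hc⟩ : ∃ c, c = Fn x z₀ := ⟨_, rfl⟩
  refine ⟨c, ?_⟩
  have h1 : ∀ᶠ w in 𝓝 z₀, deriv (Fn x) w = 0 := by
    have h2 := (Fn_MD (x := x) (z := z₀) hz₀)
    have h3 : ∀ w, Fn (MD x) w = 0 := fun w => by rw [h]; exact map_zero (evO w)
    filter_upwards [h2] with w hw
    rw [← hw, h3]
  have h2 : Fn x =ᶠ[𝓝 z₀] fun _ => Fn x z₀ := by
    obtain ⟨r, hr, hrb⟩ := Metric.eventually_nhds_iff_ball.1 (h1.and (reg_open hz₀))
    filter_upwards [ball_mem_nhds z₀ hr] with w hw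
    refine (convex_ball z₀ r).is_const_of_fderivWithin_eq_zero (𝕜 := ℂ) (f := Fn x) ?_ ?_ hw
      (mem_ball_self hr)
    · intro v hv
      exact (hrb v hv).2.differentiableAt.differentiableWithinAt
    · intro v hv
      rw [fderivWithin_of_isOpen isOpen_ball hv]
      ext
      simpa using (hrb v hv).1
  rw [← hc] at h2
  rw [← cl_Fn x, ← cl_const, cl_eq]
  have h3 : ∀ᶠ w in 𝓝 z₀, Fn x w = c := h2
  exact mero_id2 (Fn_mero x) (Meromorphic.const _) (x := z₀) (freq_of_ev h3)

/-! ### the derivation of a finite extension -/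

section ext

variable (E : Type) [Field E] [Algebra MK E] [Algebra ℂ E] [IsScalarTower ℂ MK E]
  [FiniteDimensional MK E]

theorem exists_der : ∃ D₁ : Derivation ℂ E E,
    ∀ x : MK, D₁ (algebraMap MK E x) = algebraMap MK E (MDer x) := by
  let i1 : Differential MK := ⟨MDer.restrictScalars ℤ⟩
  let i2 := Differential.differentialFiniteDimensional MK E
  have i3 : DifferentialAlgebra MK E := Differential.differentialAlgebraFiniteDimensional
  have h1 : ∀ x : MK, Differential.deriv (algebraMap MK E x) = algebraMap MK E (MDer x) :=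
    fun x => DifferentialAlgebra.deriv_algebraMap x
  have h2 : ∀ c : ℂ, Differential.deriv (algebraMap ℂ E c) = 0 := by
    intro c
    rw [IsScalarTower.algebraMap_apply ℂ MK E, h1, MDer_apply, MD_const, map_zero]
  refine ⟨Derivation.mk'
    { toFun := fun x => Differential.deriv x
      map_add' := fun x y => map_add _ x y
      map_smul' := fun c x => by
        rw [Algebra.smul_def, Derivation.leibniz, h2, smul_zero, add_zero, RingHom.id_apply,
          smul_eq_mul]
        exact (Algebra.smul_def c _).symm }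
    (fun x y => ?_), h1⟩
  exact Derivation.leibniz _ x y

variable {E}

/-- the constants of the derivation -/
theorem const_ext {D₁ : Derivation ℂ E E}
    (hD : ∀ x : MK, D₁ (algebraMap MK E x) = algebraMap MK E (MDer x)) {y : E} (hy : D₁ y = 0) :
    ∃ c : ℂ, y = algebraMap ℂ E c := by
  have hint : IsIntegral MK y := Algebra.IsIntegral.isIntegral y
  set f := minpoly MK y with hf
  have h1 := der_aeval hD y f (n := f.natDegree + 1) (by omega)
  rw [minpoly.aeval, map_zero, hy, mul_zero, add_zero] at h1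
  -- the polynomial with differentiated coefficients
  have hmon : f.Monic := minpoly.monic hint
  have hlead : MDer (f.coeff f.natDegree) = 0 := by
    rw [hmon.coeff_natDegree]
    exact MDer.map_one_eq_zero
  let g : MK[X] := ∑ i ∈ Finset.range f.natDegree, C (MDer (f.coeff i)) * X ^ i
  have hg : aeval y g = 0 := by
    simp only [g]
    rw [map_sum]
    rw [Finset.sum_range_succ, hlead, map_zero, zero_mul, add_zero] at h1
    refine Eq.trans (Finset.sum_congr rfl fun i _ => ?_) h1.symm
    rw [map_mul, aeval_C, map_pow, aeval_X]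
  have hgd : g.degree < f.degree := by
    rw [degree_eq_natDegree hmon.ne_zero]
    refine (degree_sum_le _ _).trans_lt ?_
    rw [Finset.sup_lt_iff (WithBot.bot_lt_coe _)]
    intro i hi
    refine (degree_C_mul_X_pow_le _ _).trans_lt ?_
    exact_mod_cast Finset.mem_range.1 hi
  have hg0 : g = 0 := by
    by_contra hne
    exact (minpoly.degree_le_of_ne_zero MK y hne hg).not_gt hgd
  have hcoef : ∀ i, MDer (f.coeff i) = 0 := by
    intro i
    rcases lt_trichotomy i f.natDegree with h | h | h
    · have h2 := congrArg (fun q => coeff q i) hg0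
      simp only [g, finsetSum_coeff, coeff_C_mul, coeff_X_pow, mul_ite, mul_one, mul_zero,
        Finset.sum_ite_eq, Finset.mem_range, h, if_true, coeff_zero] at h2
      exact h2
    · rw [h, hlead]
    · rw [coeff_eq_zero_of_natDegree_lt h, map_zero]
  choose c hc using fun i => MD_zero (hcoef i)
  -- `y` is algebraic over the complex numbers
  have halg : IsAlgebraic ℂ y := by
    refine ⟨∑ i ∈ Finset.range (f.natDegree + 1), C (c i) * X ^ i, ?_, ?_⟩
    · intro h0
      have h2 := congrArg (fun q => coeff q f.natDegree) h0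
      simp only [finsetSum_coeff, coeff_C_mul, coeff_X_pow, mul_ite, mul_one, mul_zero,
        Finset.sum_ite_eq, Finset.mem_range, Nat.lt_succ_self, if_true, coeff_zero] at h2
      have h3 := hc f.natDegree
      rw [hmon.coeff_natDegree, h2, map_zero] at h3
      exact one_ne_zero h3
    · have h2 : aeval y f = 0 := minpoly.aeval MK y
      rw [aeval_eq_sum_range] at h2
      rw [map_sum]
      refine Eq.trans (Finset.sum_congr rfl fun i _ => ?_) h2
      rw [map_mul, aeval_C, map_pow, aeval_X, Algebra.smul_def, hc i,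
        ← IsScalarTower.algebraMap_apply]
  exact Pool.Agent.W602.GT.const_of_algebraic halg

end ext

/-! ### composition with the exponential function -/

theorem codis_exp {p : ℂ → Prop} (h : ∀ᶠ z in codiscrete ℂ, p z) :
    ∀ᶠ z in codiscrete ℂ, p (Complex.exp z) := by
  apply codis_of_ev
  intro x
  have h1 : Tendsto Complex.exp (𝓝[≠] x) (𝓝[≠] Complex.exp x) :=
    (Complex.hasDerivAt_exp x).tendsto_nhdsNE (Complex.exp_ne_zero x)
  exact h1.eventually (codis_ev h (Complex.exp x))

theorem mero_exp {f : ℂ → ℂ} (hf : Meromorphic f) : Meromorphic fun z => f (Complex.exp z) :=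
  fun x => (hf (Complex.exp x)).comp_analyticAt (analyticAt_cexp)

/-- composition with the exponential function -/
noncomputable def phE : MK →+* MK where
  toFun x := cl (fun z => Fn x (Complex.exp z)) (mero_exp (Fn_mero x))
  map_one' := by
    have h : (1 : MK) = cl (fun _ => 1) (Meromorphic.const 1) := by rw [cl_const, map_one]
    rw [h, cl_eq]
    refine Eventually.of_forall fun z => ?_
    rw [← h]
    exact map_one (evO _)
  map_mul' x y := by
    rw [cl_mul, cl_eq]
    exact codis_exp (Fn_mul_codis x y)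
  map_zero' := by
    have h : (0 : MK) = cl (fun _ => 0) (Meromorphic.const 0) := by rw [cl_const, map_zero]
    rw [h, cl_eq]
    refine Eventually.of_forall fun z => ?_
    rw [← h]
    exact map_zero (evO _)
  map_add' x y := by
    rw [cl_add, cl_eq]
    exact codis_exp (Fn_add_codis x y)

theorem phE_const (c : ℂ) : phE (algebraMap ℂ MK c) = algebraMap ℂ MK c := by
  rw [← cl_const]
  change cl (fun z => Fn (cl (fun _ => c) (Meromorphic.const c)) (Complex.exp z)) _ = _
  rw [cl_eq]
  refine Eventually.of_forall fun z => ?_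
  rw [cl_const]
  exact (Fn_const c _).self_of_nhds

/-- translation -/
noncomputable def shf (a : ℂ) : MK →+* MK where
  toFun x := cl (fun z => Fn x (z + a)) (mero_comp_add (Fn_mero x) a)
  map_one' := by
    have h : (1 : MK) = cl (fun _ => 1) (Meromorphic.const 1) := by rw [cl_const, map_one]
    rw [h, cl_eq]
    refine Eventually.of_forall fun z => ?_
    rw [← h]
    exact map_one (evO _)
  map_mul' x y := by
    rw [cl_mul, cl_eq]
    exact codis_shift a (Fn_mul_codis x y)
  map_zero' := by
    have h : (0 : MK) = cl (fun _ => 0) (Meromorphic.const 0) := by rw [cl_const, map_zero]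
    rw [h, cl_eq]
    refine Eventually.of_forall fun z => ?_
    rw [← h]
    exact map_zero (evO _)
  map_add' x y := by
    rw [cl_add, cl_eq]
    exact codis_shift a (Fn_add_codis x y)

theorem Fn_shf (a : ℂ) (x : MK) (z : ℂ) : Fn (shf a x) z = Fn x (z + a) := by
  have h1 : Fn (shf a x) =ᶠ[𝓝[≠] z] fun z => Fn x (z + a) :=
    Fn_cl' (mero_comp_add (Fn_mero x) a) z
  have h2 : MeromorphicNFAt (fun z => Fn x (z + a)) z := by
    change MeromorphicNFAt (Fn x ∘ fun z => z + a) z
    rw [meromorphicNFAt_comp_add_const_iff_meromorphicNFAt]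
    exact Fn_nf x _
  exact (((Fn_nf _ z).eventuallyEq_nhdsNE_iff_eventuallyEq_nhds h2).1 h1).self_of_nhds

theorem Fn_inj {x y : MK} (h : ∀ᶠ z in codiscrete ℂ, Fn x z = Fn y z) : x = y := by
  rw [← cl_Fn x, ← cl_Fn y, cl_eq]
  exact h

/-- the period -/
noncomputable def per : ℂ := 2 * Real.pi * Complex.I

theorem per_ne : per ≠ 0 := Complex.two_pi_I_ne_zero

theorem shf_phE (k : ℕ) (x : MK) : shf (k * per) (phE x) = phE x := by
  apply Fn_inj
  have h1 : ∀ᶠ z in codiscrete ℂ, Fn (phE x) z = Fn x (Complex.exp z) :=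
    Fn_cl_codis (mero_exp (Fn_mero x))
  have h2 := codis_shift (k * per) h1
  filter_upwards [h1, h2] with z h3 h4
  rw [Fn_shf, h4, h3]
  congr 1
  rw [Complex.exp_add]
  have h5 : Complex.exp (k * per) = 1 := by
    rw [Complex.exp_eq_one_iff]
    exact ⟨k, by unfold per; push_cast; ring⟩
  rw [h5, mul_one]

/-- a function which is meromorphic at infinity and periodic is constant -/
theorem const_of_periodic {y : MK} (hy : MInf y) {a : ℂ} (ha : a ≠ 0)
    (hp : shf a y = y) : ∃ c : ℂ, y = algebraMap ℂ MK c := by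
  obtain ⟨z₀, hz₀⟩ := (mero_an (Fn_mero y)).exists
  set c := Fn y z₀ with hc
  refine ⟨c, ?_⟩
  have h1 : ∀ n : ℕ, Fn y (z₀ + n * a) = c := by
    intro n
    induction n with
    | zero => simp [hc]
    | succ n ih =>
      have h2 := Fn_shf a y (z₀ + n * a)
      rw [hp, ih] at h2
      rw [h2]
      congr 1
      push_cast
      ring
  -- the difference vanishes frequently near infinity
  have hgm : MeromorphicAt (fun w => Fn y w⁻¹ - c) 0 := hy.fun_sub (MeromorphicAt.const c 0)
  have hten : Tendsto (fun n : ℕ => (z₀ + n * a)⁻¹) atTop (𝓝[≠] 0) := by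
    have h2 : Tendsto (fun n : ℕ => z₀ + n * a) atTop (Bornology.cobounded ℂ) := by
      rw [← tendsto_norm_atTop_iff_cobounded]
      have h3 : Tendsto (fun n : ℕ => (n : ℝ) * ‖a‖ - ‖z₀‖) atTop atTop :=
        tendsto_atTop_add_const_right _ _
          (tendsto_natCast_atTop_atTop.atTop_mul_const (norm_pos_iff.2 ha))
      refine tendsto_atTop_mono (fun n => ?_) h3
      have h4 : ‖(n : ℂ) * a‖ = n * ‖a‖ := by rw [norm_mul, Complex.norm_natCast]
      have h5 : ‖(n : ℂ) * a‖ ≤ ‖z₀ + n * a‖ + ‖z₀‖ := by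
        have := norm_sub_le (z₀ + n * a) z₀
        rwa [add_sub_cancel_left] at this
      linarith
    exact (tendsto_inv₀_cobounded' ).comp h2
  have hfreq : ∃ᶠ w in 𝓝[≠] (0 : ℂ), Fn y w⁻¹ - c = 0 := by
    refine hten.frequently (Eventually.of_forall fun n => ?_).frequently
    rw [inv_inv, h1, sub_self]
  have hev := (hgm.frequently_zero_iff_eventuallyEq_zero).1 hfreq
  -- near infinity the function is constant
  obtain ⟨w, hw, hw0⟩ : ∃ w : ℂ, (∀ᶠ v in 𝓝 w, Fn y v⁻¹ - c = 0) ∧ w ≠ 0 := by
    rw [EventuallyEq, eventually_nhdsWithin_iff, Metric.eventually_nhds_iff_ball] at hev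
    obtain ⟨r, hr, hrb⟩ := hev
    refine ⟨((r / 2 : ℝ) : ℂ), ?_, by exact_mod_cast (by linarith : r / 2 ≠ 0)⟩
    have h3 : ((r / 2 : ℝ) : ℂ) ∈ ball (0 : ℂ) r := by
      rw [mem_ball_zero_iff, Complex.norm_real, Real.norm_eq_abs, abs_of_pos (by linarith)]
      linarith
    have h4 : ((r / 2 : ℝ) : ℂ) ≠ 0 := by exact_mod_cast (by linarith : r / 2 ≠ 0)
    filter_upwards [isOpen_ball.mem_nhds h3, eventually_ne_nhds h4] with v hv1 hv2
    exact hrb v hv1 hv2
  have h5 : ∀ᶠ z in 𝓝 w⁻¹, Fn y z = c := by
    have h6 : ContinuousAt (fun z : ℂ => z⁻¹) w⁻¹ := continuousAt_inv₀ (inv_ne_zero hw0)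
    have h7 : ∀ᶠ v in 𝓝 ((w⁻¹)⁻¹), Fn y v⁻¹ - c = 0 := by rw [inv_inv]; exact hw
    filter_upwards [h6.eventually h7] with z hz
    rw [inv_inv] at hz
    exact sub_eq_zero.1 hz
  rw [← cl_Fn y, ← cl_const, cl_eq]
  exact mero_id2 (Fn_mero y) (Meromorphic.const _) (x := w⁻¹) (freq_of_ev h5)

theorem shf_add (a b : ℂ) (x : MK) : shf a (shf b x) = shf (a + b) x := by
  apply Fn_inj
  refine Eventually.of_forall fun z => ?_
  rw [Fn_shf, Fn_shf, Fn_shf]
  congr 1
  ring

theorem shf_zero (x : MK) : shf 0 x = x := by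
  apply Fn_inj
  refine Eventually.of_forall fun z => ?_
  rw [Fn_shf, add_zero]

/-- **Elements which are meromorphic at infinity and algebraic over the functions of the
exponential function are constant.** -/
theorem const_of_alg {y : MK} (hy : MInf y) {P : MK[X]} (hP : P ≠ 0)
    (hPy : P.eval₂ phE y = 0) : ∃ c : ℂ, y = algebraMap ℂ MK c := by
  classical
  have hP' : P.map phE ≠ 0 := by
    rw [Ne, Polynomial.map_eq_zero]
    exact hP
  have hroot : ∀ k : ℕ, shf (k * per) y ∈ (P.map phE).roots.toFinset := by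
    intro k
    rw [Multiset.mem_toFinset, mem_roots hP', IsRoot.def, eval_map]
    have h1 := congrArg (shf (k * per)) hPy
    rw [hom_eval₂, map_zero] at h1
    have h2 : (shf (k * per)).comp phE = phE := RingHom.ext fun x => shf_phE k x
    rwa [h2] at h1
  obtain ⟨k, l, hkl, heq⟩ : ∃ k l : ℕ, k < l ∧ shf (k * per) y = shf (l * per) y := by
    obtain ⟨k, l, hne, h⟩ := Finite.exists_ne_map_eq_of_infinite
      (fun k : ℕ => (⟨shf (k * per) y, hroot k⟩ : (P.map phE).roots.toFinset))
    have h' : shf (k * per) y = shf (l * per) y := congrArg Subtype.val h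
    rcases lt_or_gt_of_ne hne with h1 | h1
    · exact ⟨k, l, h1, h'⟩
    · exact ⟨l, k, h1, h'.symm⟩
  refine const_of_periodic hy (a := ((l : ℂ) - k) * per) ?_ ?_
  · refine mul_ne_zero (sub_ne_zero.2 ?_) per_ne
    exact_mod_cast hkl.ne'
  · have h3 : ((l : ℂ) - k) * per = -(k * per) + l * per := by ring
    rw [h3, ← shf_add, ← heq, shf_add, neg_add_cancel, shf_zero]

end Pool.Agent.Y221.AB
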