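import Mathlib

/-!
Polynomials of a complex matrix, coefficients of polynomials with given roots and values, and a
lower bound for products of linear forms at finitely many points.
-/

set_option autoImplicit false
set_option maxHeartbeats 400000

namespace Pool.Agent.Y221.AB

open Polynomial Matrix

/-- the determinant of a polynomial of a matrix -/
theorem det_aeval {n : ℕ} (A : Matrix (Fin n) (Fin n) ℂ) (lam : Fin n → ℂ)
    (hA : A.charpoly = ∏ i, (X - C (lam i))) (g : ℂ[X]) :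
    (aeval A g).det = ∏ i, g.eval (lam i) := by
  have hmul : ∀ p q : ℂ[X], (aeval A p).det = ∏ i, p.eval (lam i) →
      (aeval A q).det = ∏ i, q.eval (lam i) → (aeval A (p * q)).det = ∏ i, (p * q).eval (lam i) := by
    intro p q hp hq
    rw [map_mul, Matrix.det_mul, hp, hq, ← Finset.prod_mul_distrib]
    exact Finset.prod_congr rfl fun i _ => by rw [eval_mul]
  have hC : ∀ c : ℂ, (aeval A (C c)).det = ∏ i, (C c).eval (lam i) := by
    intro c
    rw [aeval_C, Algebra.algebraMap_eq_smul_one, Matrix.det_smul, Matrix.det_one]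
    simp
  have hX : ∀ c : ℂ, (aeval A (X - C c)).det = ∏ i, (X - C c).eval (lam i) := by
    intro c
    have h1 := Matrix.eval_charpoly A c
    rw [hA, eval_prod] at h1
    simp only [eval_sub, eval_X, eval_C] at h1
    have h2 : aeval A (X - C c) = (-1 : ℂ) • (Matrix.scalar (Fin n) c - A) := by
      rw [map_sub, aeval_X, aeval_C, neg_one_smul, neg_sub]
      congr 1
    have hpow : (-1 : ℂ) ^ n = ∏ _i : Fin n, (-1 : ℂ) := by simp
    rw [h2, Matrix.det_smul, ← h1, Fintype.card_fin, hpow, ← Finset.prod_mul_distrib]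
    refine Finset.prod_congr rfl fun i _ => ?_
    simp only [eval_sub, eval_X, eval_C]
    ring
  rw [(IsAlgClosed.splits g).eq_prod_roots]
  apply hmul _ _ (hC _)
  induction g.roots using Multiset.induction_on with
  | empty =>
    have := hC 1
    simp
  | cons a s ih =>
    rw [Multiset.map_cons, Multiset.prod_cons]
    exact hmul _ _ (hX a) ih

theorem exists_lam (n : ℕ) (f : ℂ[X]) (hf : f.Monic) (hn : f.natDegree = n) :
    ∃ lam : Fin n → ℂ, f = ∏ i, (X - C (lam i)) := by
  have h1 := (IsAlgClosed.splits f).eq_prod_roots_of_monic hf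
  have h2 : f.roots.card = n := by
    rw [← hn]
    exact ((IsAlgClosed.splits f).natDegree_eq_card_roots).symm
  obtain ⟨l, hl⟩ : ∃ l : List ℂ, (l : Multiset ℂ) = f.roots := ⟨f.roots.toList, by simp⟩
  have h3 : l.length = n := by rw [← h2, ← hl]; rfl
  subst h3
  refine ⟨l.get, ?_⟩
  conv_lhs => rw [h1, ← hl]
  rw [Multiset.map_coe, Multiset.prod_coe, ← List.prod_ofFn]
  congr 1
  conv_lhs => rw [← List.ofFn_get l]
  rw [List.map_ofFn]
  rfl

/-- a polynomial which annihilates the matrix vanishes at the eigenvalues -/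
theorem eval_of_aeval {n : ℕ} (A : Matrix (Fin n) (Fin n) ℂ) (lam : Fin n → ℂ)
    (hA : A.charpoly = ∏ i, (X - C (lam i))) (h : ℂ[X]) (h0 : aeval A h = 0) (i : Fin n) :
    h.eval (lam i) = 0 := by
  have h1 := det_aeval A lam hA (h - C (h.eval (lam i)))
  have h2 : (∏ l, (h - C (h.eval (lam i))).eval (lam l)) = 0 :=
    Finset.prod_eq_zero (Finset.mem_univ i) (by simp)
  rw [h2, map_sub, h0, aeval_C, zero_sub, Algebra.algebraMap_eq_smul_one, ← neg_smul,
    Matrix.det_smul, Matrix.det_one, mul_one] at h1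
  exact neg_eq_zero.1 (pow_eq_zero_iff'.1 h1).1

/-- coefficients of a product of linear factors -/
theorem coeff_prod_le {ι : Type*} (s : Finset ι) (lam : ι → ℂ) {L : ℝ} (hL0 : 0 ≤ L)
    (hL : ∀ i, ‖lam i‖ ≤ L) (k : ℕ) : ‖(∏ i ∈ s, (X - C (lam i))).coeff k‖ ≤ (1 + L) ^ s.card := by
  classical
  induction s using Finset.induction_on generalizing k with
  | empty =>
    rw [Finset.prod_empty, coeff_one]
    split_ifs <;> simp
  | insert a s ha ih =>
    rw [Finset.prod_insert ha, Finset.card_insert_of_notMem ha, sub_mul, coeff_sub, coeff_C_mul]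
    have h1 : ‖(X * ∏ i ∈ s, (X - C (lam i))).coeff k‖ ≤ (1 + L) ^ s.card := by
      cases k with
      | zero => rw [coeff_X_mul_zero, norm_zero]; positivity
      | succ k => rw [coeff_X_mul]; exact ih k
    have h2 : ‖lam a * (∏ i ∈ s, (X - C (lam i))).coeff k‖ ≤ L * (1 + L) ^ s.card := by
      rw [norm_mul]
      exact mul_le_mul (hL a) (ih k) (norm_nonneg _) hL0
    calc _ ≤ _ := norm_sub_le _ _
      _ ≤ (1 + L) ^ s.card + L * (1 + L) ^ s.card := add_le_add h1 h2
      _ = _ := by rw [pow_succ]; ring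

theorem eval_deriv_prod {n : ℕ} (lam : Fin n → ℂ) (i : Fin n) :
    (derivative (∏ l, (X - C (lam l)))).eval (lam i) = ∏ l ∈ Finset.univ.erase i, (lam i - lam l) := by
  have h := Lagrange.eval_nodal_derivative_eval_node_eq (s := Finset.univ) (v := lam)
    (Finset.mem_univ i)
  rw [Lagrange.eval_nodal] at h
  exact h

theorem deriv_le {n : ℕ} (lam : Fin n → ℂ) {L : ℝ} (hL0 : 0 ≤ L) (hL : ∀ i, ‖lam i‖ ≤ L)
    (i : Fin n) : ‖(derivative (∏ l, (X - C (lam l)))).eval (lam i)‖ ≤ (1 + 2 * L) ^ n := by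
  rw [eval_deriv_prod, norm_prod]
  calc ∏ l ∈ Finset.univ.erase i, ‖lam i - lam l‖ ≤ ∏ l ∈ Finset.univ.erase i, (1 + 2 * L) := by
        refine Finset.prod_le_prod (fun _ _ => norm_nonneg _) fun l _ => ?_
        have := norm_sub_le (lam i) (lam l)
        have := hL i
        have := hL l
        linarith
    _ = (1 + 2 * L) ^ (n - 1) := by
        rw [Finset.prod_const, Finset.card_erase_of_mem (Finset.mem_univ i), Finset.card_fin]
    _ ≤ _ := pow_le_pow_right₀ (by linarith) (Nat.sub_le _ _)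

theorem interp_id {n : ℕ} (lam : Fin n → ℂ) (hinj : Function.Injective lam) (d : Fin n → ℂ)
    (hdi : ∀ i, d i = ∏ l ∈ Finset.univ.erase i, (lam i - lam l)) (g : ℂ[X]) (hg : g.degree < n) :
    g = ∑ i, C (g.eval (lam i)) * (C (d i)⁻¹ * ∏ l ∈ Finset.univ.erase i, (X - C (lam l))) := by
  classical
  have h1 := Lagrange.eq_interpolate (s := Finset.univ) (v := lam) hinj.injOn (f := g)
    (by rw [Finset.card_univ, Fintype.card_fin]; exact hg)
  conv_lhs => rw [h1, Lagrange.interpolate_apply]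
  refine Finset.sum_congr rfl fun i _ => ?_
  congr 1
  have h2 : Lagrange.basis Finset.univ lam i =
      ∏ j ∈ Finset.univ.erase i, (C (lam i - lam j)⁻¹ * (X - C (lam j))) := rfl
  rw [h2, Finset.prod_mul_distrib, ← map_prod, Finset.prod_inv_distrib, ← hdi]

/-- the coefficients of a polynomial of small degree, multiplied with the discriminant -/
theorem interp_le {n : ℕ} (lam : Fin n → ℂ) {L B : ℝ} (hL0 : 0 ≤ L) (hL : ∀ i, ‖lam i‖ ≤ L)
    {δ : ℂ} (hδ : δ = ∏ i, (derivative (∏ l, (X - C (lam l)))).eval (lam i)) (hδ0 : δ ≠ 0)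
    (g : ℂ[X]) (hg : g.degree < n) (hB0 : 0 ≤ B) (hB : ∀ i, ‖g.eval (lam i)‖ ≤ B) (k : ℕ) :
    ‖δ * g.coeff k‖ ≤ n * (B * ((1 + 2 * L) ^ n) ^ n * (1 + L) ^ n) := by
  classical
  have hdb0 : ∀ i, ‖(derivative (∏ l, (X - C (lam l)))).eval (lam i)‖ ≤ (1 + 2 * L) ^ n :=
    fun i => deriv_le lam hL0 hL i
  have hdi0 : ∀ i, (derivative (∏ l, (X - C (lam l)))).eval (lam i) =
    ∏ l ∈ Finset.univ.erase i, (lam i - lam l) := fun i => eval_deriv_prod lam i
  obtain ⟨d, hd⟩ : ∃ d : Fin n → ℂ, ∀ i, (derivative (∏ l, (X - C (lam l)))).eval (lam i) = d i :=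
    ⟨_, fun i => rfl⟩
  simp only [hd] at hδ hdb0 hdi0
  clear hd
  have hd0 : ∀ i, d i ≠ 0 := by
    intro i h0
    apply hδ0
    rw [hδ]
    exact Finset.prod_eq_zero (Finset.mem_univ i) h0
  have hinj : Function.Injective lam := by
    intro i j hij
    by_contra hne
    apply hd0 i
    rw [hdi0]
    exact Finset.prod_eq_zero (Finset.mem_erase.2 ⟨Ne.symm hne, Finset.mem_univ j⟩)
      (by rw [hij, sub_self])
  have e1 := interp_id lam hinj d hdi0 g hg
  have e3 : g.coeff k = ∑ i, g.eval (lam i) * ((d i)⁻¹ *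
      (∏ l ∈ Finset.univ.erase i, (X - C (lam l))).coeff k) := by
    conv_lhs => rw [e1]
    rw [finsetSum_coeff]
    exact Finset.sum_congr rfl fun i _ => by rw [coeff_C_mul, coeff_C_mul]
  have h3 : ∀ i, ‖(∏ l ∈ Finset.univ.erase i, (X - C (lam l))).coeff k‖ ≤ (1 + L) ^ n := by
    intro i
    refine (coeff_prod_le _ lam hL0 hL k).trans ?_
    refine pow_le_pow_right₀ (by linarith) ?_
    rw [Finset.card_erase_of_mem (Finset.mem_univ i), Finset.card_fin]
    exact Nat.sub_le _ _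
  obtain ⟨pc, hpc⟩ : ∃ pc : Fin n → ℂ, ∀ i,
      (∏ l ∈ Finset.univ.erase i, (X - C (lam l))).coeff k = pc i := ⟨_, fun i => rfl⟩
  simp only [hpc] at e3 h3
  clear hpc e1
  have e2 : δ * g.coeff k = ∑ i, g.eval (lam i) * (∏ l ∈ Finset.univ.erase i, d l) * pc i := by
    rw [e3, Finset.mul_sum]
    refine Finset.sum_congr rfl fun i _ => ?_
    have h4 : δ = d i * ∏ l ∈ Finset.univ.erase i, d l := by
      rw [hδ, Finset.mul_prod_erase Finset.univ d (Finset.mem_univ i)]
    have h5 : d i * (d i)⁻¹ = 1 := mul_inv_cancel₀ (hd0 i)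
    rw [h4]
    linear_combination (g.eval (lam i) * (∏ l ∈ Finset.univ.erase i, d l) * pc i) * h5
  rw [e2]
  have h1 : (1 : ℝ) ≤ (1 + 2 * L) ^ n := one_le_pow₀ (by linarith)
  have h2 : ∀ i, ‖∏ l ∈ Finset.univ.erase i, d l‖ ≤ ((1 + 2 * L) ^ n) ^ n := by
    intro i
    rw [norm_prod]
    calc _ ≤ ∏ l ∈ Finset.univ.erase i, ((1 + 2 * L) ^ n) :=
          Finset.prod_le_prod (fun _ _ => norm_nonneg _) fun l _ => hdb0 l
      _ = ((1 + 2 * L) ^ n) ^ (n - 1) := by
          rw [Finset.prod_const, Finset.card_erase_of_mem (Finset.mem_univ i),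
            Finset.card_fin]
      _ ≤ _ := pow_le_pow_right₀ h1 (Nat.sub_le _ _)
  calc _ ≤ ∑ i : Fin n, ‖g.eval (lam i) * (∏ l ∈ Finset.univ.erase i, d l) * pc i‖ :=
        norm_sum_le _ _
    _ ≤ ∑ _i : Fin n, B * ((1 + 2 * L) ^ n) ^ n * (1 + L) ^ n := by
        refine Finset.sum_le_sum fun i _ => ?_
        rw [norm_mul, norm_mul]
        refine mul_le_mul (mul_le_mul (hB i) (h2 i) (norm_nonneg _) hB0) (h3 i) (norm_nonneg _) ?_
        positivity
    _ = _ := by rw [Finset.sum_const, Finset.card_univ, Fintype.card_fin, nsmul_eq_mul]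

end Pool.Agent.Y221.AB
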