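import Mathlib

/-!
A lower bound for products of linear forms at finitely many points.
-/

set_option autoImplicit false
set_option maxHeartbeats 400000

namespace Pool.Agent.Y221.AB

open Polynomial

/-- products of linear forms at finitely many points -/
theorem lowerT (n m : ℕ) : ∃ (T : Finset (Fin (m + 1) → ℂ)) (c : ℝ), 0 < c ∧
    ∀ v : Fin n → Fin (m + 1) → ℂ, ∃ t ∈ T, c * ∏ i, ‖v i‖ ≤ ∏ i, ‖∑ j, t j * v i j‖ := by
  classical
  let tt : ℕ → Fin (m + 1) → ℂ := fun s j => (s : ℂ) ^ (j : ℕ)
  let T : Finset (Fin (m + 1) → ℂ) := (Finset.range (n * m + 1)).image tt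
  let f : (Fin n → Fin (m + 1) → ℂ) → ℝ := fun v => ∑ t ∈ T, ∏ i, ‖∑ j, t j * v i j‖
  have hTne : T.Nonempty := ⟨tt 0, Finset.mem_image_of_mem _ (by simp)⟩
  have hTpos : (0 : ℝ) < T.card := by exact_mod_cast hTne.card_pos
  let S : Set (Fin n → Fin (m + 1) → ℂ) := Set.univ.pi fun _ => Metric.sphere 0 1
  have hS : IsCompact S := isCompact_univ_pi fun _ => isCompact_sphere _ _
  have hcont : Continuous f := by
    simp only [f]
    fun_prop
  have hpos : ∀ v ∈ S, 0 < f v := by
    intro v hv
    have hv1 : ∀ i, v i ≠ 0 := by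
      intro i h0
      have := hv i (Set.mem_univ i)
      rw [h0] at this
      simp at this
    -- a good point
    let p : Fin n → ℂ[X] := fun i => ∑ j, C (v i j) * X ^ (j : ℕ)
    have hp0 : ∀ i, p i ≠ 0 := by
      intro i h0
      apply hv1 i
      funext j
      have h1 := congrArg (fun q => coeff q (j : ℕ)) h0
      simp only [p, finsetSum_coeff, coeff_C_mul, coeff_X_pow, coeff_zero, mul_ite, mul_one,
        mul_zero] at h1
      rw [Finset.sum_eq_single j] at h1
      · simpa using h1
      · intro b _ hb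
        rw [if_neg]
        intro h
        exact hb (Fin.ext h.symm)
      · intro h
        exact absurd (Finset.mem_univ j) h
    have hdeg : ∀ i, (p i).natDegree ≤ m := by
      intro i
      refine natDegree_sum_le_of_forall_le _ _ fun j _ => ?_
      refine (natDegree_C_mul_X_pow_le _ _).trans ?_
      have := j.2
      omega
    have hP0 : (∏ i, p i) ≠ 0 := Finset.prod_ne_zero_iff.2 fun i _ => hp0 i
    have hPd : (∏ i, p i).natDegree ≤ n * m := by
      refine (natDegree_prod_le _ _).trans ?_
      calc ∑ i, (p i).natDegree ≤ ∑ _i : Fin n, m := Finset.sum_le_sum fun i _ => hdeg i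
        _ = n * m := by simp
    obtain ⟨s, hs, hse⟩ : ∃ s ∈ Finset.range (n * m + 1), (∏ i, p i).eval (s : ℂ) ≠ 0 := by
      by_contra hcon
      push Not at hcon
      have h1 : ((Finset.range (n * m + 1)).image fun s : ℕ => (s : ℂ)).card ≤
          (∏ i, p i).roots.toFinset.card := by
        refine Finset.card_le_card fun x hx => ?_
        obtain ⟨s, hs, rfl⟩ := Finset.mem_image.1 hx
        rw [Multiset.mem_toFinset, mem_roots hP0]
        exact hcon s hs
      rw [Finset.card_image_of_injective _ Nat.cast_injective, Finset.card_range] at h1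
      have h2 := (Multiset.toFinset_card_le _).trans (card_roots' (∏ i, p i))
      omega
    refine Finset.sum_pos' (fun t _ => Finset.prod_nonneg fun _ _ => norm_nonneg _)
      ⟨tt s, Finset.mem_image_of_mem _ hs, ?_⟩
    refine Finset.prod_pos fun i _ => norm_pos_iff.2 ?_
    rw [eval_prod] at hse
    have h1 := Finset.prod_ne_zero_iff.1 hse i (Finset.mem_univ i)
    simp only [p, eval_finsetSum, eval_mul, eval_C, eval_pow, eval_X] at h1
    intro h0
    apply h1
    rw [← h0]
    exact Finset.sum_congr rfl fun j _ => mul_comm _ _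
  have hne : S.Nonempty := by
    refine ⟨fun _ _ => 1, fun i _ => ?_⟩
    rw [mem_sphere_zero_iff_norm]
    exact (pi_norm_const (1 : ℂ)).trans (by simp)
  obtain ⟨v0, hv0, hmin⟩ := hS.exists_isMinOn hne hcont.continuousOn
  have hc0 := hpos v0 hv0
  refine ⟨T, f v0 / T.card, by positivity, ?_⟩
  intro v
  by_cases hv : ∃ i, v i = 0
  · obtain ⟨i, hi⟩ := hv
    obtain ⟨t, ht⟩ := hTne
    refine ⟨t, ht, ?_⟩
    rw [Finset.prod_eq_zero (Finset.mem_univ i) (by rw [hi, norm_zero]), mul_zero]
    exact Finset.prod_nonneg fun _ _ => norm_nonneg _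
  · push Not at hv
    have hvn : ∀ i, 0 < ‖v i‖ := fun i => norm_pos_iff.2 (hv i)
    let u : Fin n → Fin (m + 1) → ℂ := fun i => ((‖v i‖ : ℂ)⁻¹) • v i
    have hu : u ∈ S := by
      intro i _
      rw [mem_sphere_zero_iff_norm, norm_smul, norm_inv, Complex.norm_real, norm_norm,
        inv_mul_cancel₀ (hvn i).ne']
    have h1 : f v0 ≤ f u := hmin hu
    obtain ⟨t, ht, htm⟩ := Finset.exists_le_of_sum_le (s := T) (f := fun _ => f v0 / T.card)
      (g := fun t => ∏ i, ‖∑ j, t j * u i j‖) hTne (by
        rw [Finset.sum_const, nsmul_eq_mul, mul_div_cancel₀ _ hTpos.ne']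
        exact h1)
    refine ⟨t, ht, ?_⟩
    have h2 : ∏ i, ‖∑ j, t j * v i j‖ = (∏ i, ‖v i‖) * ∏ i, ‖∑ j, t j * u i j‖ := by
      rw [← Finset.prod_mul_distrib]
      refine Finset.prod_congr rfl fun i _ => ?_
      have h3 : ∑ j, t j * u i j = (‖v i‖ : ℂ)⁻¹ * ∑ j, t j * v i j := by
        rw [Finset.mul_sum]
        refine Finset.sum_congr rfl fun j _ => ?_
        simp only [u, Pi.smul_apply, smul_eq_mul]
        ring
      rw [h3, norm_mul, norm_inv, Complex.norm_real, norm_norm, mul_inv_cancel_left₀ (hvn i).ne']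
    rw [h2, mul_comm]
    exact mul_le_mul_of_nonneg_left htm (Finset.prod_nonneg fun _ _ => norm_nonneg _)

end Pool.Agent.Y221.AB
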