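import Pool.Agent.Y221.AB.Eng

/-!
The second main theorem for normalized families of meromorphic functions.
-/

set_option autoImplicit false
set_option maxHeartbeats 400000

namespace Pool.Agent.Y221.AB

open Filter Metric Set Topology Pool.Agent.TH143.EL Pool.Agent.W602.NC Pool.Agent.W602.TL
  Pool.Agent.TH152.HY Pool.Agent.W601.PH Pool.Agent.H159R3.NV Pool.Agent.W603.BP

variable {p : ℕ} {U : Fin (p + 1) → ℂ → ℂ} {u : Fin (p + 1) → MK} {e : MK}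

theorem Nrm.Fn_e (h : Nrm u e U) {i0 : Fin (p + 1)} (h0 : u i0 = 1) (z : ℂ) :
    Reg e z ∧ Fn e z = U i0 z := by
  have h1 := h.reg i0 z
  have h2 := h.eq i0
  rw [h0, mul_one] at h1 h2
  exact ⟨h1, by rw [h2]⟩

theorem homog (h : Nrm u e U) {i0 : Fin (p + 1)} (h0 : u i0 = 1) {c : Fin (p + 1) → ℕ}
    {P₀ : MK} {A κ : ℕ} (hκ : κ ≤ ∑ i, c i) {C : ℝ} {z : ℂ} {ε B : ℝ} (hε : 0 < ε)
    (hc : Calm U z ε B) (hP : Reg P₀ z)
    (hpt : ‖Fn P₀ z‖ * (sup U z / ‖U i0 z‖) ^ κ ≤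
      C * (B / ε) ^ A * ∏ i, (‖U i z‖ / ‖U i0 z‖) ^ c i) :
    Reg (e ^ (∑ i, c i - κ) * P₀) z ∧
    ‖Fn (e ^ (∑ i, c i - κ) * P₀) z‖ * sup U z ^ κ ≤ C * (B / ε) ^ A * ∏ i, ‖U i z‖ ^ c i := by
  obtain ⟨he, hev⟩ := h.Fn_e h0 z
  have hm : e ^ (∑ i, c i - κ) * P₀ ∈ Oz z := (Oz z).mul_mem ((Oz z).pow_mem he _) hP
  refine ⟨hm, ?_⟩
  have e1 : Fn (e ^ (∑ i, c i - κ) * P₀) z = U i0 z ^ (∑ i, c i - κ) * Fn P₀ z := by
    have := map_mul (evO z) (⟨e, he⟩ ^ (∑ i, c i - κ)) ⟨P₀, hP⟩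
    rw [map_pow, evO_apply, evO_apply, hev] at this
    exact this
  have hv : 0 < ‖U i0 z‖ := norm_pos_iff.2 (hc.1 i0 z (mem_closedBall_self hε.le))
  rw [e1, norm_mul, norm_pow]
  obtain ⟨q, hq⟩ : ∃ q, ∑ i, c i = q + κ := ⟨∑ i, c i - κ, by omega⟩
  have hq' : ∑ i, c i - κ = q := by omega
  rw [hq']
  set v := ‖U i0 z‖ with hvd
  have h2 : ∏ i, (‖U i z‖ / v) ^ c i = (∏ i, ‖U i z‖ ^ c i) / v ^ (q + κ) := by
    rw [← hq, ← Finset.prod_pow_eq_pow_sum, ← Finset.prod_div_distrib]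
    exact Finset.prod_congr rfl fun i _ => div_pow _ _ _
  rw [h2] at hpt
  have h3 := mul_le_mul_of_nonneg_right hpt (pow_nonneg hv.le (q + κ))
  have h4 : C * (B / ε) ^ A * ((∏ i, ‖U i z‖ ^ c i) / v ^ (q + κ)) * v ^ (q + κ) =
      C * (B / ε) ^ A * ∏ i, ‖U i z‖ ^ c i := by
    field_simp
  rw [h4] at h3
  refine le_trans (le_of_eq ?_) h3
  rw [div_pow, pow_add]
  field_simp

theorem Q_order (h : Nrm u e U) {c : Fin (p + 1) → ℕ} {Q : MK} {A κ : ℕ} {C : ℝ} (hC : 0 ≤ C)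
    (hQ : ∀ z ε B, 0 < ε → ε ≤ 1 → 1 ≤ B → Calm U z ε B →
      Reg Q z ∧ ‖Fn Q z‖ * sup U z ^ κ ≤ C * (B / ε) ^ A * ∏ i, ‖U i z‖ ^ c i)
    {z₀ : ℂ} {a : Fin (p + 1) → ℕ} (ha : ∀ i, analyticOrderAt (U i) z₀ = a i) :
    ((∑ i, c i * a i : ℕ) : ℤ) ≤ odr Q z₀ + ((A : ℤ) : WithTop ℤ) := by
  have hzero : ∃ i, a i = 0 := by
    obtain ⟨i, hi⟩ := h.nz z₀
    refine ⟨i, ?_⟩
    have := (h.an i z₀).analyticOrderAt_eq_zero.2 hi
    rw [ha i] at this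
    exact_mod_cast this
  obtain ⟨is, his⟩ := hzero
  choose l L hl hL hb using fun i => two_sided (h.an i z₀) (ha i)
  obtain ⟨B₀, hB₀, hcalm⟩ := calm_near h ha
  have hX : AnalyticAt ℂ (fun z : ℂ => (z - z₀) ^ A) z₀ := by fun_prop
  have hm : MeromorphicAt (Fn Q * fun z => (z - z₀) ^ A) z₀ :=
    (Fn_mero Q z₀).mul hX.meromorphicAt
  have h1 : ((∑ i, c i * a i : ℕ) : ℤ) ≤
      meromorphicOrderAt (Fn Q * fun z => (z - z₀) ^ A) z₀ := by
    refine order_ge hm (C := C * (2 * B₀) ^ A * (∏ i, L i ^ c i) / l is ^ κ) ?_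
    have hnear : ∀ᶠ z in 𝓝[≠] z₀, z ∈ ball z₀ 1 :=
      nhdsWithin_le_nhds (ball_mem_nhds z₀ one_pos)
    filter_upwards [hcalm, nhdsWithin_le_nhds (eventually_all.2 hb), hnear, self_mem_nhdsWithin]
      with z hz1 hz2 hz3 hz4
    have hd : 0 < ‖z - z₀‖ := norm_pos_iff.2 (sub_ne_zero.2 hz4)
    rw [mem_ball, dist_eq_norm] at hz3
    obtain ⟨-, hq⟩ := hQ z (‖z - z₀‖ / 2) B₀ (by linarith) (by linarith) hB₀ hz1
    have hs : l is ≤ sup U z := by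
      have h2 := (hz2 is).1
      rw [his, pow_zero, mul_one] at h2
      exact h2.trans (le_sup U z is)
    have hlis := hl is
    have h3 : ‖Fn Q z‖ * l is ^ κ ≤ C * (B₀ / (‖z - z₀‖ / 2)) ^ A *
        ∏ i, (L i ^ c i * ‖z - z₀‖ ^ (c i * a i)) := by
      calc ‖Fn Q z‖ * l is ^ κ ≤ ‖Fn Q z‖ * sup U z ^ κ := by gcongr
        _ ≤ _ := hq
        _ ≤ _ := by
          refine mul_le_mul_of_nonneg_left ?_ (by positivity)
          refine Finset.prod_le_prod (fun i _ => by positivity) fun i _ => ?_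
          calc ‖U i z‖ ^ c i ≤ (L i * ‖z - z₀‖ ^ a i) ^ c i :=
                pow_le_pow_left₀ (norm_nonneg _) (hz2 i).2 _
            _ = _ := by rw [mul_pow, ← pow_mul, mul_comm (a i)]
    rw [Finset.prod_mul_distrib, Finset.prod_pow_eq_pow_sum] at h3
    rw [Pi.mul_apply, norm_mul, norm_pow, div_mul_eq_mul_div, le_div_iff₀ (pow_pos hlis _)]
    have h4 : (B₀ / (‖z - z₀‖ / 2)) ^ A * ‖z - z₀‖ ^ A = (2 * B₀) ^ A := by
      rw [← mul_pow]
      congr 1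
      field_simp
    calc ‖Fn Q z‖ * ‖z - z₀‖ ^ A * l is ^ κ = (‖Fn Q z‖ * l is ^ κ) * ‖z - z₀‖ ^ A := by ring
      _ ≤ (C * (B₀ / (‖z - z₀‖ / 2)) ^ A *
        ((∏ i, L i ^ c i) * ‖z - z₀‖ ^ ∑ i, c i * a i)) * ‖z - z₀‖ ^ A := by gcongr
      _ = C * ((B₀ / (‖z - z₀‖ / 2)) ^ A * ‖z - z₀‖ ^ A) * (∏ i, L i ^ c i) *
        ‖z - z₀‖ ^ ∑ i, c i * a i := by ring
      _ = _ := by rw [h4]
  refine h1.trans ?_
  rw [meromorphicOrderAt_mul (Fn_mero Q z₀) hX.meromorphicAt]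
  have h2 : meromorphicOrderAt (fun z : ℂ => (z - z₀) ^ A) z₀ = ((A : ℤ) : WithTop ℤ) := by
    rw [meromorphicOrderAt_eq_int_iff hX.meromorphicAt]
    refine ⟨fun _ => 1, analyticAt_const, one_ne_zero, Eventually.of_forall fun z => ?_⟩
    simp
  rw [h2]
  rfl

theorem odr_U (h : Nrm u e U) {z₀ : ℂ} {i : Fin (p + 1)} {a : ℕ}
    (ha : analyticOrderAt (U i) z₀ = a) : odr (e * u i) z₀ = ((a : ℤ) : WithTop ℤ) := by
  unfold odr
  have h1 := (h.reg i z₀).meromorphicOrderAt_eq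
  rw [h1, ← h.eq, ha]
  rfl

theorem odr_prod {ι : Type*} (s : Finset ι) (f : ι → MK) (a : ι → ℤ) (z : ℂ)
    (h : ∀ i ∈ s, odr (f i) z = (a i : WithTop ℤ)) :
    odr (∏ i ∈ s, f i) z = ((∑ i ∈ s, a i : ℤ) : WithTop ℤ) := by
  classical
  induction s using Finset.induction_on with
  | empty => simp [odr_one]
  | insert b s hb ih =>
    rw [Finset.prod_insert hb, Finset.sum_insert hb, odr_mul, h b (Finset.mem_insert_self _ _),
      ih fun i hi => h i (Finset.mem_insert_of_mem hi), ← WithTop.coe_add]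

/-- **The second main theorem for a normalized family.** -/
theorem engine (h : Nrm u e U) (hu : ∀ i, u i ≠ 0) {i0 : Fin (p + 1)} (h0 : u i0 = 1)
    {c : Fin (p + 1) → ℕ} {P₀ : MK} (hP0 : P₀ ≠ 0) {A κ : ℕ} (hAκ : A * (p + 1) < κ)
    (hκ : κ ≤ ∑ i, c i) {C : ℝ} (hC : 0 ≤ C)
    (hpt : ∀ z ε B, 0 < ε → ε ≤ 1 → 1 ≤ B → Calm U z ε B →
      Reg P₀ z ∧ ‖Fn P₀ z‖ * (sup U z / ‖U i0 z‖) ^ κ ≤
        C * (B / ε) ^ A * ∏ i, (‖U i z‖ / ‖U i0 z‖) ^ c i) (j : Fin (p + 1)) :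
    ∃ R : ℂ → ℂ, MeromorphicAt (fun w => R w⁻¹) 0 ∧ ∃ R0 : ℝ, ∀ z, R0 < ‖z‖ →
      U j z = R z * U 0 z := by
  classical
  set Q : MK := e ^ (∑ i, c i - κ) * P₀ with hQd
  have hQ : ∀ z ε B, 0 < ε → ε ≤ 1 → 1 ≤ B → Calm U z ε B →
      Reg Q z ∧ ‖Fn Q z‖ * sup U z ^ κ ≤ C * (B / ε) ^ A * ∏ i, ‖U i z‖ ^ c i := by
    intro z ε B hε hε1 hB hc
    obtain ⟨r, hp⟩ := hpt z ε B hε hε1 hB hc
    exact homog h h0 hκ hε hc r hp
  have hQ0 : Q ≠ 0 := mul_ne_zero (pow_ne_zero _ h.ne) hP0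
  set V : MK := ∏ i, (e * u i) ^ A with hV
  have hV0 : V ≠ 0 := Finset.prod_ne_zero_iff.2 fun i _ => pow_ne_zero _ (mul_ne_zero h.ne (hu i))
  set P : MK := Q * V with hPd
  have hPne : P ≠ 0 := mul_ne_zero hQ0 hV0
  have hfin : ∀ i z, ∃ n : ℕ, analyticOrderAt (U i) z = n := by
    intro i z
    have h1 : analyticOrderAt (U i) z ≠ ⊤ := by
      intro h2
      have h3 := odr_ne_top (mul_ne_zero h.ne (hu i)) z
      apply h3
      unfold odr
      have h4 := (h.reg i z).meromorphicOrderAt_eq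
      rw [h4, ← h.eq, h2]
      rfl
    obtain ⟨n, hn⟩ := ENat.ne_top_iff_exists.mp h1
    exact ⟨n, hn.symm⟩
  have hord : ∀ z (a : Fin (p + 1) → ℕ), (∀ i, analyticOrderAt (U i) z = a i) →
      ((∑ i, c i * a i : ℕ) : ℤ) ≤ odr P z := by
    intro z a ha
    have hVo : odr V z = ((∑ i, (A * a i : ℤ) : ℤ) : WithTop ℤ) := by
      rw [hV]
      refine odr_prod _ _ _ z fun i _ => ?_
      rw [odr_pow, odr_U h (ha i), ← WithTop.coe_nsmul, nsmul_eq_mul]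
    rw [hPd, odr_mul, hVo]
    by_cases h1 : ∃ i, a i ≠ 0
    · refine (Q_order h hC hQ ha).trans ?_
      gcongr
      obtain ⟨i, hi⟩ := h1
      have h2 : (A : ℤ) * 1 ≤ A * a i := by
        have : (1 : ℤ) ≤ a i := by exact_mod_cast Nat.one_le_iff_ne_zero.2 hi
        gcongr
      have h3 : (A * a i : ℤ) ≤ ∑ i, (A * a i : ℤ) :=
        Finset.single_le_sum (f := fun i => (A * a i : ℤ)) (fun i _ => by positivity)
          (Finset.mem_univ i)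
      have h4 : (A : ℤ) ≤ ∑ i, (A * a i : ℤ) := by linarith
      exact WithTop.coe_le_coe.2 h4
    · push Not at h1
      have hz : ∀ i, U i z ≠ 0 := by
        intro i
        have := ha i
        rw [h1 i, Nat.cast_zero] at this
        exact (h.an i z).analyticOrderAt_eq_zero.1 this
      obtain ⟨ε, B, hε, hε1, hB, hc⟩ := calm_at h hz
      have h2 := reg_iff.1 (hQ z ε B hε hε1 hB hc).1
      simp only [h1, mul_zero, Nat.cast_zero, Finset.sum_const_zero]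
      simpa using h2
  have hreg : ∀ z, Reg P z := by
    intro z
    choose a ha using fun i => hfin i z
    rw [reg_iff]
    refine le_trans ?_ (hord z a ha)
    exact_mod_cast Nat.zero_le _
  have hexists : ∀ x : MK, x ≠ 0 → ∃ z ∈ Ext 1, Fn x z ≠ 0 := by
    intro x hx
    have h1 := codis_ev (Fn_ne_codis hx) 2
    have h2 : ∀ᶠ z in 𝓝[≠] (2 : ℂ), z ∈ Ext 1 :=
      nhdsWithin_le_nhds ((Ext_open 1).mem_nhds (by
        change (1 : ℝ) < ‖(2 : ℂ)‖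
        norm_num))
    obtain ⟨z, h3, h4⟩ := (h2.and h1).exists
    exact ⟨z, h3, h4⟩
  refine abstract_ext (U := U) one_pos c (κ := κ - A * (p + 1)) (Nn := A) (by omega)
    (C1 := max 1 C) (le_max_left _ _) (fun i z _ => h.an i z) ?_ (P := Fn P) (fun z _ => hreg z)
    (hexists P hPne) ?_ ?_ j
  · intro i
    rw [h.eq]
    exact hexists _ (mul_ne_zero h.ne (hu i))
  · intro z _ a ha
    have h1 := hord z a ha
    have h2 := (hreg z).meromorphicOrderAt_eq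
    unfold odr at h1
    rw [h2] at h1
    by_cases hn : analyticOrderAt (Fn P) z = ⊤
    · rw [hn]
      exact le_top
    · obtain ⟨n, hn⟩ := ENat.ne_top_iff_exists.1 hn
      rw [← hn, ENat.map_natCast] at h1
      rw [← hn]
      have h3 : ((∑ i, c i * a i : ℕ) : ℤ) ≤ (n : ℤ) := WithTop.coe_le_coe.1 h1
      exact_mod_cast h3
  · intro z ε B hε hε1 hB _ hc
    obtain ⟨r, hq⟩ := hQ z ε B hε hε1 hB hc
    have hrV : V ∈ Oz z := by
      rw [hV]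
      exact prod_mem fun i _ => pow_mem (show e * u i ∈ Oz z from h.reg i z) _
    have e1 : Fn P z = Fn Q z * Fn V z := map_mul (evO z) ⟨Q, r⟩ ⟨V, hrV⟩
    have e2 : Fn V z = ∏ i, U i z ^ A := by
      have h1 := map_prod (evO z) (fun i => (⟨e * u i, h.reg i z⟩ : Oz z) ^ A) Finset.univ
      simp only [map_pow] at h1
      have h2 : (∏ i, (⟨e * u i, h.reg i z⟩ : Oz z) ^ A : Oz z) = ⟨V, hrV⟩ := by
        apply Subtype.ext
        simp [hV]
      rw [h2] at h1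
      simp only [evO_apply] at h1
      rw [h1]
      exact Finset.prod_congr rfl fun i _ => by rw [h.eq]
    have hs0 : 0 ≤ sup U z := (norm_nonneg (U 0 z)).trans (le_sup U z 0)
    have e3 : ‖Fn V z‖ ≤ sup U z ^ (A * (p + 1)) := by
      rw [e2, norm_prod]
      calc ∏ i, ‖U i z ^ A‖ ≤ ∏ _i : Fin (p + 1), sup U z ^ A := by
            refine Finset.prod_le_prod (fun _ _ => norm_nonneg _) fun i _ => ?_
            rw [norm_pow]
            exact pow_le_pow_left₀ (norm_nonneg _) (le_sup U z i) _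
        _ = _ := by rw [Finset.prod_const, Finset.card_univ, Fintype.card_fin, ← pow_mul]
    rw [e1, norm_mul]
    have hprod : 0 ≤ ∏ i, ‖U i z‖ ^ c i := Finset.prod_nonneg fun _ _ => by positivity
    calc ‖Fn Q z‖ * ‖Fn V z‖ * sup U z ^ (κ - A * (p + 1))
        ≤ ‖Fn Q z‖ * sup U z ^ (A * (p + 1)) * sup U z ^ (κ - A * (p + 1)) := by gcongr
      _ = ‖Fn Q z‖ * sup U z ^ κ := by
          rw [mul_assoc, ← pow_add]
          congr 2
          omega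
      _ ≤ C * (B / ε) ^ A * ∏ i, ‖U i z‖ ^ c i := hq
      _ ≤ max 1 C * (B / ε) ^ A * ∏ i, ‖U i z‖ ^ c i := by
          gcongr
          exact le_max_right _ _

end Pool.Agent.Y221.AB
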