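import Pool.Agent.TH143.EL.Fld

/-!
The field of meromorphic functions on the plane: normal forms, regular elements, evaluation.
-/

set_option autoImplicit false

namespace Pool.Agent.Y221.AB

open Filter Topology Set Pool.Agent.TH143.EL

/-- the representative in normal form -/
noncomputable def Fn (x : MK) : ℂ → ℂ :=
  toMeromorphicNFOn (Classical.choose (cl_surj x)) Set.univ

theorem rep_mero (x : MK) : Meromorphic (Classical.choose (cl_surj x)) :=
  Classical.choose (Classical.choose_spec (cl_surj x))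

theorem Fn_nf (x : MK) (z : ℂ) : MeromorphicNFAt (Fn x) z :=
  meromorphicNFOn_toMeromorphicNFOn _ _ (mem_univ z)

theorem Fn_mero (x : MK) : Meromorphic (Fn x) := fun z => (Fn_nf x z).meromorphicAt

theorem Fn_rep (x : MK) : ∀ᶠ z in codiscrete ℂ, Fn x z = Classical.choose (cl_surj x) z := by
  apply codis_of_ev
  intro z
  have h : MeromorphicOn (Classical.choose (cl_surj x)) univ := fun z _ => rep_mero x z
  have h2 : toMeromorphicNFOn (Classical.choose (cl_surj x)) univ =ᶠ[𝓝[≠] z]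
      Classical.choose (cl_surj x) := h.toMeromorphicNFOn_eq_self_on_nhdsNE (mem_univ z)
  exact h2

theorem cl_Fn (x : MK) : cl (Fn x) (Fn_mero x) = x := by
  refine Eq.trans ?_ (Classical.choose_spec (Classical.choose_spec (cl_surj x)))
  rw [cl_eq]
  exact Fn_rep x

/-- `x` is holomorphic at `z` -/
def Reg (x : MK) (z : ℂ) : Prop := AnalyticAt ℂ (Fn x) z

theorem Fn_eq_of_punct {x : MK} {f : ℂ → ℂ} {z : ℂ} (h : Fn x =ᶠ[𝓝[≠] z] f)
    (hf : AnalyticAt ℂ f z) : Fn x =ᶠ[𝓝 z] f :=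
  ((Fn_nf x z).eventuallyEq_nhdsNE_iff_eventuallyEq_nhds hf.meromorphicNFAt).1 h

theorem reg_of_punct {x : MK} {f : ℂ → ℂ} {z : ℂ} (h : Fn x =ᶠ[𝓝[≠] z] f)
    (hf : AnalyticAt ℂ f z) : Reg x z := hf.congr (Fn_eq_of_punct h hf).symm

theorem Fn_cl_codis {f : ℂ → ℂ} (hf : Meromorphic f) : ∀ᶠ z in codiscrete ℂ, Fn (cl f hf) z = f z :=
  cl_eq.1 (cl_Fn (cl f hf))

theorem Fn_cl {f : ℂ → ℂ} (hf : Meromorphic f) {z : ℂ} (hz : AnalyticAt ℂ f z) :
    Fn (cl f hf) =ᶠ[𝓝 z] f := Fn_eq_of_punct (codis_ev (Fn_cl_codis hf) z) hz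

theorem Fn_cl' {f : ℂ → ℂ} (hf : Meromorphic f) (z : ℂ) : Fn (cl f hf) =ᶠ[𝓝[≠] z] f :=
  codis_ev (Fn_cl_codis hf) z

theorem Fn_add_codis (x y : MK) : ∀ᶠ z in codiscrete ℂ, Fn (x + y) z = Fn x z + Fn y z := by
  have h : cl (Fn (x + y)) (Fn_mero _) = cl (Fn x + Fn y) ((Fn_mero x).add (Fn_mero y)) := by
    rw [cl_Fn, ← cl_add (Fn_mero x) (Fn_mero y), cl_Fn, cl_Fn]
  exact cl_eq.1 h

theorem Fn_mul_codis (x y : MK) : ∀ᶠ z in codiscrete ℂ, Fn (x * y) z = Fn x z * Fn y z := by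
  have h : cl (Fn (x * y)) (Fn_mero _) = cl (Fn x * Fn y) ((Fn_mero x).mul (Fn_mero y)) := by
    rw [cl_Fn, ← cl_mul (Fn_mero x) (Fn_mero y), cl_Fn, cl_Fn]
  exact cl_eq.1 h

theorem Fn_inv_codis (x : MK) : ∀ᶠ z in codiscrete ℂ, Fn x⁻¹ z = (Fn x z)⁻¹ := by
  have h : cl (Fn x⁻¹) (Fn_mero _) = cl (Fn x)⁻¹ (Fn_mero x).inv := by
    rw [cl_Fn, ← cl_inv (Fn_mero x), cl_Fn]
  exact cl_eq.1 h

theorem Fn_const_codis (c : ℂ) : ∀ᶠ z in codiscrete ℂ, Fn (algebraMap ℂ MK c) z = c := by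
  have h : cl (Fn (algebraMap ℂ MK c)) (Fn_mero _) = cl (fun _ => c) (Meromorphic.const c) := by
    rw [cl_Fn, cl_const]
  exact cl_eq.1 h

theorem Fn_MD_codis (x : MK) : ∀ᶠ z in codiscrete ℂ, Fn (MD x) z = deriv (Fn x) z := by
  have h : cl (Fn (MD x)) (Fn_mero _) = cl (deriv (Fn x)) (Fn_mero x).deriv := by
    rw [cl_Fn, ← MD_cl (Fn_mero x), cl_Fn]
  exact cl_eq.1 h

theorem Fn_add {x y : MK} {z : ℂ} (hx : Reg x z) (hy : Reg y z) :
    Fn (x + y) =ᶠ[𝓝 z] fun w => Fn x w + Fn y w :=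
  Fn_eq_of_punct (codis_ev (Fn_add_codis x y) z) (hx.fun_add hy)

theorem Fn_mul {x y : MK} {z : ℂ} (hx : Reg x z) (hy : Reg y z) :
    Fn (x * y) =ᶠ[𝓝 z] fun w => Fn x w * Fn y w :=
  Fn_eq_of_punct (codis_ev (Fn_mul_codis x y) z) (hx.fun_mul hy)

theorem Fn_inv {x : MK} {z : ℂ} (hx : Reg x z) (h0 : Fn x z ≠ 0) :
    Fn x⁻¹ =ᶠ[𝓝 z] fun w => (Fn x w)⁻¹ :=
  Fn_eq_of_punct (codis_ev (Fn_inv_codis x) z) (hx.fun_inv h0)

theorem Fn_const (c : ℂ) (z : ℂ) : Fn (algebraMap ℂ MK c) =ᶠ[𝓝 z] fun _ => c :=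
  Fn_eq_of_punct (codis_ev (Fn_const_codis c) z) analyticAt_const

theorem Fn_MD {x : MK} {z : ℂ} (hx : Reg x z) : Fn (MD x) =ᶠ[𝓝 z] deriv (Fn x) :=
  Fn_eq_of_punct (codis_ev (Fn_MD_codis x) z) hx.deriv

theorem Reg.add {x y : MK} {z : ℂ} (hx : Reg x z) (hy : Reg y z) : Reg (x + y) z :=
  reg_of_punct (codis_ev (Fn_add_codis x y) z) (hx.fun_add hy)

theorem Reg.mul {x y : MK} {z : ℂ} (hx : Reg x z) (hy : Reg y z) : Reg (x * y) z :=
  reg_of_punct (codis_ev (Fn_mul_codis x y) z) (hx.fun_mul hy)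

theorem Reg.inv {x : MK} {z : ℂ} (hx : Reg x z) (h0 : Fn x z ≠ 0) : Reg x⁻¹ z :=
  reg_of_punct (codis_ev (Fn_inv_codis x) z) (hx.fun_inv h0)

theorem reg_const (c : ℂ) (z : ℂ) : Reg (algebraMap ℂ MK c) z :=
  reg_of_punct (codis_ev (Fn_const_codis c) z) analyticAt_const

theorem Reg.MD {x : MK} {z : ℂ} (hx : Reg x z) : Reg (MD x) z :=
  reg_of_punct (codis_ev (Fn_MD_codis x) z) hx.deriv

theorem reg_open {x : MK} {z : ℂ} (hx : Reg x z) : ∀ᶠ w in 𝓝 z, Reg x w :=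
  hx.eventually_analyticAt

/-- the ring of elements which are holomorphic at `z` -/
def Oz (z : ℂ) : Subalgebra ℂ MK where
  carrier := {x | Reg x z}
  mul_mem' := fun hx hy => Reg.mul hx hy
  add_mem' := fun hx hy => Reg.add hx hy
  algebraMap_mem' := fun c => reg_const c z

theorem mem_Oz {z : ℂ} {x : MK} : x ∈ Oz z ↔ Reg x z := Iff.rfl

/-- evaluation at `z` -/
noncomputable def evO (z : ℂ) : Oz z →ₐ[ℂ] ℂ :=
  AlgHom.mk' { toFun := fun x => Fn x.1 z
               map_one' := by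
                 have h := (Fn_const 1 z).self_of_nhds
                 rw [map_one] at h
                 exact h
               map_mul' := fun x y => (Fn_mul (mem_Oz.1 x.2) (mem_Oz.1 y.2)).self_of_nhds
               map_zero' := by
                 have h := (Fn_const 0 z).self_of_nhds
                 rw [map_zero] at h
                 exact h
               map_add' := fun x y => (Fn_add (mem_Oz.1 x.2) (mem_Oz.1 y.2)).self_of_nhds }
    (fun c x => by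
      change Fn (c • x.1) z = c • Fn x.1 z
      rw [Algebra.smul_def, smul_eq_mul]
      refine ((Fn_mul (reg_const c z) (mem_Oz.1 x.2)).self_of_nhds).trans ?_
      have h := (Fn_const c z).self_of_nhds
      simp only at h ⊢
      rw [h])

theorem evO_apply {z : ℂ} (x : Oz z) : evO z x = Fn x.1 z := rfl

/-- the order at a point -/
noncomputable def odr (x : MK) (z : ℂ) : WithTop ℤ := meromorphicOrderAt (Fn x) z

theorem reg_iff {x : MK} {z : ℂ} : Reg x z ↔ 0 ≤ odr x z :=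
  ((Fn_nf x z).meromorphicOrderAt_nonneg_iff_analyticAt).symm

theorem odr_zero_iff {x : MK} {z : ℂ} : odr x z = 0 ↔ Fn x z ≠ 0 :=
  (Fn_nf x z).meromorphicOrderAt_eq_zero_iff

theorem odr_mul (x y : MK) (z : ℂ) : odr (x * y) z = odr x z + odr y z := by
  unfold odr
  rw [meromorphicOrderAt_congr (codis_ev (Fn_mul_codis x y) z)]
  exact meromorphicOrderAt_mul (Fn_mero x z) (Fn_mero y z)

theorem odr_cl {f : ℂ → ℂ} (hf : Meromorphic f) (z : ℂ) :
    odr (cl f hf) z = meromorphicOrderAt f z := meromorphicOrderAt_congr (Fn_cl' hf z)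

theorem odr_one (z : ℂ) : odr 1 z = 0 := by
  rw [odr_zero_iff]
  have h := (Fn_const 1 z).self_of_nhds
  rw [map_one] at h
  rw [h]
  exact one_ne_zero

theorem eq_zero_of_top {x : MK} {z : ℂ} (h : odr x z = ⊤) : x = 0 := by
  unfold odr at h
  rw [meromorphicOrderAt_eq_top_iff] at h
  rw [← cl_Fn x, cl_eq_zero]
  exact mero_id (Fn_mero x) h.frequently

theorem odr_ne_top {x : MK} (hx : x ≠ 0) (z : ℂ) : odr x z ≠ ⊤ := fun h => hx (eq_zero_of_top h)

theorem odr_pow (x : MK) (z : ℂ) (n : ℕ) : odr (x ^ n) z = n • odr x z := by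
  induction n with
  | zero => simp [odr_one]
  | succ n ih => rw [pow_succ, odr_mul, ih, succ_nsmul]

theorem Fn_ne_codis {x : MK} (hx : x ≠ 0) : ∀ᶠ z in codiscrete ℂ, Fn x z ≠ 0 := by
  apply mero_ne (Fn_mero x)
  intro h
  apply hx
  rw [← cl_Fn x, cl_eq_zero]
  exact h

end Pool.Agent.Y221.AB
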