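import Pool.Agent.Y221.AB.Fn
import Pool.Agent.Y221.AB.Alg
import Pool.Agent.TH152.HY.Ext

/-!
The filtration of the field of meromorphic functions given by a normalized family of functions.
-/

set_option autoImplicit false
set_option maxHeartbeats 400000

namespace Pool.Agent.Y221.AB

open Filter Metric Real Set Topology Pool.Agent.TH143.EL Pool.Agent.W602.NC Pool.Agent.W602.TL
  Pool.Agent.TH152.HY

variable {p : ℕ} {U : Fin (p + 1) → ℂ → ℂ}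

/-- the size of the family relative to two of its members -/
noncomputable def Tq (U : Fin (p + 1) → ℂ → ℂ) (i0 i1 : Fin (p + 1)) (z : ℂ) : ℝ :=
  (sup U z / ‖U i0 z‖) * (sup U z / ‖U i1 z‖)

theorem one_le_ratio {i : Fin (p + 1)} {z : ℂ} (h : U i z ≠ 0) : 1 ≤ sup U z / ‖U i z‖ := by
  rw [one_le_div (norm_pos_iff.2 h)]
  exact le_sup U z i

theorem one_le_Tq {i0 i1 : Fin (p + 1)} {z : ℂ} (h0 : U i0 z ≠ 0) (h1 : U i1 z ≠ 0) :
    1 ≤ Tq U i0 i1 z :=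
  one_le_mul_of_one_le_of_one_le (one_le_ratio h0) (one_le_ratio h1)


theorem ratio_calm {z : ℂ} {ε B : ℝ} (hB : 1 ≤ B) (hc : Calm U z ε B)
    (hz : z ∈ closedBall z ε) (i : Fin (p + 1))
    {w : ℂ} (hw : w ∈ closedBall z ε) : sup U w / ‖U i w‖ ≤ B * (sup U z / ‖U i z‖) := by
  obtain ⟨j, hj⟩ := sup_attained U w
  have h1 := hc.2 i j w hw
  rw [norm_div, norm_div] at h1
  rw [hj]
  refine h1.trans ?_
  have h2 : 0 < ‖U i z‖ := norm_pos_iff.2 (hc.1 i z hz)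
  gcongr
  exact le_sup U z j

theorem Tq_calm {z : ℂ} {ε B : ℝ} (hB : 1 ≤ B) (hc : Calm U z ε B)
    (hz : z ∈ closedBall z ε) (i0 i1 : Fin (p + 1))
    {w : ℂ} (hw : w ∈ closedBall z ε) : Tq U i0 i1 w ≤ B * B * Tq U i0 i1 z := by
  have h1 := ratio_calm hB hc hz i0 hw
  have h2 := ratio_calm hB hc hz i1 hw
  have h3 : 1 ≤ sup U w / ‖U i1 w‖ := one_le_ratio (hc.1 i1 w hw)
  have h4 : 1 ≤ sup U z / ‖U i0 z‖ := one_le_ratio (hc.1 i0 z hz)
  unfold Tq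
  calc _ ≤ (B * (sup U z / ‖U i0 z‖)) * (B * (sup U z / ‖U i1 z‖)) :=
        mul_le_mul h1 h2 (by linarith) (by positivity)
    _ = _ := by ring

theorem calm_sub {z : ℂ} {ε B : ℝ} (hε : 0 < ε) (hB : 1 ≤ B) (hc : Calm U z ε B) {w : ℂ}
    (hw : w ∈ closedBall z (ε / 2)) : Calm U w (ε / 2) (B * B) := by
  have hsub : closedBall w (ε / 2) ⊆ closedBall z ε := by
    intro v hv
    rw [mem_closedBall] at hv hw ⊢
    have := dist_triangle v w z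
    linarith
  have hwz : w ∈ closedBall z ε := hsub (mem_closedBall_self (by linarith))
  have hzz : z ∈ closedBall z ε := mem_closedBall_self hε.le
  refine ⟨fun i v hv => hc.1 i v (hsub hv), fun i j v hv => ?_⟩
  have h1 := hc.2 i j v (hsub hv)
  have h2 := hc.2 j i w hwz
  rw [norm_div, norm_div] at h1 h2 ⊢
  have a1 : 0 < ‖U i z‖ := norm_pos_iff.2 (hc.1 i z hzz)
  have a2 : 0 < ‖U j z‖ := norm_pos_iff.2 (hc.1 j z hzz)
  have a3 : 0 < ‖U i w‖ := norm_pos_iff.2 (hc.1 i w hwz)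
  have a4 : 0 < ‖U j w‖ := norm_pos_iff.2 (hc.1 j w hwz)
  have h3 : ‖U j z‖ / ‖U i z‖ ≤ B * (‖U j w‖ / ‖U i w‖) := by
    rw [← mul_div_assoc, div_le_div_iff₀ a4 a2] at h2
    rw [← mul_div_assoc, div_le_div_iff₀ a1 a3]
    linarith
  calc _ ≤ _ := h1
    _ ≤ B * (B * (‖U j w‖ / ‖U i w‖)) := by gcongr
    _ = _ := by ring

/-- the elements which are bounded in terms of the family -/
def Good (U : Fin (p + 1) → ℂ → ℂ) (i0 i1 : Fin (p + 1)) (A : ℕ) (x : MK) : Prop :=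
  ∃ C, 0 ≤ C ∧ ∀ z ε B, 0 < ε → ε ≤ 1 → 1 ≤ B → Calm U z ε B →
    Reg x z ∧ ‖Fn x z‖ ≤ C * ((B / ε) * Tq U i0 i1 z) ^ A

theorem one_le_BT {i0 i1 : Fin (p + 1)} {z : ℂ} {ε B : ℝ} (hε : 0 < ε) (hε1 : ε ≤ 1) (hB : 1 ≤ B)
    (hc : Calm U z ε B) : 1 ≤ (B / ε) * Tq U i0 i1 z := by
  have hzz : z ∈ closedBall z ε := mem_closedBall_self hε.le
  refine one_le_mul_of_one_le_of_one_le ?_ (one_le_Tq (hc.1 i0 z hzz) (hc.1 i1 z hzz))
  rw [one_le_div hε]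
  linarith

theorem good_der {i0 i1 : Fin (p + 1)} {A : ℕ} {x : MK} (hx : Good U i0 i1 A x) :
    Good U i0 i1 (4 * A + 1) (MDer x) := by
  obtain ⟨C, hC, h⟩ := hx
  refine ⟨2 * C * 2 ^ A, by positivity, ?_⟩
  intro z ε B hε hε1 hB hc
  have hzz : z ∈ closedBall z ε := mem_closedBall_self hε.le
  have hreg := (h z ε B hε hε1 hB hc).1
  rw [MDer_apply]
  refine ⟨hreg.MD, ?_⟩
  have hBB : 1 ≤ B * B := one_le_mul_of_one_le_of_one_le hB hB
  have hT := one_le_Tq (hc.1 i0 z hzz) (hc.1 i1 z hzz)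
  set T := Tq U i0 i1 z with hTd
  set Y := (B / ε) * T with hY
  have hY1 : 1 ≤ Y := one_le_BT hε hε1 hB hc
  have hpt : ∀ w ∈ closedBall z (ε / 2), Reg x w ∧ ‖Fn x w‖ ≤ C * (2 ^ A * Y ^ (4 * A)) := by
    intro w hw
    have hwz : w ∈ closedBall z ε := closedBall_subset_closedBall (by linarith) hw
    obtain ⟨h1, h2⟩ := h w (ε / 2) (B * B) (by linarith) (by linarith) hBB (calm_sub hε hB hc hw)
    refine ⟨h1, h2.trans ?_⟩
    have h3 := Tq_calm hB hc hzz i0 i1 hwz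
    have h4 : (B * B / (ε / 2)) * Tq U i0 i1 w ≤ 2 * Y ^ 4 := by
      calc (B * B / (ε / 2)) * Tq U i0 i1 w ≤ (B * B / (ε / 2)) * (B * B * T) := by gcongr
        _ = 2 * (B ^ 4 * (1 / ε) * T) := by field_simp
        _ ≤ 2 * (B ^ 4 * (1 / ε) ^ 4 * T ^ 4) := by
            have e1 : 1 / ε ≤ (1 / ε) ^ 4 :=
              le_self_pow₀ ((one_le_div hε).2 hε1) (by norm_num)
            have e2 : T ≤ T ^ 4 := le_self_pow₀ hT (by norm_num)
            gcongr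
        _ = _ := by rw [hY]; ring
    have h5 : 0 ≤ (B * B / (ε / 2)) * Tq U i0 i1 w := by
      have : 1 ≤ Tq U i0 i1 w := one_le_Tq (hc.1 i0 w hwz) (hc.1 i1 w hwz)
      positivity
    calc C * ((B * B / (ε / 2)) * Tq U i0 i1 w) ^ A ≤ C * (2 * Y ^ 4) ^ A := by gcongr
      _ = _ := by rw [mul_pow, ← pow_mul]
  have hd : DiffContOnCl ℂ (Fn x) (ball z (ε / 2)) := by
    refine DifferentiableOn.diffContOnCl_ball (U := closedBall z (ε / 2)) ?_ subset_rfl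
    intro w hw
    exact (hpt w hw).1.differentiableAt.differentiableWithinAt
  have h6 := Complex.norm_deriv_le_of_forall_mem_sphere_norm_le (by linarith : 0 < ε / 2) hd
    (fun w hw => (hpt w (sphere_subset_closedBall hw)).2)
  have h7 : Fn (MD x) z = deriv (Fn x) z := (Fn_MD hreg).self_of_nhds
  rw [h7]
  refine h6.trans ?_
  have h8 : 1 / ε ≤ Y := by
    rw [hY]
    calc 1 / ε = (1 / ε) * 1 := (mul_one _).symm
      _ ≤ (B / ε) * T := by gcongr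
  calc C * (2 ^ A * Y ^ (4 * A)) / (ε / 2) = 2 * C * 2 ^ A * (Y ^ (4 * A) * (1 / ε)) := by
        field_simp
    _ ≤ 2 * C * 2 ^ A * (Y ^ (4 * A) * Y) := by gcongr
    _ = _ := by rw [pow_succ]

theorem filt_good (i0 i1 : Fin (p + 1)) : Filt MDer (Good U i0 i1) where
  mono := by
    rintro A A' x hA ⟨C, hC, h⟩
    refine ⟨C, hC, fun z ε B hε hε1 hB hc => ⟨(h z ε B hε hε1 hB hc).1, ?_⟩⟩
    refine (h z ε B hε hε1 hB hc).2.trans ?_
    have := one_le_BT (i0 := i0) (i1 := i1) hε hε1 hB hc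
    gcongr
  add := by
    rintro A x y ⟨C, hC, h⟩ ⟨C', hC', h'⟩
    refine ⟨C + C', by positivity, fun z ε B hε hε1 hB hc => ?_⟩
    obtain ⟨r1, b1⟩ := h z ε B hε hε1 hB hc
    obtain ⟨r2, b2⟩ := h' z ε B hε hε1 hB hc
    refine ⟨r1.add r2, ?_⟩
    have e : Fn (x + y) z = Fn x z + Fn y z := (Fn_add r1 r2).self_of_nhds
    rw [e, add_mul]
    exact (norm_add_le _ _).trans (add_le_add b1 b2)
  mul := by
    rintro A A' x y ⟨C, hC, h⟩ ⟨C', hC', h'⟩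
    refine ⟨C * C', by positivity, fun z ε B hε hε1 hB hc => ?_⟩
    obtain ⟨r1, b1⟩ := h z ε B hε hε1 hB hc
    obtain ⟨r2, b2⟩ := h' z ε B hε hε1 hB hc
    refine ⟨r1.mul r2, ?_⟩
    have e : Fn (x * y) z = Fn x z * Fn y z := (Fn_mul r1 r2).self_of_nhds
    have h1 := one_le_BT (i0 := i0) (i1 := i1) hε hε1 hB hc
    rw [e, norm_mul, pow_add]
    calc _ ≤ _ := mul_le_mul b1 b2 (norm_nonneg _) (by positivity)
      _ = _ := by ring
  const := by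
    intro c
    refine ⟨‖c‖, norm_nonneg _, fun z ε B hε hε1 hB hc => ⟨reg_const c z, ?_⟩⟩
    have e : Fn (algebraMap ℂ MK c) z = c := (Fn_const c z).self_of_nhds
    rw [e, pow_zero, mul_one]
  der := fun h => good_der h

/-- a family of meromorphic functions, normalized by a factor -/
structure Nrm (u : Fin (p + 1) → MK) (e : MK) (U : Fin (p + 1) → ℂ → ℂ) : Prop where
  ne : e ≠ 0
  eq : ∀ i, U i = Fn (e * u i)
  reg : ∀ i z, Reg (e * u i) z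
  nz : ∀ z, ∃ i, U i z ≠ 0

variable {u : Fin (p + 1) → MK} {e : MK}

theorem Nrm.val (h : Nrm u e U) {i j : Fin (p + 1)} {z : ℂ} (hj : U j z ≠ 0) :
    Reg (u i / u j) z ∧ Fn (u i / u j) z = U i z / U j z := by
  have hj' : Fn (e * u j) z ≠ 0 := by rw [← h.eq]; exact hj
  have h1 : u i / u j = (e * u i) * (e * u j)⁻¹ := by
    rw [← div_eq_mul_inv, mul_div_mul_left _ _ h.ne]
  have r1 := h.reg i z
  have r2 := (h.reg j z).inv hj'
  rw [h1]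
  refine ⟨r1.mul r2, ?_⟩
  have e1 : Fn ((e * u i) * (e * u j)⁻¹) z = Fn (e * u i) z * Fn (e * u j)⁻¹ z :=
    (Fn_mul r1 r2).self_of_nhds
  have e2 : Fn (e * u j)⁻¹ z = (Fn (e * u j) z)⁻¹ := (Fn_inv (h.reg j z) hj').self_of_nhds
  rw [e1, e2, h.eq i, h.eq j, div_eq_mul_inv]

theorem Nrm.good (h : Nrm u e U) {i0 : Fin (p + 1)} (h0 : u i0 = 1) (i1 i : Fin (p + 1)) :
    Good U i0 i1 1 (u i) := by
  refine ⟨1, zero_le_one, fun z ε B hε hε1 hB hc => ?_⟩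
  have hzz : z ∈ closedBall z ε := mem_closedBall_self hε.le
  obtain ⟨r, v⟩ := h.val (i := i) (hc.1 i0 z hzz)
  rw [h0, div_one] at r v
  refine ⟨r, ?_⟩
  rw [v, norm_div, one_mul, pow_one]
  have h1 : 1 ≤ sup U z / ‖U i1 z‖ := one_le_ratio (hc.1 i1 z hzz)
  have h2 : 0 < ‖U i0 z‖ := norm_pos_iff.2 (hc.1 i0 z hzz)
  have h3 : 1 ≤ B / ε := by rw [one_le_div hε]; linarith
  have h4 : ‖U i z‖ / ‖U i0 z‖ ≤ sup U z / ‖U i0 z‖ := by
    gcongr
    exact le_sup U z i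
  have h5 : 0 ≤ sup U z / ‖U i0 z‖ := zero_le_one.trans (one_le_ratio (hc.1 i0 z hzz))
  unfold Tq
  calc ‖U i z‖ / ‖U i0 z‖ ≤ sup U z / ‖U i0 z‖ := h4
    _ = 1 * ((sup U z / ‖U i0 z‖) * 1) := by ring
    _ ≤ (B / ε) * ((sup U z / ‖U i0 z‖) * (sup U z / ‖U i1 z‖)) := by gcongr

theorem Nrm.good_inv (h : Nrm u e U) {i0 : Fin (p + 1)} (h0 : u i0 = 1) (i1 : Fin (p + 1)) :
    Good U i0 i1 1 (u i1)⁻¹ := by
  refine ⟨1, zero_le_one, fun z ε B hε hε1 hB hc => ?_⟩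
  have hzz : z ∈ closedBall z ε := mem_closedBall_self hε.le
  obtain ⟨r, v⟩ := h.val (i := i0) (hc.1 i1 z hzz)
  rw [h0, one_div] at r v
  refine ⟨r, ?_⟩
  rw [v, norm_div, one_mul, pow_one]
  have h1 : 1 ≤ sup U z / ‖U i0 z‖ := one_le_ratio (hc.1 i0 z hzz)
  have h2 : 0 < ‖U i1 z‖ := norm_pos_iff.2 (hc.1 i1 z hzz)
  have h3 : 1 ≤ B / ε := by rw [one_le_div hε]; linarith
  have h4 : ‖U i0 z‖ / ‖U i1 z‖ ≤ sup U z / ‖U i1 z‖ := by
    gcongr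
    exact le_sup U z i0
  have h5 : 0 ≤ sup U z / ‖U i1 z‖ := zero_le_one.trans (one_le_ratio (hc.1 i1 z hzz))
  unfold Tq
  calc ‖U i0 z‖ / ‖U i1 z‖ ≤ sup U z / ‖U i1 z‖ := h4
    _ = 1 * (1 * (sup U z / ‖U i1 z‖)) := by ring
    _ ≤ (B / ε) * ((sup U z / ‖U i0 z‖) * (sup U z / ‖U i1 z‖)) := by gcongr

end Pool.Agent.Y221.AB
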