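import Pool.Agent.Y221.AB.Main

/-!
The family of a finite extension: upper bounds.
-/

set_option autoImplicit false
set_option maxHeartbeats 400000
set_option linter.unusedSectionVars false

namespace Pool.Agent.Y221.AB

open Filter Metric Set Topology Pool.Agent.TH143.EL Pool.Agent.W602.NC Pool.Agent.W602.TL
  Pool.Agent.TH152.HY Pool.Agent.W602.GT Pool.Agent.W603.LV Polynomial

section wr

variable {k K K₁ : Type} [Field k] [Field K] [Field K₁] [Algebra k K] [Algebra k K₁]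
  [Algebra K K₁] [IsScalarTower k K K₁] {D : Derivation k K K} {G : ℕ → K → Prop}
  [FiniteDimensional K K₁] {pb : PowerBasis K K₁} (h : Filt D G)

include h

theorem HG.det {m : ℕ} (M : Matrix (Fin m) (Fin m) K₁) {A : ℕ} (hM : ∀ i j, HG pb G A (M i j)) :
    HG pb G (m * A) M.det := by
  classical
  rw [Matrix.det_apply]
  refine HG.sum h _ _ fun σ _ => ?_
  have h1 : HG pb G (m * A) (∏ i, M (σ i) i) := by
    have hgen : ∀ s : Finset (Fin m), HG pb G (s.card * A) (∏ i ∈ s, M (σ i) i) := by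
      intro s
      induction s using Finset.induction_on with
      | empty => simpa using HG.one h 0
      | insert a s ha ih =>
        rw [Finset.prod_insert ha, Finset.card_insert_of_notMem ha, add_mul, one_mul, add_comm]
        exact HG.mul h (hM _ _) ih
    have := hgen Finset.univ
    rwa [Finset.card_univ, Fintype.card_fin] at this
  rcases Int.units_eq_one_or (Equiv.Perm.sign σ) with e | e
  · rw [e, one_smul]; exact h1
  · rw [e, Units.neg_smul, one_smul]
    have h2 := HG.mul h (HG.const (pb := pb) (K₁ := K₁) h (-1) 0) h1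
    rw [map_neg, map_one, neg_one_mul, zero_add] at h2
    exact h2

theorem HG.wr [CharZero K] (hf : ∀ i, G 1 ((minpoly K pb.gen).coeff i))
    {D₁ : Derivation k K₁ K₁}
    (hD : ∀ x : K, D₁ (algebraMap K K₁ x) = algebraMap K K₁ (D x))
    (hδ : G 1 (Algebra.norm K (Polynomial.aeval pb.gen (derivative (minpoly K pb.gen))))⁻¹)
    {m : ℕ} (f : Fin m → K₁) {A : ℕ} (hfA : ∀ i, HG pb G A (f i)) :
    ∃ A', HG pb G A' (wr D₁ f) := by
  have h1 : ∀ r i, HG pb G ((E2 pb.dim)^[r] A) ((⇑D₁)^[r] (f i)) := by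
    intro r i
    induction r with
    | zero => exact hfA i
    | succ r ih =>
      rw [Function.iterate_succ_apply', Function.iterate_succ_apply']
      exact HG.der h hf hD hδ ih
  have hmono : Monotone fun r => (E2 pb.dim)^[r] A := by
    apply monotone_nat_of_le_succ
    intro r
    rw [Function.iterate_succ_apply']
    unfold E2
    omega
  refine ⟨m * (E2 pb.dim)^[m] A, ?_⟩
  unfold Pool.Agent.W603.LV.wr wm
  refine HG.det h _ fun i r => ?_
  exact HG.mono h (hmono r.2.le) (h1 r i)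

end wr

variable {K₁ : Type} [Field K₁] [Algebra MK K₁] [Algebra ℂ K₁] [IsScalarTower ℂ MK K₁]
  [FiniteDimensional MK K₁]

theorem dsc_ne (pb : PowerBasis MK K₁) : dsc pb ≠ 0 := by
  unfold dsc
  rw [Ne, Algebra.norm_eq_zero_iff]
  have hsep : (minpoly MK pb.gen).Separable := (minpoly.irreducible pb.isIntegral_gen).separable
  exact hsep.aeval_derivative_ne_zero (minpoly.aeval MK pb.gen)

/-- the members of the family -/
noncomputable def fam (pb : PowerBasis MK K₁) {m : ℕ} (β : Fin (m + 1) → K₁) :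
    Ix pb.dim m → MK
  | Sum.inl _ => 1
  | Sum.inr (Sum.inl _) => dsc pb
  | Sum.inr (Sum.inr (Sum.inl j)) => Algebra.norm MK (β j)
  | Sum.inr (Sum.inr (Sum.inr (Sum.inl k))) => (minpoly MK pb.gen).coeff k
  | Sum.inr (Sum.inr (Sum.inr (Sum.inr x))) => dsc pb * pb.basis.repr (β x.1) x.2

/-- the upper bound for the members of the family -/
theorem fam_le (pb : PowerBasis MK K₁) {m : ℕ} {β : Fin (m + 1) → K₁} {z : ℂ}
    {b : Fin pb.dim → Fin (m + 1) → ℂ} (hb0 : ∀ i, b i 0 = 1) {c : ℝ} (hc : 0 ≤ c)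
    (h1 : ∀ j, Fn (Algebra.norm MK (β j)) z = ∏ i, b i j)
    (h2 : ∀ k, ‖Fn ((minpoly MK pb.gen).coeff k) z‖ ≤ (1 + c * ∏ i, ‖b i‖) ^ pb.dim)
    (h3 : ‖Fn (dsc pb) z‖ ≤ ((1 + 2 * (c * ∏ i, ‖b i‖)) ^ pb.dim) ^ pb.dim)
    (h4 : ∀ j k, ‖Fn (dsc pb * pb.basis.repr (β j) k) z‖ ≤
      pb.dim * ((∏ i, ‖b i‖) * ((1 + 2 * (c * ∏ i, ‖b i‖)) ^ pb.dim) ^ pb.dim *
        (1 + c * ∏ i, ‖b i‖) ^ pb.dim)) :
    1 ≤ ∏ i, ‖b i‖ ∧ ∀ x : Ix pb.dim m, ‖Fn (nz (fam pb β x)) z‖ ≤
      ((pb.dim + 1) * (1 + 2 * c) ^ an pb.dim) * (∏ i, ‖b i‖) ^ an pb.dim := by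
  have hbn : ∀ i, 1 ≤ ‖b i‖ := by
    intro i
    have h1 := norm_le_pi_norm (b i) 0
    rw [hb0, norm_one] at h1
    exact h1
  have hS1 : 1 ≤ ∏ i, ‖b i‖ := by
    calc (1 : ℝ) = ∏ _i : Fin pb.dim, (1 : ℝ) := by rw [Finset.prod_const_one]
      _ ≤ _ := Finset.prod_le_prod (fun _ _ => zero_le_one) fun l _ => hbn l
  refine ⟨hS1, ?_⟩
  have hpr : ∀ j, ‖∏ i, b i j‖ ≤ ∏ i, ‖b i‖ := by
    intro j
    rw [norm_prod]
    exact Finset.prod_le_prod (fun _ _ => norm_nonneg _) fun i _ => norm_le_pi_norm (b i) j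
  set S := ∏ i, ‖b i‖ with hS
  set n := pb.dim with hn
  set M := (1 + 2 * c) * S with hM
  have hM1 : 1 ≤ M := one_le_mul_of_one_le_of_one_le (by linarith) hS1
  have hMS : S ≤ M := by
    rw [hM]
    exact le_mul_of_one_le_left (by linarith) (by linarith)
  have e1 : 1 + c * S ≤ M := by rw [hM]; nlinarith
  have e2 : 1 + 2 * (c * S) ≤ M := by rw [hM]; nlinarith
  have hbig : ((n + 1 : ℝ) * (1 + 2 * c) ^ an n) * S ^ an n = (n + 1) * M ^ an n := by
    rw [hM, mul_pow]
    ring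
  rw [hbig]
  have hn0 : (0 : ℝ) ≤ n := Nat.cast_nonneg n
  have hpow : ∀ k, k ≤ an n → M ^ k ≤ (n + 1 : ℝ) * M ^ an n := by
    intro k hk
    calc M ^ k ≤ M ^ an n := pow_le_pow_right₀ hM1 hk
      _ = 1 * M ^ an n := (one_mul _).symm
      _ ≤ _ := by
        have : 0 ≤ M ^ an n := by positivity
        gcongr
        linarith
  have hone : (1 : ℝ) ≤ (n + 1 : ℝ) * M ^ an n := by
    have := hpow 0 (Nat.zero_le _)
    rwa [pow_zero] at this
  have hbound : ∀ x : Ix n m, ‖Fn (fam pb β x) z‖ ≤ (n + 1 : ℝ) * M ^ an n := by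
    rintro (x | x | j | k | x)
    · change ‖Fn 1 z‖ ≤ _
      have h4 : Fn 1 z = 1 := map_one (evO z)
      rw [h4, norm_one]
      exact hone
    · change ‖Fn (dsc pb) z‖ ≤ _
      refine h3.trans ?_
      have h5 : ((1 + 2 * (c * S)) ^ n) ^ n ≤ M ^ (n * n) := by
        rw [pow_mul]
        gcongr
      exact h5.trans (hpow _ (by unfold an; omega))
    · change ‖Fn (Algebra.norm MK (β j)) z‖ ≤ _
      rw [h1]
      refine ((hpr j).trans hMS).trans ?_
      have := hpow 1 (by unfold an; omega)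
      rwa [pow_one] at this
    · change ‖Fn ((minpoly MK pb.gen).coeff k) z‖ ≤ _
      refine (h2 k).trans ?_
      have h5 : (1 + c * S) ^ n ≤ M ^ n := by gcongr
      exact h5.trans (hpow _ (by unfold an; omega))
    · change ‖Fn (dsc pb * pb.basis.repr (β x.1) x.2) z‖ ≤ _
      refine (h4 _ _).trans ?_
      have h5 : S * ((1 + 2 * (c * S)) ^ n) ^ n * (1 + c * S) ^ n ≤ M * (M ^ n) ^ n * M ^ n := by
        gcongr
      have h6 : M * (M ^ n) ^ n * M ^ n = M ^ an n := by
        rw [← pow_mul, ← pow_succ', ← pow_add]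
        congr 1
        unfold an
        ring
      rw [h6] at h5
      have h7 : 0 ≤ M ^ an n := by positivity
      calc (n : ℝ) * (S * ((1 + 2 * (c * S)) ^ n) ^ n * (1 + c * S) ^ n) ≤ n * M ^ an n := by
            gcongr
        _ ≤ (n + 1 : ℝ) * M ^ an n := by
            gcongr
            linarith
  intro x
  by_cases hx : fam pb β x = 0
  · have h5 : nz (fam pb β x) = 1 := by
      classical
      unfold nz
      rw [if_pos hx]
    have h4 : Fn 1 z = 1 := map_one (evO z)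
    rw [h5, h4, norm_one]
    exact hone
  · rw [nz_of hx]
    exact hbound x

end Pool.Agent.Y221.AB
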