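import Pool.Agent.Y221.AB.Main2

/-!
Sums of high powers of algebroid functions: the main inequality.
-/

set_option autoImplicit false
set_option maxHeartbeats 800000
set_option linter.unusedSectionVars false

namespace Pool.Agent.Y221.AB

open Filter Metric Set Topology Pool.Agent.TH143.EL Pool.Agent.W602.NC Pool.Agent.W602.TL
  Pool.Agent.TH152.HY Pool.Agent.W602.GT Pool.Agent.W603.LV Polynomial

variable {K₁ : Type} [Field K₁] [Algebra MK K₁] [Algebra ℂ K₁] [IsScalarTower ℂ MK K₁]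
  [FiniteDimensional MK K₁]

/-- the final estimate -/
theorem estimate {P0 N S σ c₁ C Cf X Y d : ℝ} {A a K K' κ : ℕ} (hP0 : 0 ≤ P0) (hS1 : 1 ≤ S)
    (hσ : 1 ≤ σ) (hc₁ : 0 < c₁) (hCf : 0 < Cf) (hN : 0 ≤ N)
    (hK : a * K' ≤ K) (hκ : κ + 2 * A = K') (hσS : σ ≤ Cf * S ^ a) (hd : 0 < d)
    (hY : Y = X * (σ * (σ / d)))
    (hkey : N * (c₁ * S ^ K) ≤ P0 * (C * Y ^ A)) :
    (d ^ A * N) * σ ^ κ ≤ (C * Cf ^ K' / c₁) * X ^ A * P0 := by
  have h1 : (σ / Cf) ^ K' ≤ S ^ K := by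
    calc (σ / Cf) ^ K' ≤ (S ^ a) ^ K' := by
          gcongr
          rw [div_le_iff₀ hCf]
          linarith
      _ = S ^ (a * K') := (pow_mul _ _ _).symm
      _ ≤ S ^ K := pow_le_pow_right₀ hS1 hK
  have h2 : N * (c₁ * (σ / Cf) ^ K') ≤ P0 * (C * Y ^ A) := le_trans (by gcongr) hkey
  have h3 : Y ^ A = X ^ A * σ ^ (2 * A) / d ^ A := by
    rw [hY, mul_pow, mul_pow, div_pow, pow_mul, pow_two, mul_pow]
    ring
  have h4 : σ ^ K' = σ ^ κ * σ ^ (2 * A) := by rw [← hκ, pow_add]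
  have hs : 0 < σ ^ (2 * A) := by positivity
  have hdA : 0 < d ^ A := by positivity
  have hCK : 0 < Cf ^ K' := by positivity
  rw [h3, div_pow, h4] at h2
  have h5 : N * (c₁ * (σ ^ κ * σ ^ (2 * A) / Cf ^ K')) * (Cf ^ K' * d ^ A / (c₁ * σ ^ (2 * A))) ≤
      P0 * (C * (X ^ A * σ ^ (2 * A) / d ^ A)) * (Cf ^ K' * d ^ A / (c₁ * σ ^ (2 * A))) :=
    mul_le_mul_of_nonneg_right h2 (by positivity)
  calc (d ^ A * N) * σ ^ κ =
      N * (c₁ * (σ ^ κ * σ ^ (2 * A) / Cf ^ K')) * (Cf ^ K' * d ^ A / (c₁ * σ ^ (2 * A))) := by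
        field_simp
    _ ≤ _ := h5
    _ = _ := by field_simp

/-- the exponents -/
def cIx (n m K : ℕ) : Ix n m → ℕ
  | Sum.inr (Sum.inr (Sum.inl _)) => K
  | _ => 0

theorem prod_ix {n m : ℕ} (f : Ix n m → ℝ) (K : ℕ) :
    ∏ x : Ix n m, f x ^ cIx n m K x = (∏ j, f (Sum.inr (Sum.inr (Sum.inl j)))) ^ K := by
  simp only [Fintype.prod_sum_type, cIx, pow_zero, Finset.prod_const_one, one_mul, mul_one]
  rw [Finset.prod_pow]

theorem sum_ix (n m K : ℕ) : ∑ x : Ix n m, cIx n m K x = (m + 1) * K := by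
  simp only [Fintype.sum_sum_type, cIx, Finset.sum_const_zero, zero_add, add_zero,
    Finset.sum_const, Finset.card_univ, Fintype.card_fin, smul_eq_mul]

theorem ev_identity {z : ℂ} {a b r : MK} {ι : Type*} [Fintype ι] {x : ι → MK} {K : ℕ}
    (ha : a ∈ Oz z) (hb : b ∈ Oz z) (hr : r ∈ Oz z) (hx : ∀ i, x i ∈ Oz z)
    (h : a * b = (∏ i, x i) ^ K * r) :
    Fn a z * Fn b z = (∏ i, Fn (x i) z) ^ K * Fn r z := by
  have h1 : (⟨a, ha⟩ : Oz z) * ⟨b, hb⟩ = (∏ i, ⟨x i, hx i⟩) ^ K * ⟨r, hr⟩ := by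
    apply Subtype.ext
    simp only [MulMemClass.coe_mul, SubmonoidClass.coe_pow, SubmonoidClass.coe_finsetProd]
    exact h
  have h2 := congrArg (evO z) h1
  rw [map_mul, map_mul, map_pow, map_prod] at h2
  exact h2

theorem key_ineq (pb : PowerBasis MK K₁) {m : ℕ} {β : Fin (m + 1) → K₁} {s : Fin (m + 1) → ℂ}
    (hs : pb.gen = ∑ j, algebraMap ℂ K₁ (s j) * β j) (h0 : β 0 = 1) {z : ℂ}
    (hρ : pb.gen ∈ Sz pb z) (hrepr : ∀ j k, pb.basis.repr (β j) k ∈ Oz z)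
    (hdz : Fn (dsc pb) z ≠ 0) (hnm : ∀ j, Algebra.norm MK (β j) ∈ Oz z)
    {T : Finset (Fin (m + 1) → ℂ)} {c₁ : ℝ} (hc₁ : 0 < c₁)
    (hT : ∀ v : Fin pb.dim → Fin (m + 1) → ℂ, ∃ t ∈ T, c₁ * ∏ i, ‖v i‖ ≤
      ∏ i, ‖∑ j, t j * v i j‖) {K : ℕ} {NW : MK} (hN1 : NW ∈ Oz z)
    {R : (Fin (m + 1) → ℂ) → MK} (hR : ∀ t, R t ∈ Oz z)
    (hRe : ∀ t : Fin (m + 1) → ℂ,
      NW * Algebra.norm MK (∑ j, algebraMap ℂ K₁ (t j) * β j ^ K) =
        (∏ j, Algebra.norm MK (β j)) ^ K * R t) :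
    ∃ S : ℝ, 1 ≤ S ∧ (∀ x : Ix pb.dim m, ‖Fn (nz (fam pb β x)) z‖ ≤
      ((pb.dim + 1) * (1 + 2 * ∑ j, ‖s j‖) ^ an pb.dim) * S ^ an pb.dim) ∧
      ∃ t ∈ T, ‖Fn NW z‖ * (c₁ * S ^ K) ≤
        (∏ j, ‖Fn (Algebra.norm MK (β j)) z‖) ^ K * ‖Fn (R t) z‖ := by
  have hc0 : 0 ≤ ∑ j, ‖s j‖ := Finset.sum_nonneg fun _ _ => norm_nonneg _
  obtain ⟨b, hb0, hbn, hbj, hbk, hbd, hbg⟩ := spec pb z hs h0 hρ hrepr hdz
  obtain ⟨hS1, hfam⟩ := fam_le pb hb0 hc0 hbj hbk hbd hbg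
  refine ⟨∏ i, ‖b i‖, hS1, hfam, ?_⟩
  obtain ⟨t, htT, ht⟩ := hT fun i j => b i j ^ K
  refine ⟨t, htT, ?_⟩
  have hlow : c₁ * (∏ i, ‖b i‖) ^ K ≤
      ‖Fn (Algebra.norm MK (∑ j, algebraMap ℂ K₁ (t j) * β j ^ K)) z‖ := by
    rw [(hbn K t).2, norm_prod]
    refine le_trans ?_ ht
    refine mul_le_mul_of_nonneg_left ?_ hc₁.le
    rw [← Finset.prod_pow]
    exact Finset.prod_le_prod (fun _ _ => by positivity) fun i _ => norm_pow_le (b i) K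
  have hid := ev_identity hN1 (hbn K t).1 (hR t) hnm (hRe t)
  calc ‖Fn NW z‖ * (c₁ * (∏ i, ‖b i‖) ^ K) ≤ ‖Fn NW z‖ *
        ‖Fn (Algebra.norm MK (∑ j, algebraMap ℂ K₁ (t j) * β j ^ K)) z‖ := by gcongr
    _ = (∏ j, ‖Fn (Algebra.norm MK (β j)) z‖) ^ K * ‖Fn (R t) z‖ := by
        rw [← norm_mul, hid, norm_mul, norm_pow, norm_prod]

/-- **The main theorem, first form**: the coefficients of the functions are meromorphic at
infinity. -/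
theorem main_rat (pb : PowerBasis MK K₁) {m : ℕ} {β : Fin (m + 1) → K₁} {s : Fin (m + 1) → ℂ}
    (hs : pb.gen = ∑ j, algebraMap ℂ K₁ (s j) * β j) (h0 : β 0 = 1) (hβ0 : ∀ j, β j ≠ 0)
    {D₁ : Derivation ℂ K₁ K₁} (hD : ∀ x : MK, D₁ (algebraMap MK K₁ x) = algebraMap MK K₁ (MDer x))
    {N : ℕ} (hN : Nbd pb.dim m ≤ N) (hsum : ∑ j, β j ^ N = 0)
    (hW : wr D₁ (fun l => β ((Fin.last m).succAbove l) ^ N) ≠ 0) (x : Ix pb.dim m) :
    MInf (fam pb β x) := by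
  classical
  obtain ⟨A, hA⟩ : ∃ A, A = E4 pb.dim (2 + pb.dim) m := ⟨_, rfl⟩
  obtain ⟨K, hK⟩ : ∃ K, K = N - m := ⟨_, rfl⟩
  obtain ⟨a, ha⟩ : ∃ a, a = an pb.dim := ⟨_, rfl⟩
  obtain ⟨q, hq⟩ : ∃ q, q = pn pb.dim m := ⟨_, rfl⟩
  obtain ⟨K', hK'⟩ : ∃ K', K' = K / a := ⟨_, rfl⟩
  have han : 0 < a := by rw [ha]; unfold an; omega
  have hNm : m + a * (A * (q + 3) + 1) ≤ N := by rw [ha, hA, hq]; exact hN
  have hK1 : a * (A * (q + 3) + 1) ≤ K := by omega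
  have hK2 : A * (q + 3) + 1 ≤ K' := by
    rw [hK', Nat.le_div_iff_mul_le han, mul_comm]
    exact hK1
  obtain ⟨κ, hκ⟩ : ∃ κ, κ + 2 * A = K' := ⟨K' - 2 * A, by
    have : 2 * A ≤ A * (q + 3) := by nlinarith
    omega⟩
  have hAκ : A * (q + 1) < κ := by
    have : A * (q + 3) = A * (q + 1) + 2 * A := by ring
    omega
  have haK : a * K' ≤ K := by rw [hK']; exact Nat.mul_div_le K a
  have hK'K : K' ≤ K := by rw [hK']; exact Nat.div_le_self _ _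
  -- the family
  let e' : Fin (q + 1) ≃ Ix pb.dim m :=
    (Fintype.equivFinOfCardEq (by rw [hq]; exact card_Ix pb.dim m)).symm
  obtain ⟨u, hudef⟩ : ∃ u : Fin (q + 1) → MK, ∀ i, u i = nz (fam pb β (e' i)) := ⟨_, fun _ => rfl⟩
  have hu : ∀ i, u i ≠ 0 := fun i => by rw [hudef]; exact nz_ne _
  have hue : ∀ y, u (e'.symm y) = nz (fam pb β y) := fun y => by
    rw [hudef, Equiv.apply_symm_apply]
  obtain ⟨i0, hi0⟩ : ∃ i0, i0 = e'.symm (Sum.inl ()) := ⟨_, rfl⟩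
  obtain ⟨i1, hi1⟩ : ∃ i1, i1 = e'.symm (Sum.inr (Sum.inl ())) := ⟨_, rfl⟩
  have hu0 : u i0 = 1 := by
    rw [hi0, hue]
    exact nz_of one_ne_zero
  have hu1 : u i1 = dsc pb := by
    rw [hi1, hue]
    exact nz_of (dsc_ne pb)
  obtain ⟨e, U, hNr⟩ := exists_nrm u hu0
  have F : Filt MDer (Good U i0 i1) := filt_good i0 i1
  have hmem : ∀ y, Good U i0 i1 1 (fam pb β y) := fun y => by
    apply good_of_nz
    rw [← hue]
    exact hNr.good hu0 i1 _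
  have hinv : Good U i0 i1 1 (dsc pb)⁻¹ := by
    rw [← hu1]
    exact hNr.good_inv hu0 i1
  have hdeg : (minpoly MK pb.gen).natDegree = pb.dim := pb.natDegree_minpoly
  have hf : ∀ k, Good U i0 i1 1 ((minpoly MK pb.gen).coeff k) := by
    intro k
    rcases lt_trichotomy k pb.dim with h1 | h1 | h1
    · exact hmem (Sum.inr (Sum.inr (Sum.inr (Sum.inl ⟨k, h1⟩))))
    · have h2 := (minpoly.monic pb.isIntegral_gen).coeff_natDegree
      rw [hdeg, ← h1] at h2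
      rw [h2]
      exact F.one 1
    · rw [coeff_eq_zero_of_natDegree_lt (by omega)]
      exact F.zero 1
  have hrepr : ∀ j k, Good U i0 i1 2 (pb.basis.repr (β j) k) := by
    intro j k
    have h1 : pb.basis.repr (β j) k = (dsc pb)⁻¹ * (dsc pb * pb.basis.repr (β j) k) := by
      rw [inv_mul_cancel_left₀ (dsc_ne pb)]
    rw [h1]
    exact F.mul hinv (hmem (Sum.inr (Sum.inr (Sum.inr (Sum.inr (j, k))))))
  have hHG : ∀ j, HG pb (Good U i0 i1) (2 + pb.dim) (β j) := by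
    intro j
    have h1 : HG pb (Good U i0 i1) (2 + pb.dim) (aeval pb.gen (gj pb (β j))) := by
      refine HG.aeval F hf (fun k => ?_) ?_
      · rw [gj_coeff]
        split_ifs
        · exact hrepr j _
        · exact F.zero 2
      · rw [natDegree_le_iff_coeff_eq_zero]
        intro k hk
        rw [gj_coeff, dif_neg (by omega)]
    rwa [aeval_gj] at h1
  have hδ : Good U i0 i1 1
      (Algebra.norm MK (aeval pb.gen (derivative (minpoly MK pb.gen))))⁻¹ := hinv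
  -- the algebraic part
  have halg := fun t => alg_part (pb := pb) F hf hD hδ hHG (by omega : m ≤ N) hsum t
  rw [← hK, ← hA] at halg
  choose R hRG hRe using halg
  obtain ⟨NW, hNW⟩ : ∃ NW, NW = Algebra.norm MK
    (wr D₁ fun l => β ((Fin.last m).succAbove l) ^ N) := ⟨_, rfl⟩
  simp only [← hNW] at hRe
  have hNW0 : NW ≠ 0 := by
    rw [hNW, Ne, Algebra.norm_eq_zero_iff]
    exact hW
  obtain ⟨A', hA'⟩ := HG.wr (pb := pb) F hf hD hδ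
    (fun l => β ((Fin.last m).succAbove l) ^ N) (A := N * (2 + pb.dim)) fun l =>
      HG.pow F (hHG _) N
  have hNWG := HG.norm F hA'
  rw [← hNW] at hNWG
  choose CR hCR0 hCR using hRG
  obtain ⟨T, c₁, hc₁, hT⟩ := lowerT pb.dim m
  obtain ⟨CT, hCT⟩ : ∃ CT, CT = ∑ t ∈ T, CR t := ⟨_, rfl⟩
  have hCT0 : 0 ≤ CT := by rw [hCT]; exact Finset.sum_nonneg fun t _ => hCR0 t
  obtain ⟨Cf, hCf⟩ : ∃ Cf : ℝ, Cf = (pb.dim + 1) * (1 + 2 * ∑ j, ‖s j‖) ^ a := ⟨_, rfl⟩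
  have hCf0 : 0 < Cf := by
    have : 0 ≤ ∑ j, ‖s j‖ := Finset.sum_nonneg fun _ _ => norm_nonneg _
    rw [hCf]
    positivity
  -- the exponents
  obtain ⟨cc, hccd⟩ : ∃ cc : Fin (q + 1) → ℕ, ∀ i, cc i = cIx pb.dim m K (e' i) :=
    ⟨_, fun _ => rfl⟩
  have hcc : ∑ i, cc i = (m + 1) * K := by
    simp only [hccd]
    rw [Equiv.sum_comp e' (cIx pb.dim m K)]
    exact sum_ix _ _ K
  have hcp : ∀ f : Ix pb.dim m → ℝ, ∏ i, f (e' i) ^ cc i =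
      (∏ j, f (Sum.inr (Sum.inr (Sum.inl j)))) ^ K := by
    intro f
    simp only [hccd]
    rw [Equiv.prod_comp e' fun y => f y ^ cIx pb.dim m K y]
    exact prod_ix f K
  have hP0ne : dsc pb ^ A * NW ≠ 0 := mul_ne_zero (pow_ne_zero _ (dsc_ne pb)) hNW0
  have hfinal := engine hNr hu hu0 (c := cc) hP0ne hAκ (κ := κ) (by
      rw [hcc]
      nlinarith) (C := CT * Cf ^ K' / c₁) (by positivity) ?_
  · have h1 := minf_of_quot hNr hu hu0 hfinal (e'.symm x)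
    rw [hue] at h1
    exact minf_of_nz h1
  intro z ε B hε hε1 hB hcalm
  have hzz : z ∈ closedBall z ε := mem_closedBall_self hε.le
  have hgood : ∀ {a : ℕ} {y : MK}, Good U i0 i1 a y → y ∈ Oz z := by
    rintro a y ⟨C, -, h⟩
    exact (h z ε B hε hε1 hB hcalm).1
  have hd1 : dsc pb ∈ Oz z := hgood (hmem (Sum.inr (Sum.inl ())))
  have hN1 : NW ∈ Oz z := hgood hNWG
  refine ⟨(Oz z).mul_mem ((Oz z).pow_mem hd1 _) hN1, ?_⟩
  have hU0 := hcalm.1 i0 z hzz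
  have hU1 := hcalm.1 i1 z hzz
  have hval : ∀ i, Fn (u i) z = U i z / U i0 z := by
    intro i
    have := (hNr.val (i := i) hU0).2
    rwa [hu0, div_one] at this
  have hdz : Fn (dsc pb) z ≠ 0 := by
    rw [← hu1, hval]
    exact div_ne_zero hU1 hU0
  have hρ : pb.gen ∈ Sz pb z := fun i j => hgood (HG.gen F hf i j)
  obtain ⟨S, hS1, hfam, t, htT, hkey0⟩ := key_ineq pb hs h0 hρ (fun j k => hgood (hrepr j k)) hdz
    (fun j => hgood (hmem (Sum.inr (Sum.inr (Sum.inl j))))) hc₁ hT hN1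
    (fun t => (hCR t z ε B hε hε1 hB hcalm).1) hRe
  rw [← ha, ← hCf] at hfam
  obtain ⟨σ, hσ⟩ : ∃ σ, σ = sup U z / ‖U i0 z‖ := ⟨_, rfl⟩
  have hσ1 : 1 ≤ σ := by rw [hσ]; exact one_le_ratio hU0
  have hσS : σ ≤ Cf * S ^ a := by
    obtain ⟨i, hi⟩ := sup_attained U z
    rw [hσ, hi, ← norm_div, ← hval i, hudef]
    exact hfam (e' i)
  have hRz := (hCR t z ε B hε hε1 hB hcalm).2
  have hCRT : CR t ≤ CT := by
    rw [hCT]
    exact Finset.single_le_sum (f := CR) (fun t _ => hCR0 t) htT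
  have hY1 := one_le_BT (i0 := i0) (i1 := i1) hε hε1 hB hcalm
  have hTq : B / ε * Tq U i0 i1 z = B / ε * (σ * (σ / ‖Fn (dsc pb) z‖)) := by
    have h1 : ‖Fn (dsc pb) z‖ = ‖U i1 z‖ / ‖U i0 z‖ := by
      rw [← hu1, hval, norm_div]
    unfold Tq
    rw [h1, hσ]
    have a1 : ‖U i0 z‖ ≠ 0 := norm_ne_zero_iff.2 hU0
    have a2 : ‖U i1 z‖ ≠ 0 := norm_ne_zero_iff.2 hU1
    field_simp
  have hkey : ‖Fn NW z‖ * (c₁ * S ^ K) ≤
      (∏ j, ‖Fn (Algebra.norm MK (β j)) z‖) ^ K * (CT * (B / ε * Tq U i0 i1 z) ^ A) := by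
    refine hkey0.trans ?_
    refine mul_le_mul_of_nonneg_left (hRz.trans ?_) (by positivity)
    exact mul_le_mul_of_nonneg_right hCRT (by positivity)
  have hest := estimate (P0 := (∏ j, ‖Fn (Algebra.norm MK (β j)) z‖) ^ K) (by positivity) hS1 hσ1
    hc₁ hCf0 (norm_nonneg (Fn NW z)) haK hκ hσS (norm_pos_iff.2 hdz) hTq hkey
  have e1 : Fn (dsc pb ^ A * NW) z = Fn (dsc pb) z ^ A * Fn NW z := by
    have := map_mul (evO z) (⟨dsc pb, hd1⟩ ^ A) ⟨NW, hN1⟩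
    rw [map_pow] at this
    exact this
  rw [e1, norm_mul, norm_pow, ← hσ]
  refine hest.trans (le_of_eq ?_)
  congr 1
  -- the product
  have h3 : ∀ i, ‖U i z‖ / ‖U i0 z‖ = ‖Fn (nz (fam pb β (e' i))) z‖ := by
    intro i
    rw [← norm_div, ← hval i, hudef]
  have h5 : ∏ i, (‖U i z‖ / ‖U i0 z‖) ^ cc i = ∏ i, ‖Fn (nz (fam pb β (e' i))) z‖ ^ cc i :=
    Finset.prod_congr rfl fun i _ => by rw [h3 i]
  rw [h5, hcp fun y => ‖Fn (nz (fam pb β y)) z‖]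
  congr 1
  refine Finset.prod_congr rfl fun j _ => ?_
  have h4 : nz (fam pb β (Sum.inr (Sum.inr (Sum.inl j)))) = Algebra.norm MK (β j) := by
    refine nz_of ?_
    change Algebra.norm MK (β j) ≠ 0
    rw [Ne, Algebra.norm_eq_zero_iff]
    exact hβ0 j
  rw [h4]

end Pool.Agent.Y221.AB
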