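import Pool.Agent.Y221.AB.Ct
import Pool.Agent.Y221.AB.Main3

/-!
Sums of high powers of algebroid functions: the functions are constant.
-/

set_option autoImplicit false
set_option maxHeartbeats 400000
set_option linter.unusedSectionVars false

namespace Pool.Agent.Y221.AB

open Filter Metric Set Topology Pool.Agent.TH143.EL Polynomial Pool.Agent.W602.GT
  Pool.Agent.W603.LV IntermediateField

section prim

variable {E : Type} [Field E] [Algebra MK E] [Algebra ℂ E] [IsScalarTower ℂ MK E]
  [FiniteDimensional MK E]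

/-- a primitive element which is a complex linear combination -/
theorem exists_lin_prim {m : ℕ} (β : Fin (m + 1) → E) :
    ∃ s : Fin (m + 1) → ℂ, ∀ j, β j ∈ MK⟮∑ j, algebraMap ℂ E (s j) * β j⟯ := by
  classical
  let ρ : ℕ → E := fun t => ∑ j : Fin (m + 1), algebraMap ℂ E ((t : ℂ) ^ (j : ℕ)) * β j
  have hfin : Finite (IntermediateField MK E) :=
    Field.finite_intermediateField_of_exists_primitive_element MK E
      (Field.exists_primitive_element MK E)
  obtain ⟨F₀, hF₀⟩ := Finite.exists_infinite_fiber fun t : ℕ => MK⟮ρ t⟯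
  let em := Infinite.natEmbedding ((fun t : ℕ => MK⟮ρ t⟯) ⁻¹' {F₀})
  let t : Fin (m + 1) → ℕ := fun i => (em i : ℕ)
  have ht : ∀ i, MK⟮ρ (t i)⟯ = F₀ := fun i => (em i).2
  have htinj : Function.Injective t := by
    intro i j h
    have h1 := em.injective (Subtype.ext h)
    exact Fin.ext h1
  let V : Matrix (Fin (m + 1)) (Fin (m + 1)) ℂ := Matrix.vandermonde fun i => (t i : ℂ)
  have hV : V.det ≠ 0 := by
    rw [Matrix.det_vandermonde_ne_zero_iff]
    intro i j h
    have h1 : ((t i : ℕ) : ℂ) = ((t j : ℕ) : ℂ) := h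
    exact htinj (by exact_mod_cast h1)
  have hmem : ∀ i, ρ (t i) ∈ F₀ := by
    intro i
    rw [← ht i]
    exact mem_adjoin_simple_self MK _
  have hβ : ∀ j, β j = ∑ i, algebraMap ℂ E (V⁻¹ j i) * ρ (t i) := by
    intro j
    have h1 : V⁻¹ * V = 1 := Matrix.nonsing_inv_mul V (isUnit_iff_ne_zero.2 hV)
    have h2 : ∑ i, algebraMap ℂ E (V⁻¹ j i) * ρ (t i) =
        ∑ l, algebraMap ℂ E ((V⁻¹ * V) j l) * β l := by
      simp only [ρ, Finset.mul_sum]
      rw [Finset.sum_comm]
      refine Finset.sum_congr rfl fun l _ => ?_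
      rw [Matrix.mul_apply, map_sum, Finset.sum_mul]
      refine Finset.sum_congr rfl fun i _ => ?_
      rw [map_mul, mul_assoc]
      rfl
    rw [h2, h1, Finset.sum_eq_single j]
    · rw [Matrix.one_apply_eq, map_one, one_mul]
    · intro l _ hl
      rw [Matrix.one_apply_ne (Ne.symm hl), map_zero, zero_mul]
    · intro h
      exact absurd (Finset.mem_univ j) h
  refine ⟨fun j => ((t 0 : ℕ) : ℂ) ^ (j : ℕ), fun j => ?_⟩
  change β j ∈ MK⟮ρ (t 0)⟯
  rw [ht 0, hβ j]
  refine sum_mem fun i _ => mul_mem ?_ (hmem i)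
  rw [IsScalarTower.algebraMap_apply ℂ MK E]
  exact F₀.algebraMap_mem _

variable (E) in
/-- the embedding over composition with the exponential function -/
theorem exists_psi : ∃ ψ : E →+* AlgebraicClosure MK,
    ∀ x : MK, ψ (algebraMap MK E x) = algebraMap MK (AlgebraicClosure MK) (phE x) := by
  let f : MK →+* AlgebraicClosure MK := (algebraMap MK (AlgebraicClosure MK)).comp phE
  have h1 : ∀ x, f x = algebraMap MK (AlgebraicClosure MK) (phE x) := fun _ => rfl
  clear_value f
  let i1 := f.toAlgebra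
  let g : E →ₐ[MK] AlgebraicClosure MK := IsAlgClosed.lift
  refine ⟨g.toRingHom, fun x => ?_⟩
  rw [← h1]
  exact g.commutes x

end prim

/-- the coefficients of minimal polynomials -/
theorem coeff_alg {Ω : Type} [Field Ω] [Algebra MK Ω] {y : Ω} {g : MK[X]} (hg : g.Monic)
    (hy : (g.map phE).aeval y = 0) (k : ℕ) :
    ∃ P : MK[X], P ≠ 0 ∧ P.eval₂ phE ((minpoly MK y).coeff k) = 0 := by
  have hint : IsIntegral MK y := ⟨g.map phE, hg.map _, hy⟩
  let L : Subfield MK := phE.fieldRange
  let gL : L[X] := g.map phE.rangeRestrictField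
  have hgL : gL.Monic := hg.map _
  have hgm : gL.map (algebraMap L MK) = g.map phE := by
    simp only [gL]
    rw [Polynomial.map_map]
    congr 1
  have hdvd : minpoly MK y ∣ gL.map (algebraMap L MK) := by
    rw [hgm]
    exact minpoly.dvd MK y hy
  obtain ⟨Q, hQ, hQ0⟩ := isIntegral_coeff_of_dvd gL (minpoly MK y) hgL (minpoly.monic hint) hdvd k
  obtain ⟨P, hP⟩ := Polynomial.map_surjective phE.rangeRestrictField
    phE.rangeRestrictField_bijective.surjective Q
  refine ⟨P, ?_, ?_⟩
  · rintro rfl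
    rw [Polynomial.map_zero] at hP
    exact hQ.ne_zero hP.symm
  · rw [← hP, Polynomial.eval₂_map] at hQ0
    exact hQ0

end Pool.Agent.Y221.AB
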