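import Pool.Agent.Y221.AB.Fn
import Pool.Agent.Y221.AB.Cx
import Pool.Agent.Y221.AB.Alg

/-!
Evaluation of the norms of the elements of a finite extension of the field of meromorphic
functions at a point.
-/

set_option autoImplicit false
set_option maxHeartbeats 400000
set_option linter.unusedSectionVars false

namespace Pool.Agent.Y221.AB

open Filter Topology Set Pool.Agent.TH143.EL Polynomial

variable {K₁ : Type} [Field K₁] [Algebra MK K₁] [Algebra ℂ K₁] [IsScalarTower ℂ MK K₁]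
  (pb : PowerBasis MK K₁) (z : ℂ)

/-- the elements whose multiplication matrices are holomorphic at `z` -/
def Sz : Subalgebra ℂ K₁ where
  carrier := {x | ∀ i j, Algebra.leftMulMatrix pb.basis x i j ∈ Oz z}
  mul_mem' := by
    intro x y hx hy i j
    rw [map_mul, Matrix.mul_apply]
    exact sum_mem fun l _ => mul_mem (hx i l) (hy l j)
  add_mem' := by
    intro x y hx hy i j
    rw [map_add]
    exact add_mem (hx i j) (hy i j)
  algebraMap_mem' := by
    intro c i j
    rw [IsScalarTower.algebraMap_apply ℂ MK K₁, AlgHom.commutes, Matrix.algebraMap_matrix_apply]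
    split_ifs
    · exact (Oz z).algebraMap_mem c
    · exact zero_mem _

theorem mem_Sz {x : K₁} : x ∈ Sz pb z ↔ ∀ i j, Algebra.leftMulMatrix pb.basis x i j ∈ Oz z :=
  Iff.rfl

/-- the multiplication matrix over the local ring -/
noncomputable def Mo (x : Sz pb z) : Matrix (Fin pb.dim) (Fin pb.dim) (Oz z) :=
  Matrix.of fun i j => ⟨Algebra.leftMulMatrix pb.basis x.1 i j, x.2 i j⟩

theorem Mo_apply (x : Sz pb z) (i j : Fin pb.dim) :
    ((Mo pb z x i j : Oz z) : MK) = Algebra.leftMulMatrix pb.basis x.1 i j := rfl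

theorem Mo_map (x : Sz pb z) : (Mo pb z x).map (Oz z).val = Algebra.leftMulMatrix pb.basis x.1 := by
  ext i j
  rfl

/-- the multiplication matrix at `z` -/
noncomputable def Ph (x : Sz pb z) : Matrix (Fin pb.dim) (Fin pb.dim) ℂ := (Mo pb z x).map (evO z)

theorem Mo_inj {A B : Matrix (Fin pb.dim) (Fin pb.dim) (Oz z)}
    (h : A.map (Oz z).val = B.map (Oz z).val) : A = B := by
  ext i j
  have := congrFun (congrFun h i) j
  exact this

theorem Ph_mul (x y : Sz pb z) : Ph pb z (x * y) = Ph pb z x * Ph pb z y := by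
  unfold Ph
  have h : Mo pb z (x * y) = Mo pb z x * Mo pb z y := by
    apply Mo_inj
    rw [Mo_map, Matrix.map_mul, Mo_map, Mo_map, ← map_mul]
    rfl
  rw [h, Matrix.map_mul]

theorem Ph_add (x y : Sz pb z) : Ph pb z (x + y) = Ph pb z x + Ph pb z y := by
  unfold Ph
  have h : Mo pb z (x + y) = Mo pb z x + Mo pb z y := by
    apply Mo_inj
    rw [Mo_map, Matrix.map_add _ (map_add _), Mo_map, Mo_map, ← map_add]
    rfl
  rw [h, Matrix.map_add _ (map_add _)]

theorem of_mem {a : MK} (ha : a ∈ Oz z) : algebraMap MK K₁ a ∈ Sz pb z := by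
  intro i j
  rw [AlgHom.commutes, Matrix.algebraMap_matrix_apply]
  split_ifs
  · exact ha
  · exact zero_mem _

theorem Ph_of {a : MK} (ha : a ∈ Oz z) :
    Ph pb z ⟨algebraMap MK K₁ a, of_mem pb z ha⟩ = Fn a z • (1 : Matrix _ _ ℂ) := by
  have h : Mo pb z ⟨algebraMap MK K₁ a, of_mem pb z ha⟩ =
      (⟨a, ha⟩ : Oz z) • (1 : Matrix (Fin pb.dim) (Fin pb.dim) (Oz z)) := by
    apply Mo_inj
    rw [Mo_map, AlgHom.commutes]
    ext i j
    rw [Matrix.algebraMap_matrix_apply, Matrix.map_apply, Matrix.smul_apply, Matrix.one_apply]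
    split_ifs
    · simp
    · simp
  unfold Ph
  rw [h]
  ext i j
  rw [Matrix.map_apply, Matrix.smul_apply, Matrix.smul_apply, Matrix.one_apply, Matrix.one_apply]
  split_ifs
  · simp [evO_apply]
  · simp

theorem Ph_one : Ph pb z 1 = 1 := by
  have h1 : (1 : MK) ∈ Oz z := one_mem _
  have h2 := Ph_of pb z h1
  have h3 : (⟨algebraMap MK K₁ 1, of_mem pb z h1⟩ : Sz pb z) = 1 := Subtype.ext (map_one _)
  have h4 : Fn 1 z = 1 := map_one (evO z)
  rw [h3, h4, one_smul] at h2
  exact h2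

/-- the multiplication matrix at `z` as a homomorphism -/
noncomputable def PhH : Sz pb z →ₐ[ℂ] Matrix (Fin pb.dim) (Fin pb.dim) ℂ :=
  AlgHom.mk' { toFun := Ph pb z
               map_one' := Ph_one pb z
               map_mul' := Ph_mul pb z
               map_zero' := by
                 have h := Ph_add pb z 0 0
                 rw [add_zero] at h
                 exact left_eq_add.1 h
               map_add' := Ph_add pb z }
    (fun c x => by
      have hc : algebraMap ℂ MK c ∈ Oz z := (Oz z).algebraMap_mem c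
      have h1 : c • x = ⟨algebraMap MK K₁ (algebraMap ℂ MK c), of_mem pb z hc⟩ * x := by
        apply Subtype.ext
        change c • x.1 = algebraMap MK K₁ (algebraMap ℂ MK c) * x.1
        rw [Algebra.smul_def, IsScalarTower.algebraMap_apply ℂ MK K₁]
      change Ph pb z (c • x) = c • Ph pb z x
      have h2 : Fn (algebraMap ℂ MK c) z = c := (Fn_const c z).self_of_nhds
      rw [h1, Ph_mul, Ph_of pb z hc, h2, Matrix.smul_mul, one_mul])

theorem PhH_apply (x : Sz pb z) : PhH pb z x = Ph pb z x := rfl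

theorem norm_mem [FiniteDimensional MK K₁] (x : Sz pb z) : Algebra.norm MK x.1 ∈ Oz z ∧
    Fn (Algebra.norm MK x.1) z = (Ph pb z x).det := by
  have h1 : Algebra.norm MK x.1 = ((Mo pb z x).det : Oz z) := by
    rw [Algebra.norm_eq_matrix_det pb.basis, ← Mo_map]
    exact (RingHom.map_det (Oz z).val.toRingHom (Mo pb z x)).symm
  rw [h1]
  refine ⟨Subtype.property _, ?_⟩
  rw [← evO_apply]
  exact RingHom.map_det (evO z).toRingHom (Mo pb z x)

theorem charpoly_coeff (hρ : pb.gen ∈ Sz pb z) (k : ℕ) :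
    (minpoly MK pb.gen).coeff k ∈ Oz z ∧
      Fn ((minpoly MK pb.gen).coeff k) z = (Ph pb z ⟨pb.gen, hρ⟩).charpoly.coeff k := by
  have h1 : minpoly MK pb.gen = (Mo pb z ⟨pb.gen, hρ⟩).charpoly.map (Oz z).val.toRingHom := by
    rw [← charpoly_leftMulMatrix pb, ← Matrix.charpoly_map]
    congr 1
  have h2 : (Ph pb z ⟨pb.gen, hρ⟩).charpoly =
      (Mo pb z ⟨pb.gen, hρ⟩).charpoly.map (evO z).toRingHom := by
    rw [← Matrix.charpoly_map]
    rfl
  rw [h1, h2, coeff_map, coeff_map]
  exact ⟨Subtype.property _, rfl⟩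

theorem Ph_aeval (hρ : pb.gen ∈ Sz pb z) (g : MK[X]) (gz : ℂ[X]) (hg : ∀ k, g.coeff k ∈ Oz z)
    (hz : ∀ k, gz.coeff k = Fn (g.coeff k) z) :
    ∃ h : aeval pb.gen g ∈ Sz pb z,
      Ph pb z ⟨aeval pb.gen g, h⟩ = aeval (Ph pb z ⟨pb.gen, hρ⟩) gz := by
  obtain ⟨N, hN1, hN2⟩ : ∃ N, g.natDegree < N ∧ gz.natDegree < N :=
    ⟨max g.natDegree gz.natDegree + 1, by omega, by omega⟩
  let ρ : Sz pb z := ⟨pb.gen, hρ⟩
  let y : Sz pb z := ∑ k ∈ Finset.range N, ⟨algebraMap MK K₁ (g.coeff k), of_mem pb z (hg k)⟩ * ρ ^ k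
  have hy : (y : K₁) = aeval pb.gen g := by
    simp only [y, ρ]
    rw [aeval_eq_sum_range' hN1]
    simp [Algebra.smul_def]
  refine ⟨hy ▸ y.2, ?_⟩
  have h1 : (⟨aeval pb.gen g, hy ▸ y.2⟩ : Sz pb z) = y := Subtype.ext hy.symm
  rw [h1, ← PhH_apply]
  simp only [y]
  rw [map_sum, aeval_eq_sum_range' hN2]
  refine Finset.sum_congr rfl fun k _ => ?_
  rw [map_mul, map_pow, PhH_apply, PhH_apply, Ph_of pb z (hg k), hz, Matrix.smul_mul, one_mul]

end Pool.Agent.Y221.AB
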